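import Mathlib

namespace Pool.Agent.Helper683

abbrev E3 := EuclideanSpace ℝ (Fin 3)

/-- signed volume (times six) of the tetrahedron with vertices `a b c d` -/
def det4 (a b c d : E3) : ℝ :=
  (b 0 - a 0) * ((c 1 - a 1) * (d 2 - a 2) - (c 2 - a 2) * (d 1 - a 1))
  - (b 1 - a 1) * ((c 0 - a 0) * (d 2 - a 2) - (c 2 - a 2) * (d 0 - a 0))
  + (b 2 - a 2) * ((c 0 - a 0) * (d 1 - a 1) - (c 1 - a 1) * (d 0 - a 0))

theorem det4_swap12 (a b c d : E3) : det4 b a c d = - det4 a b c d := by
  unfold det4; ring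
theorem det4_swap23 (a b c d : E3) : det4 a c b d = - det4 a b c d := by
  unfold det4; ring
theorem det4_swap34 (a b c d : E3) : det4 a b d c = - det4 a b c d := by
  unfold det4; ring

theorem e3_ext {x y : E3} (h0 : x 0 = y 0) (h1 : x 1 = y 1) (h2 : x 2 = y 2) : x = y := by
  ext i; fin_cases i <;> assumption

/-- three term relation -/
theorem plucker (m n i j k l : E3) :
    det4 m n k l * det4 m n i j - det4 m n j l * det4 m n i k + det4 m n j k * det4 m n i l = 0 := by
  unfold det4; ring

/-- sum of the coefficients of the affine dependency of five points -/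
theorem dep_sum (a b c d e : E3) :
    det4 b c d e - det4 a c d e + det4 a b d e - det4 a b c e + det4 a b c d = 0 := by
  unfold det4; ring

theorem dep_lin (a b c d e : E3) :
    det4 b c d e • a - det4 a c d e • b + det4 a b d e • c - det4 a b c e • d + det4 a b c d • e = 0 := by
  apply e3_ext <;> simp [det4] <;> ring

/-- affine independence of four points with nonzero determinant -/
theorem indep (a b c d : E3) (h : det4 a b c d ≠ 0) (w x y z : ℝ) (hs : w + x + y + z = 0)
    (hl : w • a + x • b + y • c + z • d = 0) : w = 0 ∧ x = 0 ∧ y = 0 ∧ z = 0 := by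
  have h0 : w * a 0 + x * b 0 + y * c 0 + z * d 0 = 0 := by
    have := congrArg (fun v : E3 => v 0) hl; simpa using this
  have h1 : w * a 1 + x * b 1 + y * c 1 + z * d 1 = 0 := by
    have := congrArg (fun v : E3 => v 1) hl; simpa using this
  have h2 : w * a 2 + x * b 2 + y * c 2 + z * d 2 = 0 := by
    have := congrArg (fun v : E3 => v 2) hl; simpa using this
  have hw : w = -x - y - z := by linarith
  subst hw
  have hx : x * det4 a b c d = 0 := by
    unfold det4
    linear_combination ((c 1 - a 1) * (d 2 - a 2) - (c 2 - a 2) * (d 1 - a 1)) * h0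
      - ((c 0 - a 0) * (d 2 - a 2) - (c 2 - a 2) * (d 0 - a 0)) * h1
      + ((c 0 - a 0) * (d 1 - a 1) - (c 1 - a 1) * (d 0 - a 0)) * h2
  have hy : y * det4 a b c d = 0 := by
    unfold det4
    linear_combination -((b 1 - a 1) * (d 2 - a 2) - (b 2 - a 2) * (d 1 - a 1)) * h0
      + ((b 0 - a 0) * (d 2 - a 2) - (b 2 - a 2) * (d 0 - a 0)) * h1
      - ((b 0 - a 0) * (d 1 - a 1) - (b 1 - a 1) * (d 0 - a 0)) * h2
  have hz : z * det4 a b c d = 0 := by
    unfold det4
    linear_combination ((b 1 - a 1) * (c 2 - a 2) - (b 2 - a 2) * (c 1 - a 1)) * h0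
      - ((b 0 - a 0) * (c 2 - a 2) - (b 2 - a 2) * (c 0 - a 0)) * h1
      + ((b 0 - a 0) * (c 1 - a 1) - (b 1 - a 1) * (c 0 - a 0)) * h2
  have hx' : x = 0 := by rcases mul_eq_zero.mp hx with h' | h'; exacts [h', absurd h' h]
  have hy' : y = 0 := by rcases mul_eq_zero.mp hy with h' | h'; exacts [h', absurd h' h]
  have hz' : z = 0 := by rcases mul_eq_zero.mp hz with h' | h'; exacts [h', absurd h' h]
  subst hx' hy' hz'
  simp

end Pool.Agent.Helper683
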