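import Mathlib

namespace Pool.Agent.Helper683

def eq5 (a b c d e : Bool) : Bool := (a == b) && ((b == c) && ((c == d) && (d == e)))
/-- sign condition for three reals with `x - y + z = 0` -/
def gp (x y z : Bool) : Bool := !((x && (!y && z)) || (!x && (y && !z)))
def all2 (f : Bool → Bool) : Bool := f false && f true
theorem all2_spec {f : Bool → Bool} (h : all2 f = true) (b : Bool) : f b = true := by
  unfold all2 at h; cases b <;> simp_all
theorem or_spec {a b : Bool} (h : (!a || b) = true) (ha : a = true) : b = true := by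
  simp_all

theorem bool_l1_aux : (all2 fun b01 => all2 fun b02 => all2 fun b03 => all2 fun b04 => all2 fun b05 => all2 fun b12 => all2 fun b13 => all2 fun b14 => all2 fun b15 => all2 fun b23 => (!(gp (b01 == b23) (b02 == b13) (b03 == b12)) || all2 fun b24 => (!(gp (b01 == b24) (b02 == b14) (b04 == b12)) || all2 fun b25 => (!(gp (b01 == b25) (b02 == b15) (b05 == b12)) || all2 fun b34 => (!(gp (b01 == b34) (b03 == b14) (b04 == b13)) || (!(gp (b02 == b34) (b03 == b24) (b04 == b23)) || (!(gp (b12 == b34) (b13 == b24) (b14 == b23)) || all2 fun b35 => (!(gp (b01 == b35) (b03 == b15) (b05 == b13)) || (!(gp (b02 == b35) (b03 == b25) (b05 == b23)) || (!(gp (b12 == b35) (b13 == b25) (b15 == b23)) || all2 fun b45 => (!(gp (b01 == b45) (b04 == b15) (b05 == b14)) || (!(gp (b02 == b45) (b04 == b25) (b05 == b24)) || (!(gp (b03 == b45) (b04 == b35) (b05 == b34)) || (!(gp (b12 == b45) (b14 == b25) (b15 == b24)) || (!(gp (b13 == b45) (b14 == b35) (b15 == b34)) || (!(gp (b23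 == b45) (b24 == b35) (b25 == b34)) || (((eq5 b01 (!b02) b03 b04 (!b05)) ^^ (eq5 b01 (!b12) b13 b14 (!b15)) ^^ (eq5 b02 (!b12) b23 b24 (!b25)) ^^ (eq5 b03 (!b13) b23 b34 (!b35)) ^^ (eq5 b04 (!b14) b24 (!b34) (!b45)) ^^ (eq5 b05 (!b15) b25 (!b35) (!b45))) == false))))))))))))))))) = true := by
  decide +kernel

theorem bool_l1 (b01 b02 b03 b04 b05 b12 b13 b14 b15 b23 b24 b25 b34 b35 b45 : Bool)
    (h0 : (gp (b01 == b23) (b02 == b13) (b03 == b12)) = true)
    (h1 : (gp (b01 == b24) (b02 == b14) (b04 == b12)) = true)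
    (h2 : (gp (b01 == b25) (b02 == b15) (b05 == b12)) = true)
    (h3 : (gp (b01 == b34) (b03 == b14) (b04 == b13)) = true)
    (h6 : (gp (b02 == b34) (b03 == b24) (b04 == b23)) = true)
    (h10 : (gp (b12 == b34) (b13 == b24) (b14 == b23)) = true)
    (h4 : (gp (b01 == b35) (b03 == b15) (b05 == b13)) = true)
    (h7 : (gp (b02 == b35) (b03 == b25) (b05 == b23)) = true)
    (h11 : (gp (b12 == b35) (b13 == b25) (b15 == b23)) = true)
    (h5 : (gp (b01 == b45) (b04 == b15) (b05 == b14)) = true)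
    (h8 : (gp (b02 == b45) (b04 == b25) (b05 == b24)) = true)
    (h9 : (gp (b03 == b45) (b04 == b35) (b05 == b34)) = true)
    (h12 : (gp (b12 == b45) (b14 == b25) (b15 == b24)) = true)
    (h13 : (gp (b13 == b45) (b14 == b35) (b15 == b34)) = true)
    (h14 : (gp (b23 == b45) (b24 == b35) (b25 == b34)) = true)
    : (((eq5 b01 (!b02) b03 b04 (!b05)) ^^ (eq5 b01 (!b12) b13 b14 (!b15)) ^^ (eq5 b02 (!b12) b23 b24 (!b25)) ^^ (eq5 b03 (!b13) b23 b34 (!b35)) ^^ (eq5 b04 (!b14) b24 (!b34) (!b45)) ^^ (eq5 b05 (!b15) b25 (!b35) (!b45))) = false) := by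
  have h := bool_l1_aux
  replace h := all2_spec h b01
  replace h := all2_spec h b02
  replace h := all2_spec h b03
  replace h := all2_spec h b04
  replace h := all2_spec h b05
  replace h := all2_spec h b12
  replace h := all2_spec h b13
  replace h := all2_spec h b14
  replace h := all2_spec h b15
  replace h := all2_spec h b23
  replace h := or_spec h h0
  replace h := all2_spec h b24
  replace h := or_spec h h1
  replace h := all2_spec h b25
  replace h := or_spec h h2
  replace h := all2_spec h b34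
  replace h := or_spec h h3
  replace h := or_spec h h6
  replace h := or_spec h h10
  replace h := all2_spec h b35
  replace h := or_spec h h4
  replace h := or_spec h h7
  replace h := or_spec h h11
  replace h := all2_spec h b45
  replace h := or_spec h h5
  replace h := or_spec h h8
  replace h := or_spec h h9
  replace h := or_spec h h12
  replace h := or_spec h h13
  replace h := or_spec h h14
  exact beq_iff_eq.mp h

theorem bool_l2_aux : (all2 fun b01 => all2 fun b02 => all2 fun b03 => all2 fun b04 => all2 fun b05 => all2 fun b12 => all2 fun b13 => all2 fun b14 => all2 fun b15 => all2 fun b23 => (!(gp (b01 == b23) (b02 == b13) (b03 == b12)) || all2 fun b24 => (!(gp (b01 == b24) (b02 == b14) (b04 == b12)) || all2 fun b25 => (!(gp (b01 == b25) (b02 == b15) (b05 == b12)) || all2 fun b34 => (!(gp (b01 == b34) (b03 == b14) (b04 == b13)) || (!(gp (b02 == b34) (b03 == b24) (b04 == b23)) || (!(gp (b12 == b34) (b13 == b24) (b14 == b23)) || all2 fun b35 => (!(gp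 (b01 == b35) (b03 == b15) (b05 == b13)) || (!(gp (b02 == b35) (b03 == b25) (b05 == b23)) || (!(gp (b12 == b35) (b13 == b25) (b15 == b23)) || all2 fun b45 => (!(gp (b01 == b45) (b04 == b15) (b05 == b14)) || (!(gp (b02 == b45) (b04 == b25) (b05 == b24)) || (!(gp (b03 == b45) (b04 == b35) (b05 == b34)) || (!(gp (b12 == b45) (b14 == b25) (b15 == b24)) || (!(gp (b13 == b45) (b14 == b35) (b15 == b34)) || (!(gp (b23 == b45) (b24 == b35) (b25 == b34)) || (((eq5 (!b01) b02 b03 (!b04) b05) ^^ (eq5 (!b01) b12 b13 (!b14) b15) ^^ (eq5 (!b02) b12 b23 (!b24) b25) ^^ (eq5 b03 (!b13) b23 b34 (!b35)) ^^ (eq5 b04 (!b14) b24 b34 (!b45)) ^^ (eq5 b05 (!b15) b25 b35 (!b45))) == false))))))))))))))))) = true := by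
  decide +kernel

theorem bool_l2 (b01 b02 b03 b04 b05 b12 b13 b14 b15 b23 b24 b25 b34 b35 b45 : Bool)
    (h0 : (gp (b01 == b23) (b02 == b13) (b03 == b12)) = true)
    (h1 : (gp (b01 == b24) (b02 == b14) (b04 == b12)) = true)
    (h2 : (gp (b01 == b25) (b02 == b15) (b05 == b12)) = true)
    (h3 : (gp (b01 == b34) (b03 == b14) (b04 == b13)) = true)
    (h6 : (gp (b02 == b34) (b03 == b24) (b04 == b23)) = true)
    (h10 : (gp (b12 == b34) (b13 == b24) (b14 == b23)) = true)
    (h4 : (gp (b01 == b35) (b03 == b15) (b05 == b13)) = true)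
    (h7 : (gp (b02 == b35) (b03 == b25) (b05 == b23)) = true)
    (h11 : (gp (b12 == b35) (b13 == b25) (b15 == b23)) = true)
    (h5 : (gp (b01 == b45) (b04 == b15) (b05 == b14)) = true)
    (h8 : (gp (b02 == b45) (b04 == b25) (b05 == b24)) = true)
    (h9 : (gp (b03 == b45) (b04 == b35) (b05 == b34)) = true)
    (h12 : (gp (b12 == b45) (b14 == b25) (b15 == b24)) = true)
    (h13 : (gp (b13 == b45) (b14 == b35) (b15 == b34)) = true)
    (h14 : (gp (b23 == b45) (b24 == b35) (b25 == b34)) = true)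
    : (((eq5 (!b01) b02 b03 (!b04) b05) ^^ (eq5 (!b01) b12 b13 (!b14) b15) ^^ (eq5 (!b02) b12 b23 (!b24) b25) ^^ (eq5 b03 (!b13) b23 b34 (!b35)) ^^ (eq5 b04 (!b14) b24 b34 (!b45)) ^^ (eq5 b05 (!b15) b25 b35 (!b45))) = false) := by
  have h := bool_l2_aux
  replace h := all2_spec h b01
  replace h := all2_spec h b02
  replace h := all2_spec h b03
  replace h := all2_spec h b04
  replace h := all2_spec h b05
  replace h := all2_spec h b12
  replace h := all2_spec h b13
  replace h := all2_spec h b14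
  replace h := all2_spec h b15
  replace h := all2_spec h b23
  replace h := or_spec h h0
  replace h := all2_spec h b24
  replace h := or_spec h h1
  replace h := all2_spec h b25
  replace h := or_spec h h2
  replace h := all2_spec h b34
  replace h := or_spec h h3
  replace h := or_spec h h6
  replace h := or_spec h h10
  replace h := all2_spec h b35
  replace h := or_spec h h4
  replace h := or_spec h h7
  replace h := or_spec h h11
  replace h := all2_spec h b45
  replace h := or_spec h h5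
  replace h := or_spec h h8
  replace h := or_spec h h9
  replace h := or_spec h h12
  replace h := or_spec h h13
  replace h := or_spec h h14
  exact beq_iff_eq.mp h

theorem bool_l3_aux : (all2 fun b01 => all2 fun b02 => all2 fun b03 => all2 fun b04 => all2 fun b05 => all2 fun b12 => all2 fun b13 => all2 fun b14 => all2 fun b15 => all2 fun b23 => (!(gp (b01 == b23) (b02 == b13) (b03 == b12)) || all2 fun b24 => (!(gp (b01 == b24) (b02 == b14) (b04 == b12)) || all2 fun b25 => (!(gp (b01 == b25) (b02 == b15) (b05 == b12)) || all2 fun b34 => (!(gp (b01 == b34) (b03 == b14) (b04 == b13)) || (!(gp (b02 == b34) (b03 == b24) (b04 == b23)) || (!(gp (b12 == b34) (b13 == b24) (b14 == b23)) || all2 fun b35 => (!(gp (b01 == b35) (b03 == b15) (b05 == b13)) || (!(gp (b02 == b35) (b03 == b25) (b05 == b23)) || (!(gp (b12 == b35) (b13 == b25) (b15 == b23)) || all2 fun b45 => (!(gp (b01 == b45) (b04 == b15) (b05 == b14)) || (!(gp (b02 == b45) (b04 == b25) (b05 == b24)) ||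 (!(gp (b03 == b45) (b04 == b35) (b05 == b34)) || (!(gp (b12 == b45) (b14 == b25) (b15 == b24)) || (!(gp (b13 == b45) (b14 == b35) (b15 == b34)) || (!(gp (b23 == b45) (b24 == b35) (b25 == b34)) || (((eq5 b01 b12 (!b13) (!b14) b15) ^^ (eq5 b01 b12 b13 b14 b15) ^^ (eq5 b01 b12 b13 (!b14) (!b15)) ^^ (eq5 b01 (!b12) (!b13) b14 b15) ^^ (eq5 b01 (!b12) (!b13) (!b14) (!b15)) ^^ (eq5 b01 (!b12) b13 b14 (!b15)) ^^ (eq5 b02 b12 (!b23) (!b24) b25) ^^ (eq5 b02 b12 b23 b24 b25) ^^ (eq5 b02 b12 b23 (!b24) (!b25)) ^^ (eq5 b02 (!b12) (!b23) b24 b25) ^^ (eq5 b02 (!b12) (!b23) (!b24) (!b25)) ^^ (eq5 b02 (!b12) b23 b24 (!b25)) ^^ (eq5 b03 b13 (!b23) (!b34) b35) ^^ (eq5 b03 b13 b23 b34 b35) ^^ (eq5 b03 b13 b23 (!b34) (!b35)) ^^ (eq5 b03 (!b13) (!b23) b34 b35) ^^ (eq5 b03 (!b13) (!b23) (!b34) (!b35)) ^^ (eq5 b03 (!b13) b23 b34 (!b35)) ^^ (eq5 b04 b14 (!b24) (!b34) b45) ^^ (eq5 b04 b14 b24 b34 b45) ^^ (eq5 b04 b14 b24 (!b34) (!b45)) ^^ (eq5 b04 (!b14) (!b24) b34 b45) ^^ (eq5 b04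 (!b14) (!b24) (!b34) (!b45)) ^^ (eq5 b04 (!b14) b24 b34 (!b45)) ^^ (eq5 b05 b15 (!b25) (!b35) b45) ^^ (eq5 b05 b15 b25 b35 b45) ^^ (eq5 b05 b15 b25 (!b35) (!b45)) ^^ (eq5 b05 (!b15) (!b25) b35 b45) ^^ (eq5 b05 (!b15) (!b25) (!b35) (!b45)) ^^ (eq5 b05 (!b15) b25 b35 (!b45))) == true))))))))))))))))) = true := by
  decide +kernel

theorem bool_l3 (b01 b02 b03 b04 b05 b12 b13 b14 b15 b23 b24 b25 b34 b35 b45 : Bool)
    (h0 : (gp (b01 == b23) (b02 == b13) (b03 == b12)) = true)
    (h1 : (gp (b01 == b24) (b02 == b14) (b04 == b12)) = true)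
    (h2 : (gp (b01 == b25) (b02 == b15) (b05 == b12)) = true)
    (h3 : (gp (b01 == b34) (b03 == b14) (b04 == b13)) = true)
    (h6 : (gp (b02 == b34) (b03 == b24) (b04 == b23)) = true)
    (h10 : (gp (b12 == b34) (b13 == b24) (b14 == b23)) = true)
    (h4 : (gp (b01 == b35) (b03 == b15) (b05 == b13)) = true)
    (h7 : (gp (b02 == b35) (b03 == b25) (b05 == b23)) = true)
    (h11 : (gp (b12 == b35) (b13 == b25) (b15 == b23)) = true)
    (h5 : (gp (b01 == b45) (b04 == b15) (b05 == b14)) = true)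
    (h8 : (gp (b02 == b45) (b04 == b25) (b05 == b24)) = true)
    (h9 : (gp (b03 == b45) (b04 == b35) (b05 == b34)) = true)
    (h12 : (gp (b12 == b45) (b14 == b25) (b15 == b24)) = true)
    (h13 : (gp (b13 == b45) (b14 == b35) (b15 == b34)) = true)
    (h14 : (gp (b23 == b45) (b24 == b35) (b25 == b34)) = true)
    : (((eq5 b01 b12 (!b13) (!b14) b15) ^^ (eq5 b01 b12 b13 b14 b15) ^^ (eq5 b01 b12 b13 (!b14) (!b15)) ^^ (eq5 b01 (!b12) (!b13) b14 b15) ^^ (eq5 b01 (!b12) (!b13) (!b14) (!b15)) ^^ (eq5 b01 (!b12) b13 b14 (!b15)) ^^ (eq5 b02 b12 (!b23) (!b24) b25) ^^ (eq5 b02 b12 b23 b24 b25) ^^ (eq5 b02 b12 b23 (!b24) (!b25)) ^^ (eq5 b02 (!b12) (!b23) b24 b25) ^^ (eq5 b02 (!b12) (!b23) (!b24) (!b25)) ^^ (eq5 b02 (!b12) b23 b24 (!b25)) ^^ (eq5 b03 b13 (!b23) (!b34) b35) ^^ (eq5 b03 b13 b23 b34 b35) ^^ (eq5 b03 b13 b23 (!b34) (!b35)) ^^ (eq5 b03 (!b13) (!b23) b34 b35) ^^ (eq5 b03 (!b13) (!b23) (!b34) (!b35)) ^^ (eq5 b03 (!b13) b23 b34 (!b35)) ^^ (eq5 b04 b14 (!b24)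 (!b34) b45) ^^ (eq5 b04 b14 b24 b34 b45) ^^ (eq5 b04 b14 b24 (!b34) (!b45)) ^^ (eq5 b04 (!b14) (!b24) b34 b45) ^^ (eq5 b04 (!b14) (!b24) (!b34) (!b45)) ^^ (eq5 b04 (!b14) b24 b34 (!b45)) ^^ (eq5 b05 b15 (!b25) (!b35) b45) ^^ (eq5 b05 b15 b25 b35 b45) ^^ (eq5 b05 b15 b25 (!b35) (!b45)) ^^ (eq5 b05 (!b15) (!b25) b35 b45) ^^ (eq5 b05 (!b15) (!b25) (!b35) (!b45)) ^^ (eq5 b05 (!b15) b25 b35 (!b45))) = true) := by
  have h := bool_l3_aux
  replace h := all2_spec h b01
  replace h := all2_spec h b02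
  replace h := all2_spec h b03
  replace h := all2_spec h b04
  replace h := all2_spec h b05
  replace h := all2_spec h b12
  replace h := all2_spec h b13
  replace h := all2_spec h b14
  replace h := all2_spec h b15
  replace h := all2_spec h b23
  replace h := or_spec h h0
  replace h := all2_spec h b24
  replace h := or_spec h h1
  replace h := all2_spec h b25
  replace h := or_spec h h2
  replace h := all2_spec h b34
  replace h := or_spec h h3
  replace h := or_spec h h6
  replace h := or_spec h h10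
  replace h := all2_spec h b35
  replace h := or_spec h h4
  replace h := or_spec h h7
  replace h := or_spec h h11
  replace h := all2_spec h b45
  replace h := or_spec h h5
  replace h := or_spec h h8
  replace h := or_spec h h9
  replace h := or_spec h h12
  replace h := or_spec h h13
  replace h := or_spec h h14
  exact beq_iff_eq.mp h

end Pool.Agent.Helper683
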