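import Mathlib
import Pool.Agent.Helper683.Algebra
import Pool.Agent.Helper683.BoolSigns

namespace Pool.Agent.Helper683

/-- the triangle `a b c` meets the segment `r s` -/
def X32 (a b c r s : E3) : Prop :=
  ∃ α β γ ρ σ : ℝ, 0 ≤ α ∧ 0 ≤ β ∧ 0 ≤ γ ∧ 0 ≤ ρ ∧ 0 ≤ σ ∧ α + β + γ = 1 ∧ ρ + σ = 1 ∧
    α • a + β • b + γ • c = ρ • r + σ • s

/-- the tetrahedron `a b c d` contains `r` -/
def X41 (a b c d r : E3) : Prop :=
  ∃ α β γ δ : ℝ, 0 ≤ α ∧ 0 ≤ β ∧ 0 ≤ γ ∧ 0 ≤ δ ∧ α + β + γ + δ = 1 ∧
    α • a + β • b + γ • c + δ • d = r

noncomputable def pos (x : ℝ) : Bool := decide (0 < x)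

theorem pos_neg {x : ℝ} (hx : x ≠ 0) : pos (-x) = !pos x := by
  unfold pos
  rcases lt_or_gt_of_ne hx with h | h
  · have h1 : 0 < -x := by linarith
    have h2 : ¬ (0 < x) := by linarith
    simp [h, h2]
  · have h1 : ¬ (0 < -x) := by linarith
    simp [h]
    linarith

theorem pos_mul {x y : ℝ} (hx : x ≠ 0) (hy : y ≠ 0) : pos (x * y) = (pos x == pos y) := by
  unfold pos
  rcases lt_or_gt_of_ne hx with h | h <;> rcases lt_or_gt_of_ne hy with h' | h'
  · have := mul_pos_of_neg_of_neg h h'
    simp [this, h.not_gt, h'.not_gt]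
  · have := mul_neg_of_neg_of_pos h h'
    simp [this.not_gt, h.not_gt, h']
  · have := mul_neg_of_pos_of_neg h h'
    simp [this.not_gt, h, h'.not_gt]
  · have := mul_pos h h'
    simp [this, h, h']

theorem gp_spec {x y z : ℝ} (hx : x ≠ 0) (hy : y ≠ 0) (hz : z ≠ 0) (h : x - y + z = 0) :
    gp (pos x) (pos y) (pos z) = true := by
  unfold gp pos
  rcases lt_or_gt_of_ne hx with h1 | h1 <;> rcases lt_or_gt_of_ne hy with h2 | h2 <;>
    rcases lt_or_gt_of_ne hz with h3 | h3 <;>
    first
      | (exfalso; linarith)
      | simp [h1, h2, h3, h1.not_gt, h2.not_gt, h3.not_gt]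
      | simp [h1, h2, h3]

theorem eq5_iff (a b c d e : Bool) : eq5 a b c d e = true ↔ (a = b ∧ b = c ∧ c = d ∧ d = e) := by
  unfold eq5; simp [Bool.and_eq_true]

/-- sign criterion for triangle versus segment -/
theorem X32_iff {a b c r s : E3} {la lb lc lr ls : ℝ}
    (ha : la ≠ 0) (hb : lb ≠ 0) (hc : lc ≠ 0) (hr : lr ≠ 0) (hs : ls ≠ 0)
    (hsum : la + lb + lc + lr + ls = 0)
    (hlin : la • a + lb • b + lc • c + lr • r + ls • s = 0)
    (hdet : det4 a b c r ≠ 0) :
    X32 a b c r s ↔ eq5 (pos la) (pos lb) (pos lc) (!pos lr) (!pos ls) = true := by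
  rw [eq5_iff]
  constructor
  · rintro ⟨α, β, γ, ρ, σ, hα, hβ, hγ, hρ, hσ, h1, h2, h3⟩
    -- proportionality
    set k : ℝ := -σ / ls with hk
    have hkls : k * ls = -σ := by rw [hk]; field_simp
    have e1 : (α - k * la) + (β - k * lb) + (γ - k * lc) + (-ρ - k * lr) = 0 := by
      have : k * (la + lb + lc + lr + ls) = 0 := by rw [hsum, mul_zero]
      linarith
    have e2 : (α - k * la) • a + (β - k * lb) • b + (γ - k * lc) • c + (-ρ - k * lr) • r = 0 := by
      have h4 : (α • a + β • b + γ • c - ρ • r - σ • s) -
          k • (la • a + lb • b + lc • c + lr • r + ls • s) = 0 := by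
        rw [hlin, h3]; simp
      have h5 : (α - k * la) • a + (β - k * lb) • b + (γ - k * lc) • c + (-ρ - k * lr) • r =
         (α • a + β • b + γ • c - ρ • r - σ • s) -
          k • (la • a + lb • b + lc • c + lr • r + ls • s) + (k * ls + σ) • s := by module
      rw [h5, h4, hkls]; simp
    obtain ⟨g1, g2, g3, g4⟩ := indep a b c r hdet _ _ _ _ e1 e2
    have k0 : k ≠ 0 := by
      intro hk0
      rw [hk0] at g1 g2 g3
      linarith
    have q1 : k * la = α := by linarith
    have q2 : k * lb = β := by linarith
    have q3 : k * lc = γ := by linarith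
    have q4 : k * lr = -ρ := by linarith
    rcases lt_or_gt_of_ne k0 with hk' | hk'
    · have p1 : la < 0 := by
        rcases lt_or_gt_of_ne ha with h | h; · exact h
        have := mul_neg_of_neg_of_pos hk' h; linarith
      have p2 : lb < 0 := by
        rcases lt_or_gt_of_ne hb with h | h; · exact h
        have := mul_neg_of_neg_of_pos hk' h; linarith
      have p3 : lc < 0 := by
        rcases lt_or_gt_of_ne hc with h | h; · exact h
        have := mul_neg_of_neg_of_pos hk' h; linarith
      have p4 : 0 < lr := by
        rcases lt_or_gt_of_ne hr with h | h; swap; · exact h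
        have := mul_pos_of_neg_of_neg hk' h; linarith
      have p5 : 0 < ls := by
        rcases lt_or_gt_of_ne hs with h | h; swap; · exact h
        have := mul_pos_of_neg_of_neg hk' h; linarith
      simp [pos, p1.not_gt, p2.not_gt, p3.not_gt, p4, p5]
    · have p1 : 0 < la := by
        rcases lt_or_gt_of_ne ha with h | h; swap; · exact h
        have := mul_neg_of_pos_of_neg hk' h; linarith
      have p2 : 0 < lb := by
        rcases lt_or_gt_of_ne hb with h | h; swap; · exact h
        have := mul_neg_of_pos_of_neg hk' h; linarith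
      have p3 : 0 < lc := by
        rcases lt_or_gt_of_ne hc with h | h; swap; · exact h
        have := mul_neg_of_pos_of_neg hk' h; linarith
      have p4 : lr < 0 := by
        rcases lt_or_gt_of_ne hr with h | h; · exact h
        have := mul_pos hk' h; linarith
      have p5 : ls < 0 := by
        rcases lt_or_gt_of_ne hs with h | h; · exact h
        have := mul_pos hk' h; linarith
      simp [pos, p1, p2, p3, p4.not_gt, p5.not_gt]
  · rintro ⟨h1, h2, h3, h4⟩
    set t : ℝ := la + lb + lc with ht
    have ht' : lr + ls = -t := by linarith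
    have key : t ≠ 0 ∧ 0 ≤ la / t ∧ 0 ≤ lb / t ∧ 0 ≤ lc / t ∧ 0 ≤ -lr / t ∧ 0 ≤ -ls / t := by
      unfold pos at h1 h2 h3 h4
      rcases lt_or_gt_of_ne ha with a' | a'
      · have b' : lb < 0 := by
          rcases lt_or_gt_of_ne hb with h | h; · exact h
          simp [a'.not_gt, h] at h1
        have c' : lc < 0 := by
          rcases lt_or_gt_of_ne hc with h | h; · exact h
          simp [b'.not_gt, h] at h2
        have r' : 0 < lr := by
          rcases lt_or_gt_of_ne hr with h | h; swap; · exact h
          simp [c'.not_gt, h.not_gt] at h3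
        have s' : 0 < ls := by
          rcases lt_or_gt_of_ne hs with h | h; swap; · exact h
          simp [r', h.not_gt] at h4
        have tn : t < 0 := by linarith
        refine ⟨tn.ne, ?_, ?_, ?_, ?_, ?_⟩ <;> apply div_nonneg_of_nonpos <;> linarith
      · have b' : 0 < lb := by
          rcases lt_or_gt_of_ne hb with h | h; swap; · exact h
          simp [a', h.not_gt] at h1
        have c' : 0 < lc := by
          rcases lt_or_gt_of_ne hc with h | h; swap; · exact h
          simp [b', h.not_gt] at h2
        have r' : lr < 0 := by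
          rcases lt_or_gt_of_ne hr with h | h; · exact h
          simp [c', h] at h3
        have s' : ls < 0 := by
          rcases lt_or_gt_of_ne hs with h | h; · exact h
          simp [r'.not_gt, h] at h4
        have tn : 0 < t := by linarith
        refine ⟨tn.ne', ?_, ?_, ?_, ?_, ?_⟩ <;> apply div_nonneg <;> linarith
    obtain ⟨t0, k1, k2, k3, k4, k5⟩ := key
    refine ⟨la / t, lb / t, lc / t, -lr / t, -ls / t, k1, k2, k3, k4, k5, ?_, ?_, ?_⟩
    · field_simp; linarith
    · field_simp; linarith
    · have e : (la / t) • a + (lb / t) • b + (lc / t) • c - ((-lr / t) • r + (-ls / t) • s) =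
          (1 / t) • (la • a + lb • b + lc • c + lr • r + ls • s) := by module
      rw [hlin, smul_zero, sub_eq_zero] at e
      exact e

/-- sign criterion for tetrahedron versus point -/
theorem X41_iff {a b c d r : E3} {la lb lc ld lr : ℝ}
    (ha : la ≠ 0) (hb : lb ≠ 0) (hc : lc ≠ 0) (hd : ld ≠ 0) (hr : lr ≠ 0)
    (hsum : la + lb + lc + ld + lr = 0)
    (hlin : la • a + lb • b + lc • c + ld • d + lr • r = 0)
    (hdet : det4 a b c d ≠ 0) :
    X41 a b c d r ↔ eq5 (pos la) (pos lb) (pos lc) (pos ld) (!pos lr) = true := by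
  rw [eq5_iff]
  constructor
  · rintro ⟨α, β, γ, δ, hα, hβ, hγ, hδ, h1, h3⟩
    set k : ℝ := -1 / lr with hk
    have hklr : k * lr = -1 := by rw [hk]; field_simp
    have e1 : (α - k * la) + (β - k * lb) + (γ - k * lc) + (δ - k * ld) = 0 := by
      have : k * (la + lb + lc + ld + lr) = 0 := by rw [hsum, mul_zero]
      linarith
    have e2 : (α - k * la) • a + (β - k * lb) • b + (γ - k * lc) • c + (δ - k * ld) • d = 0 := by
      have h5 : (α - k * la) • a + (β - k * lb) • b + (γ - k * lc) • c + (δ - k * ld) • d =
         (α • a + β • b + γ • c + δ • d - r) -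
          k • (la • a + lb • b + lc • c + ld • d + lr • r) + (k * lr + 1) • r := by module
      rw [h5, hlin, h3, hklr]; simp
    obtain ⟨g1, g2, g3, g4⟩ := indep a b c d hdet _ _ _ _ e1 e2
    have k0 : k ≠ 0 := by
      intro hk0
      rw [hk0] at g1 g2 g3 g4
      linarith
    have q1 : k * la = α := by linarith
    have q2 : k * lb = β := by linarith
    have q3 : k * lc = γ := by linarith
    have q4 : k * ld = δ := by linarith
    rcases lt_or_gt_of_ne k0 with hk' | hk'
    · have p1 : la < 0 := by
        rcases lt_or_gt_of_ne ha with h | h; · exact h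
        have := mul_neg_of_neg_of_pos hk' h; linarith
      have p2 : lb < 0 := by
        rcases lt_or_gt_of_ne hb with h | h; · exact h
        have := mul_neg_of_neg_of_pos hk' h; linarith
      have p3 : lc < 0 := by
        rcases lt_or_gt_of_ne hc with h | h; · exact h
        have := mul_neg_of_neg_of_pos hk' h; linarith
      have p4 : ld < 0 := by
        rcases lt_or_gt_of_ne hd with h | h; · exact h
        have := mul_neg_of_neg_of_pos hk' h; linarith
      have p5 : 0 < lr := by
        rcases lt_or_gt_of_ne hr with h | h; swap; · exact h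
        have := mul_pos_of_neg_of_neg hk' h; linarith
      simp [pos, p1.not_gt, p2.not_gt, p3.not_gt, p4.not_gt, p5]
    · have p1 : 0 < la := by
        rcases lt_or_gt_of_ne ha with h | h; swap; · exact h
        have := mul_neg_of_pos_of_neg hk' h; linarith
      have p2 : 0 < lb := by
        rcases lt_or_gt_of_ne hb with h | h; swap; · exact h
        have := mul_neg_of_pos_of_neg hk' h; linarith
      have p3 : 0 < lc := by
        rcases lt_or_gt_of_ne hc with h | h; swap; · exact h
        have := mul_neg_of_pos_of_neg hk' h; linarith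
      have p4 : 0 < ld := by
        rcases lt_or_gt_of_ne hd with h | h; swap; · exact h
        have := mul_neg_of_pos_of_neg hk' h; linarith
      have p5 : lr < 0 := by
        rcases lt_or_gt_of_ne hr with h | h; · exact h
        have := mul_pos hk' h; linarith
      simp [pos, p1, p2, p3, p4, p5.not_gt]
  · rintro ⟨h1, h2, h3, h4⟩
    set t : ℝ := la + lb + lc + ld with ht
    have ht' : lr = -t := by linarith
    have key : 0 ≤ la / t ∧ 0 ≤ lb / t ∧ 0 ≤ lc / t ∧ 0 ≤ ld / t := by
      unfold pos at h1 h2 h3 h4
      rcases lt_or_gt_of_ne ha with a' | a'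
      · have b' : lb < 0 := by
          rcases lt_or_gt_of_ne hb with h | h; · exact h
          simp [a'.not_gt, h] at h1
        have c' : lc < 0 := by
          rcases lt_or_gt_of_ne hc with h | h; · exact h
          simp [b'.not_gt, h] at h2
        have d' : ld < 0 := by
          rcases lt_or_gt_of_ne hd with h | h; · exact h
          simp [c'.not_gt, h] at h3
        have tn : t < 0 := by linarith
        refine ⟨?_, ?_, ?_, ?_⟩ <;> apply div_nonneg_of_nonpos <;> linarith
      · have b' : 0 < lb := by
          rcases lt_or_gt_of_ne hb with h | h; swap; · exact h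
          simp [a', h.not_gt] at h1
        have c' : 0 < lc := by
          rcases lt_or_gt_of_ne hc with h | h; swap; · exact h
          simp [b', h.not_gt] at h2
        have d' : 0 < ld := by
          rcases lt_or_gt_of_ne hd with h | h; swap; · exact h
          simp [c', h.not_gt] at h3
        have tn : 0 < t := by linarith
        refine ⟨?_, ?_, ?_, ?_⟩ <;> apply div_nonneg <;> linarith
    have t0 : t ≠ 0 := by
      intro h; apply hr; rw [ht', h]; simp
    obtain ⟨k1, k2, k3, k4⟩ := key
    refine ⟨la / t, lb / t, lc / t, ld / t, k1, k2, k3, k4, ?_, ?_⟩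
    · field_simp; linarith
    · have e : (la / t) • a + (lb / t) • b + (lc / t) • c + (ld / t) • d - r =
          (1 / t) • (la • a + lb • b + lc • c + ld • d + lr • r) := by
        have : r = (t / t) • r := by rw [div_self t0, one_smul]
        rw [ht']
        nth_rewrite 1 [this]
        module
      rw [hlin, smul_zero, sub_eq_zero] at e
      exact e

end Pool.Agent.Helper683
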