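import Mathlib
import Pool.Agent.Helper683.Geometry

namespace Pool.Agent.Helper683

open Classical in
noncomputable def iv (p : Prop) : ZMod 2 := if p then 1 else 0
def bz (b : Bool) : ZMod 2 := if b then 1 else 0
theorem bz_xor (a b : Bool) : bz (a ^^ b) = bz a + bz b := by cases a <;> cases b <;> decide
theorem iv_eq {p : Prop} {b : Bool} (h : p ↔ b = true) : iv p = bz b := by
  unfold iv bz; by_cases hp : p <;> simp [hp, h.symm]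

theorem x32_234_01 (q0 q1 q2 q3 q4 : E3) (h0 : det4 q1 q2 q3 q4 ≠ 0) (h1 : det4 q0 q2 q3 q4 ≠ 0)
    (h2 : det4 q0 q1 q3 q4 ≠ 0) (h3 : det4 q0 q1 q2 q4 ≠ 0) (h4 : det4 q0 q1 q2 q3 ≠ 0)
    (hd : det4 q2 q3 q4 q0 ≠ 0) :
    X32 q2 q3 q4 q0 q1 ↔ eq5 (!pos (det4 q1 q2 q3 q4)) (pos (det4 q0 q2 q3 q4)) (pos (det4 q0 q1 q3 q4)) (!pos (det4 q0 q1 q2 q4)) (pos (det4 q0 q1 q2 q3)) = true := by
  rw [X32_iff (a := q2) (b := q3) (c := q4) (r := q0) (s := q1)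
    (la := (det4 q0 q1 q3 q4)) (lb := (-det4 q0 q1 q2 q4)) (lc := (det4 q0 q1 q2 q3)) (lr := (det4 q1 q2 q3 q4)) (ls := (-det4 q0 q2 q3 q4))
    h2 (neg_ne_zero.mpr h3) h4 h0 (neg_ne_zero.mpr h1)
    (by have := dep_sum q0 q1 q2 q3 q4; linarith)
    (by rw [← dep_lin q0 q1 q2 q3 q4]; module) hd]
  rw [pos_neg h1, pos_neg h3]
  generalize pos (det4 q1 q2 q3 q4) = c0
  generalize pos (det4 q0 q2 q3 q4) = c1
  generalize pos (det4 q0 q1 q3 q4) = c2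
  generalize pos (det4 q0 q1 q2 q4) = c3
  generalize pos (det4 q0 q1 q2 q3) = c4
  revert c0 c1 c2 c3 c4; decide

theorem x32_134_02 (q0 q1 q2 q3 q4 : E3) (h0 : det4 q1 q2 q3 q4 ≠ 0) (h1 : det4 q0 q2 q3 q4 ≠ 0)
    (h2 : det4 q0 q1 q3 q4 ≠ 0) (h3 : det4 q0 q1 q2 q4 ≠ 0) (h4 : det4 q0 q1 q2 q3 ≠ 0)
    (hd : det4 q1 q3 q4 q0 ≠ 0) :
    X32 q1 q3 q4 q0 q2 ↔ eq5 (!pos (det4 q1 q2 q3 q4)) (!pos (det4 q0 q2 q3 q4)) (!pos (det4 q0 q1 q3 q4)) (!pos (det4 q0 q1 q2 q4)) (pos (det4 q0 q1 q2 q3)) = true := by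
  rw [X32_iff (a := q1) (b := q3) (c := q4) (r := q0) (s := q2)
    (la := (-det4 q0 q2 q3 q4)) (lb := (-det4 q0 q1 q2 q4)) (lc := (det4 q0 q1 q2 q3)) (lr := (det4 q1 q2 q3 q4)) (ls := (det4 q0 q1 q3 q4))
    (neg_ne_zero.mpr h1) (neg_ne_zero.mpr h3) h4 h0 h2
    (by have := dep_sum q0 q1 q2 q3 q4; linarith)
    (by rw [← dep_lin q0 q1 q2 q3 q4]; module) hd]
  rw [pos_neg h1, pos_neg h3]
  generalize pos (det4 q1 q2 q3 q4) = c0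
  generalize pos (det4 q0 q2 q3 q4) = c1
  generalize pos (det4 q0 q1 q3 q4) = c2
  generalize pos (det4 q0 q1 q2 q4) = c3
  generalize pos (det4 q0 q1 q2 q3) = c4
  revert c0 c1 c2 c3 c4; decide

theorem x32_124_03 (q0 q1 q2 q3 q4 : E3) (h0 : det4 q1 q2 q3 q4 ≠ 0) (h1 : det4 q0 q2 q3 q4 ≠ 0)
    (h2 : det4 q0 q1 q3 q4 ≠ 0) (h3 : det4 q0 q1 q2 q4 ≠ 0) (h4 : det4 q0 q1 q2 q3 ≠ 0)
    (hd : det4 q1 q2 q4 q0 ≠ 0) :
    X32 q1 q2 q4 q0 q3 ↔ eq5 (!pos (det4 q1 q2 q3 q4)) (!pos (det4 q0 q2 q3 q4)) (pos (det4 q0 q1 q3 q4)) (pos (det4 q0 q1 q2 q4)) (pos (det4 q0 q1 q2 q3)) = true := by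
  rw [X32_iff (a := q1) (b := q2) (c := q4) (r := q0) (s := q3)
    (la := (-det4 q0 q2 q3 q4)) (lb := (det4 q0 q1 q3 q4)) (lc := (det4 q0 q1 q2 q3)) (lr := (det4 q1 q2 q3 q4)) (ls := (-det4 q0 q1 q2 q4))
    (neg_ne_zero.mpr h1) h2 h4 h0 (neg_ne_zero.mpr h3)
    (by have := dep_sum q0 q1 q2 q3 q4; linarith)
    (by rw [← dep_lin q0 q1 q2 q3 q4]; module) hd]
  rw [pos_neg h1, pos_neg h3]
  generalize pos (det4 q1 q2 q3 q4) = c0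
  generalize pos (det4 q0 q2 q3 q4) = c1
  generalize pos (det4 q0 q1 q3 q4) = c2
  generalize pos (det4 q0 q1 q2 q4) = c3
  generalize pos (det4 q0 q1 q2 q3) = c4
  revert c0 c1 c2 c3 c4; decide

theorem x32_123_04 (q0 q1 q2 q3 q4 : E3) (h0 : det4 q1 q2 q3 q4 ≠ 0) (h1 : det4 q0 q2 q3 q4 ≠ 0)
    (h2 : det4 q0 q1 q3 q4 ≠ 0) (h3 : det4 q0 q1 q2 q4 ≠ 0) (h4 : det4 q0 q1 q2 q3 ≠ 0)
    (hd : det4 q1 q2 q3 q0 ≠ 0) :
    X32 q1 q2 q3 q0 q4 ↔ eq5 (!pos (det4 q1 q2 q3 q4)) (!pos (det4 q0 q2 q3 q4)) (pos (det4 q0 q1 q3 q4)) (!pos (det4 q0 q1 q2 q4)) (!pos (det4 q0 q1 q2 q3)) = true := by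
  rw [X32_iff (a := q1) (b := q2) (c := q3) (r := q0) (s := q4)
    (la := (-det4 q0 q2 q3 q4)) (lb := (det4 q0 q1 q3 q4)) (lc := (-det4 q0 q1 q2 q4)) (lr := (det4 q1 q2 q3 q4)) (ls := (det4 q0 q1 q2 q3))
    (neg_ne_zero.mpr h1) h2 (neg_ne_zero.mpr h3) h0 h4
    (by have := dep_sum q0 q1 q2 q3 q4; linarith)
    (by rw [← dep_lin q0 q1 q2 q3 q4]; module) hd]
  rw [pos_neg h1, pos_neg h3]
  generalize pos (det4 q1 q2 q3 q4) = c0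
  generalize pos (det4 q0 q2 q3 q4) = c1
  generalize pos (det4 q0 q1 q3 q4) = c2
  generalize pos (det4 q0 q1 q2 q4) = c3
  generalize pos (det4 q0 q1 q2 q3) = c4
  revert c0 c1 c2 c3 c4; decide

theorem x32_034_12 (q0 q1 q2 q3 q4 : E3) (h0 : det4 q1 q2 q3 q4 ≠ 0) (h1 : det4 q0 q2 q3 q4 ≠ 0)
    (h2 : det4 q0 q1 q3 q4 ≠ 0) (h3 : det4 q0 q1 q2 q4 ≠ 0) (h4 : det4 q0 q1 q2 q3 ≠ 0)
    (hd : det4 q0 q3 q4 q1 ≠ 0) :
    X32 q0 q3 q4 q1 q2 ↔ eq5 (pos (det4 q1 q2 q3 q4)) (pos (det4 q0 q2 q3 q4)) (!pos (det4 q0 q1 q3 q4)) (!pos (det4 q0 q1 q2 q4)) (pos (det4 q0 q1 q2 q3)) = true := by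
  rw [X32_iff (a := q0) (b := q3) (c := q4) (r := q1) (s := q2)
    (la := (det4 q1 q2 q3 q4)) (lb := (-det4 q0 q1 q2 q4)) (lc := (det4 q0 q1 q2 q3)) (lr := (-det4 q0 q2 q3 q4)) (ls := (det4 q0 q1 q3 q4))
    h0 (neg_ne_zero.mpr h3) h4 (neg_ne_zero.mpr h1) h2
    (by have := dep_sum q0 q1 q2 q3 q4; linarith)
    (by rw [← dep_lin q0 q1 q2 q3 q4]; module) hd]
  rw [pos_neg h1, pos_neg h3]
  generalize pos (det4 q1 q2 q3 q4) = c0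
  generalize pos (det4 q0 q2 q3 q4) = c1
  generalize pos (det4 q0 q1 q3 q4) = c2
  generalize pos (det4 q0 q1 q2 q4) = c3
  generalize pos (det4 q0 q1 q2 q3) = c4
  revert c0 c1 c2 c3 c4; decide

theorem x32_024_13 (q0 q1 q2 q3 q4 : E3) (h0 : det4 q1 q2 q3 q4 ≠ 0) (h1 : det4 q0 q2 q3 q4 ≠ 0)
    (h2 : det4 q0 q1 q3 q4 ≠ 0) (h3 : det4 q0 q1 q2 q4 ≠ 0) (h4 : det4 q0 q1 q2 q3 ≠ 0)
    (hd : det4 q0 q2 q4 q1 ≠ 0) :
    X32 q0 q2 q4 q1 q3 ↔ eq5 (pos (det4 q1 q2 q3 q4)) (pos (det4 q0 q2 q3 q4)) (pos (det4 q0 q1 q3 q4)) (pos (det4 q0 q1 q2 q4)) (pos (det4 q0 q1 q2 q3)) = true := by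
  rw [X32_iff (a := q0) (b := q2) (c := q4) (r := q1) (s := q3)
    (la := (det4 q1 q2 q3 q4)) (lb := (det4 q0 q1 q3 q4)) (lc := (det4 q0 q1 q2 q3)) (lr := (-det4 q0 q2 q3 q4)) (ls := (-det4 q0 q1 q2 q4))
    h0 h2 h4 (neg_ne_zero.mpr h1) (neg_ne_zero.mpr h3)
    (by have := dep_sum q0 q1 q2 q3 q4; linarith)
    (by rw [← dep_lin q0 q1 q2 q3 q4]; module) hd]
  rw [pos_neg h1, pos_neg h3]
  generalize pos (det4 q1 q2 q3 q4) = c0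
  generalize pos (det4 q0 q2 q3 q4) = c1
  generalize pos (det4 q0 q1 q3 q4) = c2
  generalize pos (det4 q0 q1 q2 q4) = c3
  generalize pos (det4 q0 q1 q2 q3) = c4
  revert c0 c1 c2 c3 c4; decide

theorem x32_023_14 (q0 q1 q2 q3 q4 : E3) (h0 : det4 q1 q2 q3 q4 ≠ 0) (h1 : det4 q0 q2 q3 q4 ≠ 0)
    (h2 : det4 q0 q1 q3 q4 ≠ 0) (h3 : det4 q0 q1 q2 q4 ≠ 0) (h4 : det4 q0 q1 q2 q3 ≠ 0)
    (hd : det4 q0 q2 q3 q1 ≠ 0) :
    X32 q0 q2 q3 q1 q4 ↔ eq5 (pos (det4 q1 q2 q3 q4)) (pos (det4 q0 q2 q3 q4)) (pos (det4 q0 q1 q3 q4)) (!pos (det4 q0 q1 q2 q4)) (!pos (det4 q0 q1 q2 q3)) = true := by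
  rw [X32_iff (a := q0) (b := q2) (c := q3) (r := q1) (s := q4)
    (la := (det4 q1 q2 q3 q4)) (lb := (det4 q0 q1 q3 q4)) (lc := (-det4 q0 q1 q2 q4)) (lr := (-det4 q0 q2 q3 q4)) (ls := (det4 q0 q1 q2 q3))
    h0 h2 (neg_ne_zero.mpr h3) (neg_ne_zero.mpr h1) h4
    (by have := dep_sum q0 q1 q2 q3 q4; linarith)
    (by rw [← dep_lin q0 q1 q2 q3 q4]; module) hd]
  rw [pos_neg h1, pos_neg h3]
  generalize pos (det4 q1 q2 q3 q4) = c0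
  generalize pos (det4 q0 q2 q3 q4) = c1
  generalize pos (det4 q0 q1 q3 q4) = c2
  generalize pos (det4 q0 q1 q2 q4) = c3
  generalize pos (det4 q0 q1 q2 q3) = c4
  revert c0 c1 c2 c3 c4; decide

theorem x32_014_23 (q0 q1 q2 q3 q4 : E3) (h0 : det4 q1 q2 q3 q4 ≠ 0) (h1 : det4 q0 q2 q3 q4 ≠ 0)
    (h2 : det4 q0 q1 q3 q4 ≠ 0) (h3 : det4 q0 q1 q2 q4 ≠ 0) (h4 : det4 q0 q1 q2 q3 ≠ 0)
    (hd : det4 q0 q1 q4 q2 ≠ 0) :
    X32 q0 q1 q4 q2 q3 ↔ eq5 (pos (det4 q1 q2 q3 q4)) (!pos (det4 q0 q2 q3 q4)) (!pos (det4 q0 q1 q3 q4)) (pos (det4 q0 q1 q2 q4)) (pos (det4 q0 q1 q2 q3)) = true := by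
  rw [X32_iff (a := q0) (b := q1) (c := q4) (r := q2) (s := q3)
    (la := (det4 q1 q2 q3 q4)) (lb := (-det4 q0 q2 q3 q4)) (lc := (det4 q0 q1 q2 q3)) (lr := (det4 q0 q1 q3 q4)) (ls := (-det4 q0 q1 q2 q4))
    h0 (neg_ne_zero.mpr h1) h4 h2 (neg_ne_zero.mpr h3)
    (by have := dep_sum q0 q1 q2 q3 q4; linarith)
    (by rw [← dep_lin q0 q1 q2 q3 q4]; module) hd]
  rw [pos_neg h1, pos_neg h3]
  generalize pos (det4 q1 q2 q3 q4) = c0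
  generalize pos (det4 q0 q2 q3 q4) = c1
  generalize pos (det4 q0 q1 q3 q4) = c2
  generalize pos (det4 q0 q1 q2 q4) = c3
  generalize pos (det4 q0 q1 q2 q3) = c4
  revert c0 c1 c2 c3 c4; decide

theorem x32_013_24 (q0 q1 q2 q3 q4 : E3) (h0 : det4 q1 q2 q3 q4 ≠ 0) (h1 : det4 q0 q2 q3 q4 ≠ 0)
    (h2 : det4 q0 q1 q3 q4 ≠ 0) (h3 : det4 q0 q1 q2 q4 ≠ 0) (h4 : det4 q0 q1 q2 q3 ≠ 0)
    (hd : det4 q0 q1 q3 q2 ≠ 0) :
    X32 q0 q1 q3 q2 q4 ↔ eq5 (pos (det4 q1 q2 q3 q4)) (!pos (det4 q0 q2 q3 q4)) (!pos (det4 q0 q1 q3 q4)) (!pos (det4 q0 q1 q2 q4)) (!pos (det4 q0 q1 q2 q3)) = true := by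
  rw [X32_iff (a := q0) (b := q1) (c := q3) (r := q2) (s := q4)
    (la := (det4 q1 q2 q3 q4)) (lb := (-det4 q0 q2 q3 q4)) (lc := (-det4 q0 q1 q2 q4)) (lr := (det4 q0 q1 q3 q4)) (ls := (det4 q0 q1 q2 q3))
    h0 (neg_ne_zero.mpr h1) (neg_ne_zero.mpr h3) h2 h4
    (by have := dep_sum q0 q1 q2 q3 q4; linarith)
    (by rw [← dep_lin q0 q1 q2 q3 q4]; module) hd]
  rw [pos_neg h1, pos_neg h3]
  generalize pos (det4 q1 q2 q3 q4) = c0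
  generalize pos (det4 q0 q2 q3 q4) = c1
  generalize pos (det4 q0 q1 q3 q4) = c2
  generalize pos (det4 q0 q1 q2 q4) = c3
  generalize pos (det4 q0 q1 q2 q3) = c4
  revert c0 c1 c2 c3 c4; decide

theorem x32_012_34 (q0 q1 q2 q3 q4 : E3) (h0 : det4 q1 q2 q3 q4 ≠ 0) (h1 : det4 q0 q2 q3 q4 ≠ 0)
    (h2 : det4 q0 q1 q3 q4 ≠ 0) (h3 : det4 q0 q1 q2 q4 ≠ 0) (h4 : det4 q0 q1 q2 q3 ≠ 0)
    (hd : det4 q0 q1 q2 q3 ≠ 0) :
    X32 q0 q1 q2 q3 q4 ↔ eq5 (pos (det4 q1 q2 q3 q4)) (!pos (det4 q0 q2 q3 q4)) (pos (det4 q0 q1 q3 q4)) (pos (det4 q0 q1 q2 q4)) (!pos (det4 q0 q1 q2 q3)) = true := by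
  rw [X32_iff (a := q0) (b := q1) (c := q2) (r := q3) (s := q4)
    (la := (det4 q1 q2 q3 q4)) (lb := (-det4 q0 q2 q3 q4)) (lc := (det4 q0 q1 q3 q4)) (lr := (-det4 q0 q1 q2 q4)) (ls := (det4 q0 q1 q2 q3))
    h0 (neg_ne_zero.mpr h1) h2 (neg_ne_zero.mpr h3) h4
    (by have := dep_sum q0 q1 q2 q3 q4; linarith)
    (by rw [← dep_lin q0 q1 q2 q3 q4]; module) hd]
  rw [pos_neg h1, pos_neg h3]
  generalize pos (det4 q1 q2 q3 q4) = c0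
  generalize pos (det4 q0 q2 q3 q4) = c1
  generalize pos (det4 q0 q1 q3 q4) = c2
  generalize pos (det4 q0 q1 q2 q4) = c3
  generalize pos (det4 q0 q1 q2 q3) = c4
  revert c0 c1 c2 c3 c4; decide

theorem x41_0123_4 (q0 q1 q2 q3 q4 : E3) (h0 : det4 q1 q2 q3 q4 ≠ 0) (h1 : det4 q0 q2 q3 q4 ≠ 0)
    (h2 : det4 q0 q1 q3 q4 ≠ 0) (h3 : det4 q0 q1 q2 q4 ≠ 0) (h4 : det4 q0 q1 q2 q3 ≠ 0) :
    X41 q0 q1 q2 q3 q4 ↔ eq5 (pos (det4 q1 q2 q3 q4)) (!pos (det4 q0 q2 q3 q4)) (pos (det4 q0 q1 q3 q4)) (!pos (det4 q0 q1 q2 q4)) (!pos (det4 q0 q1 q2 q3)) = true := by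
  rw [X41_iff (a := q0) (b := q1) (c := q2) (d := q3) (r := q4)
    (la := (det4 q1 q2 q3 q4)) (lb := (-det4 q0 q2 q3 q4)) (lc := (det4 q0 q1 q3 q4)) (ld := (-det4 q0 q1 q2 q4)) (lr := (det4 q0 q1 q2 q3))
    h0 (neg_ne_zero.mpr h1) h2 (neg_ne_zero.mpr h3) h4
    (by have := dep_sum q0 q1 q2 q3 q4; linarith)
    (by rw [← dep_lin q0 q1 q2 q3 q4]; module) h4]
  rw [pos_neg h1, pos_neg h3]

variable {ι : Type*}
/-- general position: no four distinct points are coplanar -/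
def Gen (P : ι → E3) : Prop := ∀ i j k l, i ≠ j → i ≠ k → i ≠ l → j ≠ k → j ≠ l → k ≠ l →
  det4 (P i) (P j) (P k) (P l) ≠ 0

theorem six_l1 (P : ι → E3) (hP : Gen P) (i0 i1 i2 i3 i4 i5 : ι)
    (n01 : i0 ≠ i1) (n02 : i0 ≠ i2) (n03 : i0 ≠ i3) (n04 : i0 ≠ i4) (n05 : i0 ≠ i5) (n12 : i1 ≠ i2) (n13 : i1 ≠ i3) (n14 : i1 ≠ i4) (n15 : i1 ≠ i5) (n23 : i2 ≠ i3) (n24 : i2 ≠ i4) (n25 : i2 ≠ i5) (n34 : i3 ≠ i4) (n35 : i3 ≠ i5) (n45 : i4 ≠ i5) :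
    iv (X32 (P i1) (P i2) (P i3) (P i4) (P i5)) + iv (X32 (P i0) (P i2) (P i3) (P i4) (P i5)) + iv (X32 (P i0) (P i1) (P i3) (P i4) (P i5)) + iv (X32 (P i0) (P i1) (P i2) (P i4) (P i5)) + iv (X41 (P i0) (P i1) (P i2) (P i3) (P i5)) + iv (X41 (P i0) (P i1) (P i2) (P i3) (P i4)) = 0 := by
  have g01 := (hP i2 i3 i4 i5 n23 n24 n25 n34 n35 n45)
  have g02 := (hP i1 i3 i4 i5 n13 n14 n15 n34 n35 n45)
  have g03 := (hP i1 i2 i4 i5 n12 n14 n15 n24 n25 n45)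
  have g04 := (hP i1 i2 i3 i5 n12 n13 n15 n23 n25 n35)
  have g05 := (hP i1 i2 i3 i4 n12 n13 n14 n23 n24 n34)
  have g12 := (hP i0 i3 i4 i5 n03 n04 n05 n34 n35 n45)
  have g13 := (hP i0 i2 i4 i5 n02 n04 n05 n24 n25 n45)
  have g14 := (hP i0 i2 i3 i5 n02 n03 n05 n23 n25 n35)
  have g15 := (hP i0 i2 i3 i4 n02 n03 n04 n23 n24 n34)
  have g23 := (hP i0 i1 i4 i5 n01 n04 n05 n14 n15 n45)
  have g24 := (hP i0 i1 i3 i5 n01 n03 n05 n13 n15 n35)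
  have g25 := (hP i0 i1 i3 i4 n01 n03 n04 n13 n14 n34)
  have g34 := (hP i0 i1 i2 i5 n01 n02 n05 n12 n15 n25)
  have g35 := (hP i0 i1 i2 i4 n01 n02 n04 n12 n14 n24)
  have g45 := (hP i0 i1 i2 i3 n01 n02 n03 n12 n13 n23)
  have t0 := iv_eq (x32_012_34 (P i1) (P i2) (P i3) (P i4) (P i5) g01 g02 g03 g04 g05 (hP i1 i2 i3 i4 n12 n13 n14 n23 n24 n34))
  have t1 := iv_eq (x32_012_34 (P i0) (P i2) (P i3) (P i4) (P i5) g01 g12 g13 g14 g15 (hP i0 i2 i3 i4 n02 n03 n04 n23 n24 n34))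
  have t2 := iv_eq (x32_012_34 (P i0) (P i1) (P i3) (P i4) (P i5) g02 g12 g23 g24 g25 (hP i0 i1 i3 i4 n01 n03 n04 n13 n14 n34))
  have t3 := iv_eq (x32_012_34 (P i0) (P i1) (P i2) (P i4) (P i5) g03 g13 g23 g34 g35 (hP i0 i1 i2 i4 n01 n02 n04 n12 n14 n24))
  have t4 := iv_eq (x41_0123_4 (P i0) (P i1) (P i2) (P i3) (P i5) g04 g14 g24 g34 g45)
  have t5 := iv_eq (x41_0123_4 (P i0) (P i1) (P i2) (P i3) (P i4) g05 g15 g25 g35 g45)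
  rw [t0, t1, t2, t3, t4, t5]
  simp only [← bz_xor]
  have e0 : det4 (P i2) (P i3) (P i4) (P i5) * det4 (P i0) (P i1) (P i4) (P i5) - det4 (P i1) (P i3) (P i4) (P i5) * det4 (P i0) (P i2) (P i4) (P i5) + det4 (P i1) (P i2) (P i4) (P i5) * det4 (P i0) (P i3) (P i4) (P i5) = 0 := by
    unfold det4; ring
  have f0 := gp_spec (mul_ne_zero g01 g23) (mul_ne_zero g02 g13) (mul_ne_zero g03 g12) e0
  rw [pos_mul g01 g23, pos_mul g02 g13, pos_mul g03 g12] at f0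
  have e1 : det4 (P i2) (P i3) (P i4) (P i5) * det4 (P i0) (P i1) (P i3) (P i5) - det4 (P i1) (P i3) (P i4) (P i5) * det4 (P i0) (P i2) (P i3) (P i5) + det4 (P i1) (P i2) (P i3) (P i5) * det4 (P i0) (P i3) (P i4) (P i5) = 0 := by
    unfold det4; ring
  have f1 := gp_spec (mul_ne_zero g01 g24) (mul_ne_zero g02 g14) (mul_ne_zero g04 g12) e1
  rw [pos_mul g01 g24, pos_mul g02 g14, pos_mul g04 g12] at f1
  have e2 : det4 (P i2) (P i3) (P i4) (P i5) * det4 (P i0) (P i1) (P i3) (P i4) - det4 (P i1) (P i3) (P i4) (P i5) * det4 (P i0) (P i2) (P i3) (P i4) + det4 (P i1) (P i2) (P i3) (P i4) * det4 (P i0) (P i3) (P i4) (P i5) = 0 := by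
    unfold det4; ring
  have f2 := gp_spec (mul_ne_zero g01 g25) (mul_ne_zero g02 g15) (mul_ne_zero g05 g12) e2
  rw [pos_mul g01 g25, pos_mul g02 g15, pos_mul g05 g12] at f2
  have e3 : det4 (P i2) (P i3) (P i4) (P i5) * det4 (P i0) (P i1) (P i2) (P i5) - det4 (P i1) (P i2) (P i4) (P i5) * det4 (P i0) (P i2) (P i3) (P i5) + det4 (P i1) (P i2) (P i3) (P i5) * det4 (P i0) (P i2) (P i4) (P i5) = 0 := by
    unfold det4; ring
  have f3 := gp_spec (mul_ne_zero g01 g34) (mul_ne_zero g03 g14) (mul_ne_zero g04 g13) e3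
  rw [pos_mul g01 g34, pos_mul g03 g14, pos_mul g04 g13] at f3
  have e4 : det4 (P i2) (P i3) (P i4) (P i5) * det4 (P i0) (P i1) (P i2) (P i4) - det4 (P i1) (P i2) (P i4) (P i5) * det4 (P i0) (P i2) (P i3) (P i4) + det4 (P i1) (P i2) (P i3) (P i4) * det4 (P i0) (P i2) (P i4) (P i5) = 0 := by
    unfold det4; ring
  have f4 := gp_spec (mul_ne_zero g01 g35) (mul_ne_zero g03 g15) (mul_ne_zero g05 g13) e4
  rw [pos_mul g01 g35, pos_mul g03 g15, pos_mul g05 g13] at f4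
  have e5 : det4 (P i2) (P i3) (P i4) (P i5) * det4 (P i0) (P i1) (P i2) (P i3) - det4 (P i1) (P i2) (P i3) (P i5) * det4 (P i0) (P i2) (P i3) (P i4) + det4 (P i1) (P i2) (P i3) (P i4) * det4 (P i0) (P i2) (P i3) (P i5) = 0 := by
    unfold det4; ring
  have f5 := gp_spec (mul_ne_zero g01 g45) (mul_ne_zero g04 g15) (mul_ne_zero g05 g14) e5
  rw [pos_mul g01 g45, pos_mul g04 g15, pos_mul g05 g14] at f5
  have e6 : det4 (P i1) (P i3) (P i4) (P i5) * det4 (P i0) (P i1) (P i2) (P i5) - det4 (P i1) (P i2) (P i4) (P i5) * det4 (P i0) (P i1) (P i3) (P i5) + det4 (P i1) (P i2) (P i3) (P i5) * det4 (P i0) (P i1) (P i4) (P i5) = 0 := by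
    unfold det4; ring
  have f6 := gp_spec (mul_ne_zero g02 g34) (mul_ne_zero g03 g24) (mul_ne_zero g04 g23) e6
  rw [pos_mul g02 g34, pos_mul g03 g24, pos_mul g04 g23] at f6
  have e7 : det4 (P i1) (P i3) (P i4) (P i5) * det4 (P i0) (P i1) (P i2) (P i4) - det4 (P i1) (P i2) (P i4) (P i5) * det4 (P i0) (P i1) (P i3) (P i4) + det4 (P i1) (P i2) (P i3) (P i4) * det4 (P i0) (P i1) (P i4) (P i5) = 0 := by
    unfold det4; ring
  have f7 := gp_spec (mul_ne_zero g02 g35) (mul_ne_zero g03 g25) (mul_ne_zero g05 g23) e7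
  rw [pos_mul g02 g35, pos_mul g03 g25, pos_mul g05 g23] at f7
  have e8 : det4 (P i1) (P i3) (P i4) (P i5) * det4 (P i0) (P i1) (P i2) (P i3) - det4 (P i1) (P i2) (P i3) (P i5) * det4 (P i0) (P i1) (P i3) (P i4) + det4 (P i1) (P i2) (P i3) (P i4) * det4 (P i0) (P i1) (P i3) (P i5) = 0 := by
    unfold det4; ring
  have f8 := gp_spec (mul_ne_zero g02 g45) (mul_ne_zero g04 g25) (mul_ne_zero g05 g24) e8
  rw [pos_mul g02 g45, pos_mul g04 g25, pos_mul g05 g24] at f8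
  have e9 : det4 (P i1) (P i2) (P i4) (P i5) * det4 (P i0) (P i1) (P i2) (P i3) - det4 (P i1) (P i2) (P i3) (P i5) * det4 (P i0) (P i1) (P i2) (P i4) + det4 (P i1) (P i2) (P i3) (P i4) * det4 (P i0) (P i1) (P i2) (P i5) = 0 := by
    unfold det4; ring
  have f9 := gp_spec (mul_ne_zero g03 g45) (mul_ne_zero g04 g35) (mul_ne_zero g05 g34) e9
  rw [pos_mul g03 g45, pos_mul g04 g35, pos_mul g05 g34] at f9
  have e10 : det4 (P i0) (P i3) (P i4) (P i5) * det4 (P i0) (P i1) (P i2) (P i5) - det4 (P i0) (P i2) (P i4) (P i5) * det4 (P i0) (P i1) (P i3) (P i5) + det4 (P i0) (P i2) (P i3) (P i5) * det4 (P i0) (P i1) (P i4) (P i5) = 0 := by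
    unfold det4; ring
  have f10 := gp_spec (mul_ne_zero g12 g34) (mul_ne_zero g13 g24) (mul_ne_zero g14 g23) e10
  rw [pos_mul g12 g34, pos_mul g13 g24, pos_mul g14 g23] at f10
  have e11 : det4 (P i0) (P i3) (P i4) (P i5) * det4 (P i0) (P i1) (P i2) (P i4) - det4 (P i0) (P i2) (P i4) (P i5) * det4 (P i0) (P i1) (P i3) (P i4) + det4 (P i0) (P i2) (P i3) (P i4) * det4 (P i0) (P i1) (P i4) (P i5) = 0 := by
    unfold det4; ring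
  have f11 := gp_spec (mul_ne_zero g12 g35) (mul_ne_zero g13 g25) (mul_ne_zero g15 g23) e11
  rw [pos_mul g12 g35, pos_mul g13 g25, pos_mul g15 g23] at f11
  have e12 : det4 (P i0) (P i3) (P i4) (P i5) * det4 (P i0) (P i1) (P i2) (P i3) - det4 (P i0) (P i2) (P i3) (P i5) * det4 (P i0) (P i1) (P i3) (P i4) + det4 (P i0) (P i2) (P i3) (P i4) * det4 (P i0) (P i1) (P i3) (P i5) = 0 := by
    unfold det4; ring
  have f12 := gp_spec (mul_ne_zero g12 g45) (mul_ne_zero g14 g25) (mul_ne_zero g15 g24) e12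
  rw [pos_mul g12 g45, pos_mul g14 g25, pos_mul g15 g24] at f12
  have e13 : det4 (P i0) (P i2) (P i4) (P i5) * det4 (P i0) (P i1) (P i2) (P i3) - det4 (P i0) (P i2) (P i3) (P i5) * det4 (P i0) (P i1) (P i2) (P i4) + det4 (P i0) (P i2) (P i3) (P i4) * det4 (P i0) (P i1) (P i2) (P i5) = 0 := by
    unfold det4; ring
  have f13 := gp_spec (mul_ne_zero g13 g45) (mul_ne_zero g14 g35) (mul_ne_zero g15 g34) e13
  rw [pos_mul g13 g45, pos_mul g14 g35, pos_mul g15 g34] at f13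
  have e14 : det4 (P i0) (P i1) (P i4) (P i5) * det4 (P i0) (P i1) (P i2) (P i3) - det4 (P i0) (P i1) (P i3) (P i5) * det4 (P i0) (P i1) (P i2) (P i4) + det4 (P i0) (P i1) (P i3) (P i4) * det4 (P i0) (P i1) (P i2) (P i5) = 0 := by
    unfold det4; ring
  have f14 := gp_spec (mul_ne_zero g23 g45) (mul_ne_zero g24 g35) (mul_ne_zero g25 g34) e14
  rw [pos_mul g23 g45, pos_mul g24 g35, pos_mul g25 g34] at f14
  rw [bool_l1 _ _ _ _ _ _ _ _ _ _ _ _ _ _ _ f0 f1 f2 f3 f6 f10 f4 f7 f11 f5 f8 f9 f12 f13 f14]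
  rfl

theorem six_l2 (P : ι → E3) (hP : Gen P) (i0 i1 i2 i3 i4 i5 : ι)
    (n01 : i0 ≠ i1) (n02 : i0 ≠ i2) (n03 : i0 ≠ i3) (n04 : i0 ≠ i4) (n05 : i0 ≠ i5) (n12 : i1 ≠ i2) (n13 : i1 ≠ i3) (n14 : i1 ≠ i4) (n15 : i1 ≠ i5) (n23 : i2 ≠ i3) (n24 : i2 ≠ i4) (n25 : i2 ≠ i5) (n34 : i3 ≠ i4) (n35 : i3 ≠ i5) (n45 : i4 ≠ i5) :
    iv (X32 (P i3) (P i4) (P i5) (P i1) (P i2)) + iv (X32 (P i3) (P i4) (P i5) (P i0) (P i2)) + iv (X32 (P i3) (P i4) (P i5) (P i0) (P i1)) + iv (X32 (P i0) (P i1) (P i2) (P i4) (P i5)) + iv (X32 (P i0) (P i1) (P i2) (P i3) (P i5)) + iv (X32 (P i0) (P i1) (P i2) (P i3) (P i4)) = 0 := by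
  have g01 := (hP i2 i3 i4 i5 n23 n24 n25 n34 n35 n45)
  have g02 := (hP i1 i3 i4 i5 n13 n14 n15 n34 n35 n45)
  have g03 := (hP i1 i2 i4 i5 n12 n14 n15 n24 n25 n45)
  have g04 := (hP i1 i2 i3 i5 n12 n13 n15 n23 n25 n35)
  have g05 := (hP i1 i2 i3 i4 n12 n13 n14 n23 n24 n34)
  have g12 := (hP i0 i3 i4 i5 n03 n04 n05 n34 n35 n45)
  have g13 := (hP i0 i2 i4 i5 n02 n04 n05 n24 n25 n45)
  have g14 := (hP i0 i2 i3 i5 n02 n03 n05 n23 n25 n35)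
  have g15 := (hP i0 i2 i3 i4 n02 n03 n04 n23 n24 n34)
  have g23 := (hP i0 i1 i4 i5 n01 n04 n05 n14 n15 n45)
  have g24 := (hP i0 i1 i3 i5 n01 n03 n05 n13 n15 n35)
  have g25 := (hP i0 i1 i3 i4 n01 n03 n04 n13 n14 n34)
  have g34 := (hP i0 i1 i2 i5 n01 n02 n05 n12 n15 n25)
  have g35 := (hP i0 i1 i2 i4 n01 n02 n04 n12 n14 n24)
  have g45 := (hP i0 i1 i2 i3 n01 n02 n03 n12 n13 n23)
  have t0 := iv_eq (x32_234_01 (P i1) (P i2) (P i3) (P i4) (P i5) g01 g02 g03 g04 g05 (hP i3 i4 i5 i1 n34 n35 n13.symm n45 n14.symm n15.symm))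
  have t1 := iv_eq (x32_234_01 (P i0) (P i2) (P i3) (P i4) (P i5) g01 g12 g13 g14 g15 (hP i3 i4 i5 i0 n34 n35 n03.symm n45 n04.symm n05.symm))
  have t2 := iv_eq (x32_234_01 (P i0) (P i1) (P i3) (P i4) (P i5) g02 g12 g23 g24 g25 (hP i3 i4 i5 i0 n34 n35 n03.symm n45 n04.symm n05.symm))
  have t3 := iv_eq (x32_012_34 (P i0) (P i1) (P i2) (P i4) (P i5) g03 g13 g23 g34 g35 (hP i0 i1 i2 i4 n01 n02 n04 n12 n14 n24))
  have t4 := iv_eq (x32_012_34 (P i0) (P i1) (P i2) (P i3) (P i5) g04 g14 g24 g34 g45 (hP i0 i1 i2 i3 n01 n02 n03 n12 n13 n23))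
  have t5 := iv_eq (x32_012_34 (P i0) (P i1) (P i2) (P i3) (P i4) g05 g15 g25 g35 g45 (hP i0 i1 i2 i3 n01 n02 n03 n12 n13 n23))
  rw [t0, t1, t2, t3, t4, t5]
  simp only [← bz_xor]
  have e0 : det4 (P i2) (P i3) (P i4) (P i5) * det4 (P i0) (P i1) (P i4) (P i5) - det4 (P i1) (P i3) (P i4) (P i5) * det4 (P i0) (P i2) (P i4) (P i5) + det4 (P i1) (P i2) (P i4) (P i5) * det4 (P i0) (P i3) (P i4) (P i5) = 0 := by
    unfold det4; ring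
  have f0 := gp_spec (mul_ne_zero g01 g23) (mul_ne_zero g02 g13) (mul_ne_zero g03 g12) e0
  rw [pos_mul g01 g23, pos_mul g02 g13, pos_mul g03 g12] at f0
  have e1 : det4 (P i2) (P i3) (P i4) (P i5) * det4 (P i0) (P i1) (P i3) (P i5) - det4 (P i1) (P i3) (P i4) (P i5) * det4 (P i0) (P i2) (P i3) (P i5) + det4 (P i1) (P i2) (P i3) (P i5) * det4 (P i0) (P i3) (P i4) (P i5) = 0 := by
    unfold det4; ring
  have f1 := gp_spec (mul_ne_zero g01 g24) (mul_ne_zero g02 g14) (mul_ne_zero g04 g12) e1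
  rw [pos_mul g01 g24, pos_mul g02 g14, pos_mul g04 g12] at f1
  have e2 : det4 (P i2) (P i3) (P i4) (P i5) * det4 (P i0) (P i1) (P i3) (P i4) - det4 (P i1) (P i3) (P i4) (P i5) * det4 (P i0) (P i2) (P i3) (P i4) + det4 (P i1) (P i2) (P i3) (P i4) * det4 (P i0) (P i3) (P i4) (P i5) = 0 := by
    unfold det4; ring
  have f2 := gp_spec (mul_ne_zero g01 g25) (mul_ne_zero g02 g15) (mul_ne_zero g05 g12) e2
  rw [pos_mul g01 g25, pos_mul g02 g15, pos_mul g05 g12] at f2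
  have e3 : det4 (P i2) (P i3) (P i4) (P i5) * det4 (P i0) (P i1) (P i2) (P i5) - det4 (P i1) (P i2) (P i4) (P i5) * det4 (P i0) (P i2) (P i3) (P i5) + det4 (P i1) (P i2) (P i3) (P i5) * det4 (P i0) (P i2) (P i4) (P i5) = 0 := by
    unfold det4; ring
  have f3 := gp_spec (mul_ne_zero g01 g34) (mul_ne_zero g03 g14) (mul_ne_zero g04 g13) e3
  rw [pos_mul g01 g34, pos_mul g03 g14, pos_mul g04 g13] at f3
  have e4 : det4 (P i2) (P i3) (P i4) (P i5) * det4 (P i0) (P i1) (P i2) (P i4) - det4 (P i1) (P i2) (P i4) (P i5) * det4 (P i0) (P i2) (P i3) (P i4) + det4 (P i1) (P i2) (P i3) (P i4) * det4 (P i0) (P i2) (P i4) (P i5) = 0 := by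
    unfold det4; ring
  have f4 := gp_spec (mul_ne_zero g01 g35) (mul_ne_zero g03 g15) (mul_ne_zero g05 g13) e4
  rw [pos_mul g01 g35, pos_mul g03 g15, pos_mul g05 g13] at f4
  have e5 : det4 (P i2) (P i3) (P i4) (P i5) * det4 (P i0) (P i1) (P i2) (P i3) - det4 (P i1) (P i2) (P i3) (P i5) * det4 (P i0) (P i2) (P i3) (P i4) + det4 (P i1) (P i2) (P i3) (P i4) * det4 (P i0) (P i2) (P i3) (P i5) = 0 := by
    unfold det4; ring
  have f5 := gp_spec (mul_ne_zero g01 g45) (mul_ne_zero g04 g15) (mul_ne_zero g05 g14) e5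
  rw [pos_mul g01 g45, pos_mul g04 g15, pos_mul g05 g14] at f5
  have e6 : det4 (P i1) (P i3) (P i4) (P i5) * det4 (P i0) (P i1) (P i2) (P i5) - det4 (P i1) (P i2) (P i4) (P i5) * det4 (P i0) (P i1) (P i3) (P i5) + det4 (P i1) (P i2) (P i3) (P i5) * det4 (P i0) (P i1) (P i4) (P i5) = 0 := by
    unfold det4; ring
  have f6 := gp_spec (mul_ne_zero g02 g34) (mul_ne_zero g03 g24) (mul_ne_zero g04 g23) e6
  rw [pos_mul g02 g34, pos_mul g03 g24, pos_mul g04 g23] at f6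
  have e7 : det4 (P i1) (P i3) (P i4) (P i5) * det4 (P i0) (P i1) (P i2) (P i4) - det4 (P i1) (P i2) (P i4) (P i5) * det4 (P i0) (P i1) (P i3) (P i4) + det4 (P i1) (P i2) (P i3) (P i4) * det4 (P i0) (P i1) (P i4) (P i5) = 0 := by
    unfold det4; ring
  have f7 := gp_spec (mul_ne_zero g02 g35) (mul_ne_zero g03 g25) (mul_ne_zero g05 g23) e7
  rw [pos_mul g02 g35, pos_mul g03 g25, pos_mul g05 g23] at f7
  have e8 : det4 (P i1) (P i3) (P i4) (P i5) * det4 (P i0) (P i1) (P i2) (P i3) - det4 (P i1) (P i2) (P i3) (P i5) * det4 (P i0) (P i1) (P i3) (P i4) + det4 (P i1) (P i2) (P i3) (P i4) * det4 (P i0) (P i1) (P i3) (P i5) = 0 := by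
    unfold det4; ring
  have f8 := gp_spec (mul_ne_zero g02 g45) (mul_ne_zero g04 g25) (mul_ne_zero g05 g24) e8
  rw [pos_mul g02 g45, pos_mul g04 g25, pos_mul g05 g24] at f8
  have e9 : det4 (P i1) (P i2) (P i4) (P i5) * det4 (P i0) (P i1) (P i2) (P i3) - det4 (P i1) (P i2) (P i3) (P i5) * det4 (P i0) (P i1) (P i2) (P i4) + det4 (P i1) (P i2) (P i3) (P i4) * det4 (P i0) (P i1) (P i2) (P i5) = 0 := by
    unfold det4; ring
  have f9 := gp_spec (mul_ne_zero g03 g45) (mul_ne_zero g04 g35) (mul_ne_zero g05 g34) e9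
  rw [pos_mul g03 g45, pos_mul g04 g35, pos_mul g05 g34] at f9
  have e10 : det4 (P i0) (P i3) (P i4) (P i5) * det4 (P i0) (P i1) (P i2) (P i5) - det4 (P i0) (P i2) (P i4) (P i5) * det4 (P i0) (P i1) (P i3) (P i5) + det4 (P i0) (P i2) (P i3) (P i5) * det4 (P i0) (P i1) (P i4) (P i5) = 0 := by
    unfold det4; ring
  have f10 := gp_spec (mul_ne_zero g12 g34) (mul_ne_zero g13 g24) (mul_ne_zero g14 g23) e10
  rw [pos_mul g12 g34, pos_mul g13 g24, pos_mul g14 g23] at f10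
  have e11 : det4 (P i0) (P i3) (P i4) (P i5) * det4 (P i0) (P i1) (P i2) (P i4) - det4 (P i0) (P i2) (P i4) (P i5) * det4 (P i0) (P i1) (P i3) (P i4) + det4 (P i0) (P i2) (P i3) (P i4) * det4 (P i0) (P i1) (P i4) (P i5) = 0 := by
    unfold det4; ring
  have f11 := gp_spec (mul_ne_zero g12 g35) (mul_ne_zero g13 g25) (mul_ne_zero g15 g23) e11
  rw [pos_mul g12 g35, pos_mul g13 g25, pos_mul g15 g23] at f11
  have e12 : det4 (P i0) (P i3) (P i4) (P i5) * det4 (P i0) (P i1) (P i2) (P i3) - det4 (P i0) (P i2) (P i3) (P i5) * det4 (P i0) (P i1) (P i3) (P i4) + det4 (P i0) (P i2) (P i3) (P i4) * det4 (P i0) (P i1) (P i3) (P i5) = 0 := by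
    unfold det4; ring
  have f12 := gp_spec (mul_ne_zero g12 g45) (mul_ne_zero g14 g25) (mul_ne_zero g15 g24) e12
  rw [pos_mul g12 g45, pos_mul g14 g25, pos_mul g15 g24] at f12
  have e13 : det4 (P i0) (P i2) (P i4) (P i5) * det4 (P i0) (P i1) (P i2) (P i3) - det4 (P i0) (P i2) (P i3) (P i5) * det4 (P i0) (P i1) (P i2) (P i4) + det4 (P i0) (P i2) (P i3) (P i4) * det4 (P i0) (P i1) (P i2) (P i5) = 0 := by
    unfold det4; ring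
  have f13 := gp_spec (mul_ne_zero g13 g45) (mul_ne_zero g14 g35) (mul_ne_zero g15 g34) e13
  rw [pos_mul g13 g45, pos_mul g14 g35, pos_mul g15 g34] at f13
  have e14 : det4 (P i0) (P i1) (P i4) (P i5) * det4 (P i0) (P i1) (P i2) (P i3) - det4 (P i0) (P i1) (P i3) (P i5) * det4 (P i0) (P i1) (P i2) (P i4) + det4 (P i0) (P i1) (P i3) (P i4) * det4 (P i0) (P i1) (P i2) (P i5) = 0 := by
    unfold det4; ring
  have f14 := gp_spec (mul_ne_zero g23 g45) (mul_ne_zero g24 g35) (mul_ne_zero g25 g34) e14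
  rw [pos_mul g23 g45, pos_mul g24 g35, pos_mul g25 g34] at f14
  rw [bool_l2 _ _ _ _ _ _ _ _ _ _ _ _ _ _ _ f0 f1 f2 f3 f6 f10 f4 f7 f11 f5 f8 f9 f12 f13 f14]
  rfl

theorem six_l3 (P : ι → E3) (hP : Gen P) (i0 i1 i2 i3 i4 i5 : ι)
    (n01 : i0 ≠ i1) (n02 : i0 ≠ i2) (n03 : i0 ≠ i3) (n04 : i0 ≠ i4) (n05 : i0 ≠ i5) (n12 : i1 ≠ i2) (n13 : i1 ≠ i3) (n14 : i1 ≠ i4) (n15 : i1 ≠ i5) (n23 : i2 ≠ i3) (n24 : i2 ≠ i4) (n25 : i2 ≠ i5) (n34 : i3 ≠ i4) (n35 : i3 ≠ i5) (n45 : i4 ≠ i5) :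
    iv (X32 (P i0) (P i4) (P i5) (P i2) (P i3)) + iv (X32 (P i0) (P i3) (P i5) (P i2) (P i4)) + iv (X32 (P i0) (P i3) (P i4) (P i2) (P i5)) + iv (X32 (P i0) (P i2) (P i5) (P i3) (P i4)) + iv (X32 (P i0) (P i2) (P i4) (P i3) (P i5)) + iv (X32 (P i0) (P i2) (P i3) (P i4) (P i5)) + iv (X32 (P i0) (P i4) (P i5) (P i1) (P i3)) + iv (X32 (P i0) (P i3) (P i5) (P i1) (P i4)) + iv (X32 (P i0) (P i3) (P i4) (P i1) (P i5)) + iv (X32 (P i0) (P i1) (P i5) (P i3) (P i4)) + iv (X32 (P i0) (P i1) (P i4) (P i3) (P i5)) + iv (X32 (P i0) (P i1) (P i3) (P i4) (P i5)) + iv (X32 (P i0) (P i4) (P i5) (P i1) (P i2)) + iv (X32 (P i0) (P i2) (P i5) (P i1) (P i4)) + iv (X32 (P i0) (P i2) (P i4) (P i1) (P i5)) + iv (X32 (P i0) (P i1) (P i5) (P i2) (P i4)) + iv (X32 (P i0) (P i1) (P i4) (P i2) (P i5)) + iv (X32 (P i0) (P i1) (P i2) (P i4) (P i5)) + iv (X32 (P i0) (P i3) (P i5)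 (P i1) (P i2)) + iv (X32 (P i0) (P i2) (P i5) (P i1) (P i3)) + iv (X32 (P i0) (P i2) (P i3) (P i1) (P i5)) + iv (X32 (P i0) (P i1) (P i5) (P i2) (P i3)) + iv (X32 (P i0) (P i1) (P i3) (P i2) (P i5)) + iv (X32 (P i0) (P i1) (P i2) (P i3) (P i5)) + iv (X32 (P i0) (P i3) (P i4) (P i1) (P i2)) + iv (X32 (P i0) (P i2) (P i4) (P i1) (P i3)) + iv (X32 (P i0) (P i2) (P i3) (P i1) (P i4)) + iv (X32 (P i0) (P i1) (P i4) (P i2) (P i3)) + iv (X32 (P i0) (P i1) (P i3) (P i2) (P i4)) + iv (X32 (P i0) (P i1) (P i2) (P i3) (P i4)) = 1 := by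
  have g01 := (hP i2 i3 i4 i5 n23 n24 n25 n34 n35 n45)
  have g02 := (hP i1 i3 i4 i5 n13 n14 n15 n34 n35 n45)
  have g03 := (hP i1 i2 i4 i5 n12 n14 n15 n24 n25 n45)
  have g04 := (hP i1 i2 i3 i5 n12 n13 n15 n23 n25 n35)
  have g05 := (hP i1 i2 i3 i4 n12 n13 n14 n23 n24 n34)
  have g12 := (hP i0 i3 i4 i5 n03 n04 n05 n34 n35 n45)
  have g13 := (hP i0 i2 i4 i5 n02 n04 n05 n24 n25 n45)
  have g14 := (hP i0 i2 i3 i5 n02 n03 n05 n23 n25 n35)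
  have g15 := (hP i0 i2 i3 i4 n02 n03 n04 n23 n24 n34)
  have g23 := (hP i0 i1 i4 i5 n01 n04 n05 n14 n15 n45)
  have g24 := (hP i0 i1 i3 i5 n01 n03 n05 n13 n15 n35)
  have g25 := (hP i0 i1 i3 i4 n01 n03 n04 n13 n14 n34)
  have g34 := (hP i0 i1 i2 i5 n01 n02 n05 n12 n15 n25)
  have g35 := (hP i0 i1 i2 i4 n01 n02 n04 n12 n14 n24)
  have g45 := (hP i0 i1 i2 i3 n01 n02 n03 n12 n13 n23)
  have t0 := iv_eq (x32_034_12 (P i0) (P i2) (P i3) (P i4) (P i5) g01 g12 g13 g14 g15 (hP i0 i4 i5 i2 n04 n05 n02 n45 n24.symm n25.symm))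
  have t1 := iv_eq (x32_024_13 (P i0) (P i2) (P i3) (P i4) (P i5) g01 g12 g13 g14 g15 (hP i0 i3 i5 i2 n03 n05 n02 n35 n23.symm n25.symm))
  have t2 := iv_eq (x32_023_14 (P i0) (P i2) (P i3) (P i4) (P i5) g01 g12 g13 g14 g15 (hP i0 i3 i4 i2 n03 n04 n02 n34 n23.symm n24.symm))
  have t3 := iv_eq (x32_014_23 (P i0) (P i2) (P i3) (P i4) (P i5) g01 g12 g13 g14 g15 (hP i0 i2 i5 i3 n02 n05 n03 n25 n23 n35.symm))
  have t4 := iv_eq (x32_013_24 (P i0) (P i2) (P i3) (P i4) (P i5) g01 g12 g13 g14 g15 (hP i0 i2 i4 i3 n02 n04 n03 n24 n23 n34.symm))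
  have t5 := iv_eq (x32_012_34 (P i0) (P i2) (P i3) (P i4) (P i5) g01 g12 g13 g14 g15 (hP i0 i2 i3 i4 n02 n03 n04 n23 n24 n34))
  have t6 := iv_eq (x32_034_12 (P i0) (P i1) (P i3) (P i4) (P i5) g02 g12 g23 g24 g25 (hP i0 i4 i5 i1 n04 n05 n01 n45 n14.symm n15.symm))
  have t7 := iv_eq (x32_024_13 (P i0) (P i1) (P i3) (P i4) (P i5) g02 g12 g23 g24 g25 (hP i0 i3 i5 i1 n03 n05 n01 n35 n13.symm n15.symm))
  have t8 := iv_eq (x32_023_14 (P i0) (P i1) (P i3) (P i4) (P i5) g02 g12 g23 g24 g25 (hP i0 i3 i4 i1 n03 n04 n01 n34 n13.symm n14.symm))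
  have t9 := iv_eq (x32_014_23 (P i0) (P i1) (P i3) (P i4) (P i5) g02 g12 g23 g24 g25 (hP i0 i1 i5 i3 n01 n05 n03 n15 n13 n35.symm))
  have t10 := iv_eq (x32_013_24 (P i0) (P i1) (P i3) (P i4) (P i5) g02 g12 g23 g24 g25 (hP i0 i1 i4 i3 n01 n04 n03 n14 n13 n34.symm))
  have t11 := iv_eq (x32_012_34 (P i0) (P i1) (P i3) (P i4) (P i5) g02 g12 g23 g24 g25 (hP i0 i1 i3 i4 n01 n03 n04 n13 n14 n34))
  have t12 := iv_eq (x32_034_12 (P i0) (P i1) (P i2) (P i4) (P i5) g03 g13 g23 g34 g35 (hP i0 i4 i5 i1 n04 n05 n01 n45 n14.symm n15.symm))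
  have t13 := iv_eq (x32_024_13 (P i0) (P i1) (P i2) (P i4) (P i5) g03 g13 g23 g34 g35 (hP i0 i2 i5 i1 n02 n05 n01 n25 n12.symm n15.symm))
  have t14 := iv_eq (x32_023_14 (P i0) (P i1) (P i2) (P i4) (P i5) g03 g13 g23 g34 g35 (hP i0 i2 i4 i1 n02 n04 n01 n24 n12.symm n14.symm))
  have t15 := iv_eq (x32_014_23 (P i0) (P i1) (P i2) (P i4) (P i5) g03 g13 g23 g34 g35 (hP i0 i1 i5 i2 n01 n05 n02 n15 n12 n25.symm))
  have t16 := iv_eq (x32_013_24 (P i0) (P i1) (P i2) (P i4) (P i5) g03 g13 g23 g34 g35 (hP i0 i1 i4 i2 n01 n04 n02 n14 n12 n24.symm))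
  have t17 := iv_eq (x32_012_34 (P i0) (P i1) (P i2) (P i4) (P i5) g03 g13 g23 g34 g35 (hP i0 i1 i2 i4 n01 n02 n04 n12 n14 n24))
  have t18 := iv_eq (x32_034_12 (P i0) (P i1) (P i2) (P i3) (P i5) g04 g14 g24 g34 g45 (hP i0 i3 i5 i1 n03 n05 n01 n35 n13.symm n15.symm))
  have t19 := iv_eq (x32_024_13 (P i0) (P i1) (P i2) (P i3) (P i5) g04 g14 g24 g34 g45 (hP i0 i2 i5 i1 n02 n05 n01 n25 n12.symm n15.symm))
  have t20 := iv_eq (x32_023_14 (P i0) (P i1) (P i2) (P i3) (P i5) g04 g14 g24 g34 g45 (hP i0 i2 i3 i1 n02 n03 n01 n23 n12.symm n13.symm))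
  have t21 := iv_eq (x32_014_23 (P i0) (P i1) (P i2) (P i3) (P i5) g04 g14 g24 g34 g45 (hP i0 i1 i5 i2 n01 n05 n02 n15 n12 n25.symm))
  have t22 := iv_eq (x32_013_24 (P i0) (P i1) (P i2) (P i3) (P i5) g04 g14 g24 g34 g45 (hP i0 i1 i3 i2 n01 n03 n02 n13 n12 n23.symm))
  have t23 := iv_eq (x32_012_34 (P i0) (P i1) (P i2) (P i3) (P i5) g04 g14 g24 g34 g45 (hP i0 i1 i2 i3 n01 n02 n03 n12 n13 n23))
  have t24 := iv_eq (x32_034_12 (P i0) (P i1) (P i2) (P i3) (P i4) g05 g15 g25 g35 g45 (hP i0 i3 i4 i1 n03 n04 n01 n34 n13.symm n14.symm))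
  have t25 := iv_eq (x32_024_13 (P i0) (P i1) (P i2) (P i3) (P i4) g05 g15 g25 g35 g45 (hP i0 i2 i4 i1 n02 n04 n01 n24 n12.symm n14.symm))
  have t26 := iv_eq (x32_023_14 (P i0) (P i1) (P i2) (P i3) (P i4) g05 g15 g25 g35 g45 (hP i0 i2 i3 i1 n02 n03 n01 n23 n12.symm n13.symm))
  have t27 := iv_eq (x32_014_23 (P i0) (P i1) (P i2) (P i3) (P i4) g05 g15 g25 g35 g45 (hP i0 i1 i4 i2 n01 n04 n02 n14 n12 n24.symm))
  have t28 := iv_eq (x32_013_24 (P i0) (P i1) (P i2) (P i3) (P i4) g05 g15 g25 g35 g45 (hP i0 i1 i3 i2 n01 n03 n02 n13 n12 n23.symm))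
  have t29 := iv_eq (x32_012_34 (P i0) (P i1) (P i2) (P i3) (P i4) g05 g15 g25 g35 g45 (hP i0 i1 i2 i3 n01 n02 n03 n12 n13 n23))
  rw [t0, t1, t2, t3, t4, t5, t6, t7, t8, t9, t10, t11, t12, t13, t14, t15, t16, t17, t18, t19, t20, t21, t22, t23, t24, t25, t26, t27, t28, t29]
  simp only [← bz_xor]
  have e0 : det4 (P i2) (P i3) (P i4) (P i5) * det4 (P i0) (P i1) (P i4) (P i5) - det4 (P i1) (P i3) (P i4) (P i5) * det4 (P i0) (P i2) (P i4) (P i5) + det4 (P i1) (P i2) (P i4) (P i5) * det4 (P i0) (P i3) (P i4) (P i5) = 0 := by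
    unfold det4; ring
  have f0 := gp_spec (mul_ne_zero g01 g23) (mul_ne_zero g02 g13) (mul_ne_zero g03 g12) e0
  rw [pos_mul g01 g23, pos_mul g02 g13, pos_mul g03 g12] at f0
  have e1 : det4 (P i2) (P i3) (P i4) (P i5) * det4 (P i0) (P i1) (P i3) (P i5) - det4 (P i1) (P i3) (P i4) (P i5) * det4 (P i0) (P i2) (P i3) (P i5) + det4 (P i1) (P i2) (P i3) (P i5) * det4 (P i0) (P i3) (P i4) (P i5) = 0 := by
    unfold det4; ring
  have f1 := gp_spec (mul_ne_zero g01 g24) (mul_ne_zero g02 g14) (mul_ne_zero g04 g12) e1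
  rw [pos_mul g01 g24, pos_mul g02 g14, pos_mul g04 g12] at f1
  have e2 : det4 (P i2) (P i3) (P i4) (P i5) * det4 (P i0) (P i1) (P i3) (P i4) - det4 (P i1) (P i3) (P i4) (P i5) * det4 (P i0) (P i2) (P i3) (P i4) + det4 (P i1) (P i2) (P i3) (P i4) * det4 (P i0) (P i3) (P i4) (P i5) = 0 := by
    unfold det4; ring
  have f2 := gp_spec (mul_ne_zero g01 g25) (mul_ne_zero g02 g15) (mul_ne_zero g05 g12) e2
  rw [pos_mul g01 g25, pos_mul g02 g15, pos_mul g05 g12] at f2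
  have e3 : det4 (P i2) (P i3) (P i4) (P i5) * det4 (P i0) (P i1) (P i2) (P i5) - det4 (P i1) (P i2) (P i4) (P i5) * det4 (P i0) (P i2) (P i3) (P i5) + det4 (P i1) (P i2) (P i3) (P i5) * det4 (P i0) (P i2) (P i4) (P i5) = 0 := by
    unfold det4; ring
  have f3 := gp_spec (mul_ne_zero g01 g34) (mul_ne_zero g03 g14) (mul_ne_zero g04 g13) e3
  rw [pos_mul g01 g34, pos_mul g03 g14, pos_mul g04 g13] at f3
  have e4 : det4 (P i2) (P i3) (P i4) (P i5) * det4 (P i0) (P i1) (P i2) (P i4) - det4 (P i1) (P i2) (P i4) (P i5) * det4 (P i0) (P i2) (P i3) (P i4) + det4 (P i1) (P i2) (P i3) (P i4) * det4 (P i0) (P i2) (P i4) (P i5) = 0 := by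
    unfold det4; ring
  have f4 := gp_spec (mul_ne_zero g01 g35) (mul_ne_zero g03 g15) (mul_ne_zero g05 g13) e4
  rw [pos_mul g01 g35, pos_mul g03 g15, pos_mul g05 g13] at f4
  have e5 : det4 (P i2) (P i3) (P i4) (P i5) * det4 (P i0) (P i1) (P i2) (P i3) - det4 (P i1) (P i2) (P i3) (P i5) * det4 (P i0) (P i2) (P i3) (P i4) + det4 (P i1) (P i2) (P i3) (P i4) * det4 (P i0) (P i2) (P i3) (P i5) = 0 := by
    unfold det4; ring
  have f5 := gp_spec (mul_ne_zero g01 g45) (mul_ne_zero g04 g15) (mul_ne_zero g05 g14) e5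
  rw [pos_mul g01 g45, pos_mul g04 g15, pos_mul g05 g14] at f5
  have e6 : det4 (P i1) (P i3) (P i4) (P i5) * det4 (P i0) (P i1) (P i2) (P i5) - det4 (P i1) (P i2) (P i4) (P i5) * det4 (P i0) (P i1) (P i3) (P i5) + det4 (P i1) (P i2) (P i3) (P i5) * det4 (P i0) (P i1) (P i4) (P i5) = 0 := by
    unfold det4; ring
  have f6 := gp_spec (mul_ne_zero g02 g34) (mul_ne_zero g03 g24) (mul_ne_zero g04 g23) e6
  rw [pos_mul g02 g34, pos_mul g03 g24, pos_mul g04 g23] at f6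
  have e7 : det4 (P i1) (P i3) (P i4) (P i5) * det4 (P i0) (P i1) (P i2) (P i4) - det4 (P i1) (P i2) (P i4) (P i5) * det4 (P i0) (P i1) (P i3) (P i4) + det4 (P i1) (P i2) (P i3) (P i4) * det4 (P i0) (P i1) (P i4) (P i5) = 0 := by
    unfold det4; ring
  have f7 := gp_spec (mul_ne_zero g02 g35) (mul_ne_zero g03 g25) (mul_ne_zero g05 g23) e7
  rw [pos_mul g02 g35, pos_mul g03 g25, pos_mul g05 g23] at f7
  have e8 : det4 (P i1) (P i3) (P i4) (P i5) * det4 (P i0) (P i1) (P i2) (P i3) - det4 (P i1) (P i2) (P i3) (P i5) * det4 (P i0) (P i1) (P i3) (P i4) + det4 (P i1) (P i2) (P i3) (P i4) * det4 (P i0) (P i1) (P i3) (P i5) = 0 := by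
    unfold det4; ring
  have f8 := gp_spec (mul_ne_zero g02 g45) (mul_ne_zero g04 g25) (mul_ne_zero g05 g24) e8
  rw [pos_mul g02 g45, pos_mul g04 g25, pos_mul g05 g24] at f8
  have e9 : det4 (P i1) (P i2) (P i4) (P i5) * det4 (P i0) (P i1) (P i2) (P i3) - det4 (P i1) (P i2) (P i3) (P i5) * det4 (P i0) (P i1) (P i2) (P i4) + det4 (P i1) (P i2) (P i3) (P i4) * det4 (P i0) (P i1) (P i2) (P i5) = 0 := by
    unfold det4; ring
  have f9 := gp_spec (mul_ne_zero g03 g45) (mul_ne_zero g04 g35) (mul_ne_zero g05 g34) e9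
  rw [pos_mul g03 g45, pos_mul g04 g35, pos_mul g05 g34] at f9
  have e10 : det4 (P i0) (P i3) (P i4) (P i5) * det4 (P i0) (P i1) (P i2) (P i5) - det4 (P i0) (P i2) (P i4) (P i5) * det4 (P i0) (P i1) (P i3) (P i5) + det4 (P i0) (P i2) (P i3) (P i5) * det4 (P i0) (P i1) (P i4) (P i5) = 0 := by
    unfold det4; ring
  have f10 := gp_spec (mul_ne_zero g12 g34) (mul_ne_zero g13 g24) (mul_ne_zero g14 g23) e10
  rw [pos_mul g12 g34, pos_mul g13 g24, pos_mul g14 g23] at f10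
  have e11 : det4 (P i0) (P i3) (P i4) (P i5) * det4 (P i0) (P i1) (P i2) (P i4) - det4 (P i0) (P i2) (P i4) (P i5) * det4 (P i0) (P i1) (P i3) (P i4) + det4 (P i0) (P i2) (P i3) (P i4) * det4 (P i0) (P i1) (P i4) (P i5) = 0 := by
    unfold det4; ring
  have f11 := gp_spec (mul_ne_zero g12 g35) (mul_ne_zero g13 g25) (mul_ne_zero g15 g23) e11
  rw [pos_mul g12 g35, pos_mul g13 g25, pos_mul g15 g23] at f11
  have e12 : det4 (P i0) (P i3) (P i4) (P i5) * det4 (P i0) (P i1) (P i2) (P i3) - det4 (P i0) (P i2) (P i3) (P i5) * det4 (P i0) (P i1) (P i3) (P i4) + det4 (P i0) (P i2) (P i3) (P i4) * det4 (P i0) (P i1) (P i3) (P i5) = 0 := by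
    unfold det4; ring
  have f12 := gp_spec (mul_ne_zero g12 g45) (mul_ne_zero g14 g25) (mul_ne_zero g15 g24) e12
  rw [pos_mul g12 g45, pos_mul g14 g25, pos_mul g15 g24] at f12
  have e13 : det4 (P i0) (P i2) (P i4) (P i5) * det4 (P i0) (P i1) (P i2) (P i3) - det4 (P i0) (P i2) (P i3) (P i5) * det4 (P i0) (P i1) (P i2) (P i4) + det4 (P i0) (P i2) (P i3) (P i4) * det4 (P i0) (P i1) (P i2) (P i5) = 0 := by
    unfold det4; ring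
  have f13 := gp_spec (mul_ne_zero g13 g45) (mul_ne_zero g14 g35) (mul_ne_zero g15 g34) e13
  rw [pos_mul g13 g45, pos_mul g14 g35, pos_mul g15 g34] at f13
  have e14 : det4 (P i0) (P i1) (P i4) (P i5) * det4 (P i0) (P i1) (P i2) (P i3) - det4 (P i0) (P i1) (P i3) (P i5) * det4 (P i0) (P i1) (P i2) (P i4) + det4 (P i0) (P i1) (P i3) (P i4) * det4 (P i0) (P i1) (P i2) (P i5) = 0 := by
    unfold det4; ring
  have f14 := gp_spec (mul_ne_zero g23 g45) (mul_ne_zero g24 g35) (mul_ne_zero g25 g34) e14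
  rw [pos_mul g23 g45, pos_mul g24 g35, pos_mul g25 g34] at f14
  rw [bool_l3 _ _ _ _ _ _ _ _ _ _ _ _ _ _ _ f0 f1 f2 f3 f6 f10 f4 f7 f11 f5 f8 f9 f12 f13 f14]
  rfl

end Pool.Agent.Helper683
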