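import Mathlib
import Pool.Agent.Helper683.Local

namespace Pool.Agent.Helper683

variable {ι : Type*}

theorem two0 : (2 : ZMod 2) = 0 := rfl
theorem dbl (x : ZMod 2) : x + x = 0 := by revert x; decide
theorem eq_of_add {x y : ZMod 2} (h : x + y = 0) : x = y := by revert x y; decide

theorem X32_swap12 {a b c r s : E3} : X32 a b c r s ↔ X32 b a c r s := by
  constructor
  · rintro ⟨α, β, γ, ρ, σ, h1, h2, h3, h4, h5, h6, h7, h8⟩
    exact ⟨β, α, γ, ρ, σ, h2, h1, h3, h4, h5, by linarith, h7, by rw [← h8]; module⟩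
  · rintro ⟨α, β, γ, ρ, σ, h1, h2, h3, h4, h5, h6, h7, h8⟩
    exact ⟨β, α, γ, ρ, σ, h2, h1, h3, h4, h5, by linarith, h7, by rw [← h8]; module⟩

theorem X32_swap23 {a b c r s : E3} : X32 a b c r s ↔ X32 a c b r s := by
  constructor
  · rintro ⟨α, β, γ, ρ, σ, h1, h2, h3, h4, h5, h6, h7, h8⟩
    exact ⟨α, γ, β, ρ, σ, h1, h3, h2, h4, h5, by linarith, h7, by rw [← h8]; module⟩
  · rintro ⟨α, β, γ, ρ, σ, h1, h2, h3, h4, h5, h6, h7, h8⟩
    exact ⟨α, γ, β, ρ, σ, h1, h3, h2, h4, h5, by linarith, h7, by rw [← h8]; module⟩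

theorem X32_swap45 {a b c r s : E3} : X32 a b c r s ↔ X32 a b c s r := by
  constructor
  · rintro ⟨α, β, γ, ρ, σ, h1, h2, h3, h4, h5, h6, h7, h8⟩
    exact ⟨α, β, γ, σ, ρ, h1, h2, h3, h5, h4, h6, by linarith, by rw [h8]; module⟩
  · rintro ⟨α, β, γ, ρ, σ, h1, h2, h3, h4, h5, h6, h7, h8⟩
    exact ⟨α, β, γ, σ, ρ, h1, h2, h3, h5, h4, h6, by linarith, by rw [h8]; module⟩

open Classical in
/-- crossing indicator of the triangle `a b c` and the segment `r s`; zero for degenerate data -/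
noncomputable def I (P : ι → E3) (a b c r s : ι) : ZMod 2 :=
  if [a, b, c, r, s].Nodup then iv (X32 (P a) (P b) (P c) (P r) (P s)) else 0

open Classical in
noncomputable def J (P : ι → E3) (a b c d r : ι) : ZMod 2 :=
  if [a, b, c, d, r].Nodup then iv (X41 (P a) (P b) (P c) (P d) (P r)) else 0

theorem I_swap12 (P : ι → E3) (a b c r s : ι) : I P a b c r s = I P b a c r s := by
  unfold I
  have : [a, b, c, r, s].Nodup ↔ [b, a, c, r, s].Nodup := by
    simp only [List.nodup_cons, List.mem_cons, not_or]; tauto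
  by_cases h : [a, b, c, r, s].Nodup
  · rw [if_pos h, if_pos (this.mp h)]; simp only [X32_swap12 (a := P a) (b := P b)]
  · rw [if_neg h, if_neg (fun h' => h (this.mpr h'))]

theorem I_swap23 (P : ι → E3) (a b c r s : ι) : I P a b c r s = I P a c b r s := by
  unfold I
  have : [a, b, c, r, s].Nodup ↔ [a, c, b, r, s].Nodup := by
    simp only [List.nodup_cons, List.mem_cons, not_or]; tauto
  by_cases h : [a, b, c, r, s].Nodup
  · rw [if_pos h, if_pos (this.mp h)]; simp only [X32_swap23 (b := P b) (c := P c)]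
  · rw [if_neg h, if_neg (fun h' => h (this.mpr h'))]

theorem I_swap45 (P : ι → E3) (a b c r s : ι) : I P a b c r s = I P a b c s r := by
  unfold I
  have : [a, b, c, r, s].Nodup ↔ [a, b, c, s, r].Nodup := by
    simp only [List.nodup_cons, List.mem_cons, not_or]; tauto
  by_cases h : [a, b, c, r, s].Nodup
  · rw [if_pos h, if_pos (this.mp h)]; simp only [X32_swap45 (r := P r) (s := P s)]
  · rw [if_neg h, if_neg (fun h' => h (this.mpr h'))]

theorem I_deg12 (P : ι → E3) (a c r s : ι) : I P a a c r s = 0 := by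
  unfold I; rw [if_neg]; simp
theorem I_deg23 (P : ι → E3) (a b r s : ι) : I P a b b r s = 0 := by
  unfold I; rw [if_neg]; simp
theorem I_deg13 (P : ι → E3) (a b r s : ι) : I P a b a r s = 0 := by
  unfold I; rw [if_neg]; simp
theorem I_deg45 (P : ι → E3) (a b c r : ι) : I P a b c r r = 0 := by
  unfold I; rw [if_neg]; simp

theorem local1 (P : ι → E3) (hP : Gen P) (O a b c r s : ι)
    (h1 : O ≠ r) (h2 : a ≠ r) (h3 : b ≠ r) (h4 : c ≠ r)
    (h5 : O ≠ s) (h6 : a ≠ s) (h7 : b ≠ s) (h8 : c ≠ s) :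
    I P a b c r s + I P O a b r s + I P O b c r s + I P O a c r s = J P O a b c r + J P O a b c s := by
  by_cases hrs : r = s
  · subst hrs; simp [I_deg45, dbl]
  by_cases hn : O ≠ a ∧ O ≠ b ∧ O ≠ c ∧ a ≠ b ∧ a ≠ c ∧ b ≠ c
  · obtain ⟨n1, n2, n3, n4, n5, n6⟩ := hn
    have h := six_l1 P hP O a b c r s n1 n2 n3 h1 h5 n4 n5 h2 h6 n6 h3 h7 h4 h8 hrs
    unfold I J
    rw [if_pos (by simp [*]), if_pos (by simp [*]), if_pos (by simp [*]), if_pos (by simp [*]),
      if_pos (by simp [*]), if_pos (by simp [*])]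
    linear_combination h - (iv (X41 (P O) (P a) (P b) (P c) (P r)) +
      iv (X41 (P O) (P a) (P b) (P c) (P s))) * two0
  · have hJ : ∀ t, J P O a b c t = 0 := by
      intro t; unfold J; rw [if_neg]
      intro hnd
      apply hn
      simp only [List.nodup_cons, List.mem_cons, not_or] at hnd
      tauto
    rw [hJ, hJ, add_zero]
    have : O = a ∨ O = b ∨ O = c ∨ a = b ∨ a = c ∨ b = c := by tauto
    rcases this with h | h | h | h | h | h
    · subst h; rw [I_deg12, I_deg12]; linear_combination (I P O b c r s) * two0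
    · subst h; rw [I_deg13, I_deg12, I_swap12 P a O c r s]; linear_combination (I P O a c r s) * two0
    · subst h; rw [I_deg13, I_deg13, I_swap23 P a b O r s, I_swap12 P a O b]
      linear_combination (I P O a b r s) * two0
    · subst h; rw [I_deg12, I_deg23]; linear_combination (I P O a c r s) * two0
    · subst h; rw [I_deg13, I_deg23, I_swap23 P O b a]; linear_combination (I P O a b r s) * two0
    · subst h; rw [I_deg23, I_deg23]; linear_combination (I P O a b r s) * two0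

theorem local2 (P : ι → E3) (hP : Gen P) (O p q O' r s : ι)
    (h1 : O ≠ O') (h2 : O ≠ r) (h3 : O ≠ s) (h4 : p ≠ O') (h5 : p ≠ r) (h6 : p ≠ s)
    (h7 : q ≠ O') (h8 : q ≠ r) (h9 : q ≠ s) :
    I P O p q r s + I P O p q O' r + I P O p q O' s =
      I P O' r s p q + I P O' r s O p + I P O' r s O q := by
  by_cases hn : O ≠ p ∧ O ≠ q ∧ p ≠ q ∧ O' ≠ r ∧ O' ≠ s ∧ r ≠ s
  · obtain ⟨n1, n2, n3, n4, n5, n6⟩ := hn
    have h := six_l2 P hP O p q O' r s n1 n2 h1 h2 h3 n3 h4 h5 h6 h7 h8 h9 n4 n5 n6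
    unfold I
    have n1' := n1.symm
    have n2' := n2.symm
    have n3' := n3.symm
    have n4' := n4.symm
    have n5' := n5.symm
    have n6' := n6.symm
    have h1' := h1.symm
    have h2' := h2.symm
    have h3' := h3.symm
    have h4' := h4.symm
    have h5' := h5.symm
    have h6' := h6.symm
    have h7' := h7.symm
    have h8' := h8.symm
    have h9' := h9.symm
    rw [if_pos (by simp [*]), if_pos (by simp [*]), if_pos (by simp [*]), if_pos (by simp [*]),
      if_pos (by simp [*]), if_pos (by simp [*])]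
    linear_combination h - (iv (X32 (P O') (P r) (P s) (P p) (P q)) +
      iv (X32 (P O') (P r) (P s) (P O) (P p)) + iv (X32 (P O') (P r) (P s) (P O) (P q))) * two0
  · have : O = p ∨ O = q ∨ p = q ∨ O' = r ∨ O' = s ∨ r = s := by tauto
    rcases this with h | h | h | h | h | h
    · subst h; simp only [I_deg12, I_deg45]; linear_combination - (I P O' r s O q) * two0
    · subst h; simp only [I_deg13, I_deg45]; rw [I_swap45 P O' r s p O]
      linear_combination - (I P O' r s O p) * two0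
    · subst h; simp only [I_deg23, I_deg45]
      linear_combination - (I P O' r s O p) * two0
    · subst h; simp only [I_deg12, I_deg45]; linear_combination (I P O p q O' s) * two0
    · subst h; simp only [I_deg13, I_deg45]; rw [I_swap45 P O p q r O']
      linear_combination (I P O p q O' r) * two0
    · subst h; simp only [I_deg23, I_deg45]
      linear_combination (I P O p q O' r) * two0

/-- boundary pairing of a mod 2 one-chain -/
def bd (c : Multiset (ι × ι)) (h : ι → ZMod 2) : ZMod 2 := (c.map fun e => h e.1 + h e.2).sum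

def IsCyc (c : Multiset (ι × ι)) : Prop := ∀ h : ι → ZMod 2, bd c h = 0
def IsPath (c : Multiset (ι × ι)) (a b : ι) : Prop := ∀ h : ι → ZMod 2, bd c h = h a + h b

/-- cone pairing with apex `O` -/
noncomputable def lk (P : ι → E3) (O : ι) (c d : Multiset (ι × ι)) : ZMod 2 :=
  (c.map fun e => (d.map fun f => I P O e.1 e.2 f.1 f.2).sum).sum

theorem lk_add_left (P : ι → E3) (O : ι) (c c' d : Multiset (ι × ι)) :
    lk P O (c + c') d = lk P O c d + lk P O c' d := by
  unfold lk; rw [Multiset.map_add, Multiset.sum_add]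

theorem lk_add_right (P : ι → E3) (O : ι) (c d d' : Multiset (ι × ι)) :
    lk P O c (d + d') = lk P O c d + lk P O c d' := by
  unfold lk
  rw [← Multiset.sum_map_add]
  congr 1; apply Multiset.map_congr rfl; intro e _
  rw [Multiset.map_add, Multiset.sum_add]

theorem bd_add (c d : Multiset (ι × ι)) (h : ι → ZMod 2) : bd (c + d) h = bd c h + bd d h := by
  unfold bd; rw [Multiset.map_add, Multiset.sum_add]

theorem msum_congr {α : Type*} {m : Multiset α} {f g : α → ZMod 2} (h : ∀ x ∈ m, f x = g x) :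
    (m.map f).sum = (m.map g).sum := by
  rw [Multiset.map_congr rfl h]

theorem msum_zero {α : Type*} {m : Multiset α} {f : α → ZMod 2} (h : ∀ x ∈ m, f x = 0) :
    (m.map f).sum = 0 := by
  rw [Multiset.map_congr rfl h]; simp

/-- changing the apex -/
theorem lk_apex (P : ι → E3) (hP : Gen P) (O O' : ι) (c d : Multiset (ι × ι))
    (hc : IsCyc c) (hd : IsCyc d)
    (hcd : ∀ e ∈ c, ∀ f ∈ d, e.1 ≠ f.1 ∧ e.1 ≠ f.2 ∧ e.2 ≠ f.1 ∧ e.2 ≠ f.2)
    (hO : ∀ f ∈ d, O ≠ f.1 ∧ O ≠ f.2) (hO' : ∀ f ∈ d, O' ≠ f.1 ∧ O' ≠ f.2) :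
    lk P O c d = lk P O' c d := by
  apply eq_of_add
  have key : ∀ e ∈ c, ∀ f ∈ d, I P O e.1 e.2 f.1 f.2 + I P O' e.1 e.2 f.1 f.2 =
      (I P O O' e.1 f.1 f.2 + I P O O' e.2 f.1 f.2) + (J P O O' e.1 e.2 f.1 + J P O O' e.1 e.2 f.2) := by
    intro e he f hf
    obtain ⟨a1, a2, a3, a4⟩ := hcd e he f hf
    have := local1 P hP O O' e.1 e.2 f.1 f.2 (hO f hf).1 (hO' f hf).1 a1 a3 (hO f hf).2 (hO' f hf).2 a2 a4
    linear_combination this - (I P O O' e.1 f.1 f.2 + I P O O' e.2 f.1 f.2) * two0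
  have h1 : lk P O c d + lk P O' c d =
      (c.map fun e => (d.map fun f => (I P O O' e.1 f.1 f.2 + I P O O' e.2 f.1 f.2)).sum).sum +
      (c.map fun e => (d.map fun f => (J P O O' e.1 e.2 f.1 + J P O O' e.1 e.2 f.2)).sum).sum := by
    unfold lk
    rw [← Multiset.sum_map_add, ← Multiset.sum_map_add]
    apply msum_congr
    intro e he
    rw [← Multiset.sum_map_add, ← Multiset.sum_map_add]
    apply msum_congr
    intro f hf
    exact key e he f hf
  rw [h1]
  have h2 : (c.map fun e => (d.map fun f => (J P O O' e.1 e.2 f.1 + J P O O' e.1 e.2 f.2)).sum).sum = 0 := by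
    apply msum_zero
    intro e _
    exact hd (fun x => J P O O' e.1 e.2 x)
  have h3 : (c.map fun e => (d.map fun f => (I P O O' e.1 f.1 f.2 + I P O O' e.2 f.1 f.2)).sum).sum = 0 := by
    rw [Multiset.sum_map_sum_map]
    apply msum_zero
    intro f _
    exact hc (fun x => I P O O' x f.1 f.2)
  rw [h2, h3, add_zero]

theorem lk_swap (P : ι → E3) (hP : Gen P) (O O' : ι) (c d : Multiset (ι × ι))
    (hc : IsCyc c) (hd : IsCyc d) (hOO : O ≠ O')
    (hcd : ∀ e ∈ c, ∀ f ∈ d, e.1 ≠ f.1 ∧ e.1 ≠ f.2 ∧ e.2 ≠ f.1 ∧ e.2 ≠ f.2)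
    (hO : ∀ f ∈ d, O ≠ f.1 ∧ O ≠ f.2) (hO' : ∀ e ∈ c, O' ≠ e.1 ∧ O' ≠ e.2) :
    lk P O c d = lk P O' d c := by
  apply eq_of_add
  have key : ∀ e ∈ c, ∀ f ∈ d, I P O e.1 e.2 f.1 f.2 + I P O' f.1 f.2 e.1 e.2 =
      (I P O e.1 e.2 O' f.1 + I P O e.1 e.2 O' f.2) +
      (I P O' f.1 f.2 O e.1 + I P O' f.1 f.2 O e.2) := by
    intro e he f hf
    obtain ⟨a1, a2, a3, a4⟩ := hcd e he f hf
    have := local2 P hP O e.1 e.2 O' f.1 f.2 hOO (hO f hf).1 (hO f hf).2 (hO' e he).1.symm a1 a2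
      (hO' e he).2.symm a3 a4
    linear_combination this + (I P O' f.1 f.2 e.1 e.2 -
      (I P O e.1 e.2 O' f.1 + I P O e.1 e.2 O' f.2)) * two0
  have h1 : lk P O c d + lk P O' d c =
      (c.map fun e => (d.map fun f => (I P O e.1 e.2 O' f.1 + I P O e.1 e.2 O' f.2)).sum).sum +
      (c.map fun e => (d.map fun f => (I P O' f.1 f.2 O e.1 + I P O' f.1 f.2 O e.2)).sum).sum := by
    unfold lk
    rw [Multiset.sum_map_sum_map d c]
    rw [← Multiset.sum_map_add, ← Multiset.sum_map_add]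
    apply msum_congr
    intro e he
    rw [← Multiset.sum_map_add, ← Multiset.sum_map_add]
    apply msum_congr
    intro f hf
    exact key e he f hf
  rw [h1]
  have h2 : (c.map fun e => (d.map fun f => (I P O e.1 e.2 O' f.1 + I P O e.1 e.2 O' f.2)).sum).sum = 0 := by
    apply msum_zero
    intro e _
    exact hd (fun x => I P O e.1 e.2 O' x)
  have h3 : (c.map fun e => (d.map fun f => (I P O' f.1 f.2 O e.1 + I P O' f.1 f.2 O e.2)).sum).sum = 0 := by
    rw [Multiset.sum_map_sum_map]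
    apply msum_zero
    intro f _
    exact hc (fun x => I P O' f.1 f.2 O x)
  rw [h2, h3, add_zero]

theorem lk_symm (P : ι → E3) (hP : Gen P) (O O' : ι) (c d : Multiset (ι × ι))
    (hc : IsCyc c) (hd : IsCyc d) (hOO : O ≠ O')
    (hcd : ∀ e ∈ c, ∀ f ∈ d, e.1 ≠ f.1 ∧ e.1 ≠ f.2 ∧ e.2 ≠ f.1 ∧ e.2 ≠ f.2)
    (hOd : ∀ f ∈ d, O ≠ f.1 ∧ O ≠ f.2) (hOc : ∀ e ∈ c, O ≠ e.1 ∧ O ≠ e.2)
    (hO'c : ∀ e ∈ c, O' ≠ e.1 ∧ O' ≠ e.2) :
    lk P O c d = lk P O d c := by
  rw [lk_swap P hP O O' c d hc hd hOO hcd hOd hO'c]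
  apply lk_apex P hP O' O d c hd hc _ hO'c hOc
  intro f hf e he
  obtain ⟨a1, a2, a3, a4⟩ := hcd e he f hf
  exact ⟨a1.symm, a3.symm, a2.symm, a4.symm⟩

/-- a closed polygon bounding a triangulated grid whose triangles avoid `d` has pairing zero -/
theorem disc (P : ι → E3) (hP : Gen P) (O : ι) (d : Multiset (ι × ι)) (hd : IsCyc d)
    (g : ℕ → ℕ → ι) (M N : ℕ) (b0 : ι)
    (hO : ∀ f ∈ d, O ≠ f.1 ∧ O ≠ f.2)
    (hg : ∀ i j, i ≤ M → j ≤ N → ∀ f ∈ d, g i j ≠ f.1 ∧ g i j ≠ f.2)
    (h1 : ∀ i j, i < M → j < N → ∀ f ∈ d,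
      ¬ X32 (P (g i j)) (P (g (i+1) j)) (P (g (i+1) (j+1))) (P f.1) (P f.2))
    (h2 : ∀ i j, i < M → j < N → ∀ f ∈ d,
      ¬ X32 (P (g i j)) (P (g i (j+1))) (P (g (i+1) (j+1))) (P f.1) (P f.2))
    (hl : ∀ j, j ≤ N → g 0 j = b0) (hr : ∀ j, j ≤ N → g M j = b0) (ht : ∀ i, i ≤ M → g i N = b0) :
    lk P O ((Multiset.range M).map fun i => (g i 0, g (i+1) 0)) d = 0 := by
  set F : ι → ι → ZMod 2 := fun a b => (d.map fun f => I P O a b f.1 f.2).sum with hF
  have Fdeg : ∀ a, F a a = 0 := by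
    intro a; simp only [hF]; apply msum_zero; intro f _; exact I_deg23 _ _ _ _ _
  have tri : ∀ a b c, (∀ f ∈ d, a ≠ f.1 ∧ a ≠ f.2) → (∀ f ∈ d, b ≠ f.1 ∧ b ≠ f.2) →
      (∀ f ∈ d, c ≠ f.1 ∧ c ≠ f.2) → (∀ f ∈ d, ¬ X32 (P a) (P b) (P c) (P f.1) (P f.2)) →
      F a b + F b c + F a c = 0 := by
    intro a b c ha hb hc hX
    have : F a b + F b c + F a c = (d.map fun f => J P O a b c f.1 + J P O a b c f.2).sum := by
      simp only [hF]
      rw [← Multiset.sum_map_add, ← Multiset.sum_map_add]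
      apply msum_congr
      intro f hf
      have h := local1 P hP O a b c f.1 f.2 (hO f hf).1 (ha f hf).1 (hb f hf).1 (hc f hf).1
        (hO f hf).2 (ha f hf).2 (hb f hf).2 (hc f hf).2
      have h0 : I P a b c f.1 f.2 = 0 := by
        unfold I; split_ifs
        · unfold iv; rw [if_neg (hX f hf)]
        · rfl
      rw [h0, zero_add] at h
      exact h
    rw [this]
    exact hd (fun x => J P O a b c x)
  have row : ∀ j, j < N → (∑ i ∈ Finset.range M, F (g i j) (g (i+1) j)) =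
      ∑ i ∈ Finset.range M, F (g i (j+1)) (g (i+1) (j+1)) := by
    intro j hj
    have tele : ∀ m, m ≤ M → (∑ i ∈ Finset.range m, F (g i j) (g (i+1) j)) +
      (∑ i ∈ Finset.range m, F (g i (j+1)) (g (i+1) (j+1))) +
        F (g 0 j) (g 0 (j+1)) + F (g m j) (g m (j+1)) = 0 := by
      intro m
      induction m with
      | zero => intro _; simp [dbl]
      | succ m ih =>
        intro hm
        have hm' : m < M := hm
        have i1 := ih (by omega)
        have t1 := tri _ _ _ (hg m j (by omega) (by omega)) (hg (m+1) j (by omega) (by omega))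
          (hg (m+1) (j+1) (by omega) (by omega)) (h1 m j hm' hj)
        have t2 := tri _ _ _ (hg m j (by omega) (by omega)) (hg m (j+1) (by omega) (by omega))
          (hg (m+1) (j+1) (by omega) (by omega)) (h2 m j hm' hj)
        rw [Finset.sum_range_succ, Finset.sum_range_succ]
        linear_combination i1 + t1 + t2 - (F (g m j) (g (m+1) (j+1)) + F (g m j) (g m (j+1))) * two0
    have := tele M le_rfl
    rw [hl j (by omega), hl (j+1) (by omega), hr j (by omega), hr (j+1) (by omega), Fdeg, add_zero,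
      add_zero] at this
    exact eq_of_add this
  have all : ∀ j, j ≤ N → (∑ i ∈ Finset.range M, F (g i 0) (g (i+1) 0)) =
      ∑ i ∈ Finset.range M, F (g i j) (g (i+1) j) := by
    intro j
    induction j with
    | zero => intro _; rfl
    | succ j ih => intro hj; rw [ih (by omega), row j (by omega)]
  have hz : (∑ i ∈ Finset.range M, F (g i 0) (g (i+1) 0)) = 0 := by
    rw [all N le_rfl]
    apply Finset.sum_eq_zero
    intro i hi
    rw [Finset.mem_range] at hi
    rw [ht i (by omega), ht (i+1) (by omega)]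
    exact Fdeg _
  unfold lk
  rw [Multiset.map_map]
  exact hz

end Pool.Agent.Helper683
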