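import Mathlib
import Pool.Agent.Helper683.Algebra

namespace Pool.Agent.Helper683

open Set Topology Manifold

abbrev Pl := ℝ × ℝ

theorem smooth_approx (G : Pl → E3) (hG : Continuous G) (ε : ℝ) (hε : 0 < ε) :
    ∃ h : Pl → E3, ContDiff ℝ 1 h ∧ ∀ z, ‖h z - G z‖ < ε := by
  obtain ⟨g, hg⟩ := exists_contMDiffMap_forall_mem_convex_of_local_const (n := 1) (𝓘(ℝ, Pl))
    (M := Pl) (F := E3) (t := fun z => Metric.ball (G z) ε)
    (fun z => convex_ball _ _) (fun x => by
      refine ⟨G x, ?_⟩
      have : ∀ᶠ y in 𝓝 x, dist (G y) (G x) < ε := by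
        have := hG.continuousAt (x := x)
        exact Metric.tendsto_nhds.mp this ε hε
      filter_upwards [this] with y hy
      rw [Metric.mem_ball, dist_comm]; exact hy)
  refine ⟨g, contMDiff_iff_contDiff.mp g.contMDiff, ?_⟩
  intro z
  have := hg z
  rwa [Metric.mem_ball, dist_eq_norm] at this

/-- continuous maps from closed subsets of the plane to the unit sphere extend -/
theorem extend_sphere (X : Set Pl) (hX : IsClosed X) (g : Pl → E3) (hg : ContinuousOn g X)
    (h1 : ∀ z ∈ X, ‖g z‖ = 1) :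
    ∃ G : Pl → E3, Continuous G ∧ (∀ z, ‖G z‖ = 1) ∧ ∀ z ∈ X, G z = g z := by
  obtain ⟨G0, hG0⟩ := ContinuousMap.exists_restrict_eq (Y := E3) hX
    ⟨X.domRestrict g, continuousOn_iff_continuous_domRestrict.mp hg⟩
  have hG0' : ∀ z ∈ X, G0 z = g z := by
    intro z hz
    exact congrArg (fun F : C(X, E3) => F ⟨z, hz⟩) hG0
  obtain ⟨h, hsm, happ⟩ := smooth_approx G0 G0.continuous (1/4) (by norm_num)
  have hdense := hsm.dense_compl_range_of_finrank_lt_finrank (by simp [Pl])
  obtain ⟨p, hp1, hp2⟩ := Metric.dense_iff.mp hdense 0 (1/8) (by norm_num)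
  rw [Metric.mem_ball, dist_zero_right] at hp1
  let χ : ℝ → ℝ := fun t => max 0 (min 1 (2 - 2 * t))
  have hχc : Continuous χ := by fun_prop
  let G1 : Pl → E3 := fun z => G0 z + χ ‖G0 z‖ • (h z - p - G0 z)
  have hG1c : Continuous G1 := by
    have := hsm.continuous
    have := G0.continuous
    fun_prop
  have hne : ∀ z, G1 z ≠ 0 := by
    intro z h0
    by_cases hz : ‖G0 z‖ ≤ 1 / 2
    · have hχ1 : χ ‖G0 z‖ = 1 := by
        simp only [χ]
        rw [min_eq_left (by linarith), max_eq_right (by norm_num)]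
      simp only [G1, hχ1, one_smul] at h0
      apply hp2
      refine ⟨z, ?_⟩
      have : h z - p = 0 := by rw [← h0]; abel
      exact sub_eq_zero.mp this
    · push Not at hz
      have hχ0 : 0 ≤ χ ‖G0 z‖ := le_max_left _ _
      have hχ1 : χ ‖G0 z‖ ≤ 1 := by
        simp only [χ]
        exact max_le (by norm_num) (min_le_left _ _)
      have e : G0 z = - (χ ‖G0 z‖ • (h z - p - G0 z)) := by
        simp only [G1] at h0
        exact eq_neg_of_add_eq_zero_left h0
      have e2 : ‖G0 z‖ ≤ 1/4 + 1/8 := by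
        rw [e, norm_neg, norm_smul, Real.norm_eq_abs, abs_of_nonneg hχ0]
        have e3 : ‖h z - p - G0 z‖ ≤ 1/4 + 1/8 := by
          have : h z - p - G0 z = (h z - G0 z) - p := by abel
          rw [this]
          refine (norm_sub_le _ _).trans ?_
          have := happ z
          linarith
        calc χ ‖G0 z‖ * ‖h z - p - G0 z‖ ≤ 1 * ‖h z - p - G0 z‖ :=
              mul_le_mul_of_nonneg_right hχ1 (norm_nonneg _)
          _ ≤ 1/4 + 1/8 := by rw [one_mul]; exact e3
      linarith
  refine ⟨fun z => ‖G1 z‖⁻¹ • G1 z, ?_, ?_, ?_⟩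
  · exact (hG1c.norm.inv₀ (fun z => norm_ne_zero_iff.mpr (hne z))).smul hG1c
  · intro z
    rw [norm_smul, norm_inv, norm_norm]
    exact inv_mul_cancel₀ (norm_ne_zero_iff.mpr (hne z))
  · intro z hz
    have e0 : ‖G0 z‖ = 1 := by rw [hG0' z hz]; exact h1 z hz
    have hχ : χ ‖G0 z‖ = 0 := by simp only [χ, e0]; norm_num
    have e1 : G1 z = g z := by simp only [G1, hχ, zero_smul, add_zero]; exact hG0' z hz
    show ‖G1 z‖⁻¹ • G1 z = g z
    rw [e1, h1 z hz, inv_one, one_smul]

/-- pushing a map off the outside of an open set whose frontier lies on an embedded sphere -/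
theorem fill (f : C(Metric.sphere (0 : E3) 1, E3)) (hf : Function.Injective f)
    (U : Set E3) (hU : IsOpen U) (hfr : frontier U ⊆ range f) (D : Pl → E3) (hD : Continuous D) :
    ∃ D' : Pl → E3, Continuous D' ∧ (∀ z, D z ∈ U → D' z = D z) ∧ ∀ z, D' z ∈ U ∪ range f := by
  classical
  have hemb : IsClosedEmbedding f := f.continuous.isClosedEmbedding hf
  have hX : IsClosed (D ⁻¹' frontier U) := isClosed_frontier.preimage hD
  -- inverse on the sphere
  have hinv : ∀ z ∈ D ⁻¹' frontier U, ∃ w : Metric.sphere (0 : E3) 1, f w = D z := fun z hz => hfr hz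
  let g : Pl → E3 := fun z => if hz : z ∈ D ⁻¹' frontier U then (hinv z hz).choose.1 else 0
  have hg : ∀ z (hz : z ∈ D ⁻¹' frontier U), g z = (hinv z hz).choose.1 := by
    intro z hz; simp only [g]; rw [dif_pos hz]
  have hgc : ContinuousOn g (D ⁻¹' frontier U) := by
    rw [continuousOn_iff_continuous_domRestrict]
    have e : (D ⁻¹' frontier U).domRestrict g =
        Subtype.val ∘ (fun z : (D ⁻¹' frontier U) => (hinv z.1 z.2).choose) := by
      funext z; exact hg z.1 z.2
    rw [e]
    apply continuous_subtype_val.comp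
    rw [hemb.isInducing.continuous_iff]
    have e2 : (f ∘ fun z : (D ⁻¹' frontier U) => (hinv z.1 z.2).choose) = fun z => D z.1 := by
      funext z; exact (hinv z.1 z.2).choose_spec
    rw [e2]
    exact hD.comp continuous_subtype_val
  have hg1 : ∀ z ∈ D ⁻¹' frontier U, ‖g z‖ = 1 := by
    intro z hz
    rw [hg z hz]
    have := (hinv z hz).choose.2
    rwa [mem_sphere_zero_iff_norm] at this
  obtain ⟨G, hGc, hG1, hGe⟩ := extend_sphere _ hX g hgc hg1
  let Gs : Pl → Metric.sphere (0 : E3) 1 := fun z => ⟨G z, by rw [mem_sphere_zero_iff_norm]; exact hG1 z⟩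
  have hGs : Continuous Gs := Continuous.subtype_mk hGc _
  refine ⟨(D ⁻¹' U).piecewise D (fun z => f (Gs z)), ?_, ?_, ?_⟩
  · apply Continuous.piecewise _ hD (f.continuous.comp hGs)
    intro z hz
    have hz' : z ∈ D ⁻¹' frontier U := hD.frontier_preimage_subset U hz
    have e : Gs z = (hinv z hz').choose := by
      apply Subtype.ext
      simp only [Gs]
      rw [hGe z hz', hg z hz']
    show D z = f (Gs z)
    rw [e]
    exact (hinv z hz').choose_spec.symm
  · intro z hz
    rw [Set.piecewise_eq_of_mem _ _ _ (show z ∈ D ⁻¹' U from hz)]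
  · intro z
    by_cases hz : z ∈ D ⁻¹' U
    · rw [Set.piecewise_eq_of_mem _ _ _ hz]; left; exact hz
    · rw [Set.piecewise_eq_of_notMem _ _ _ hz]; right; exact ⟨_, rfl⟩

/-- the sets `X` and `Y` are separated by an embedded sphere: the sphere misses both and
some points of `X` and `Y` lie in different components of its complement -/
def Sep (X Y : Set E3) : Prop :=
  ∃ f : C(Metric.sphere (0 : E3) 1, E3), Function.Injective f ∧ Disjoint (range f) X ∧
    Disjoint (range f) Y ∧ ∃ x ∈ X, ∃ y ∈ Y, y ∉ connectedComponentIn (range f)ᶜ x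

/-- consequence of separation used below: any map of the plane can be modified outside `X` so that
it misses `Y` -/
theorem Sep.push {X Y : Set E3} (h : Sep X Y) (hX : IsPreconnected X) (hY : IsPreconnected Y)
    (D : Pl → E3) (hD : Continuous D) :
    ∃ D' : Pl → E3, Continuous D' ∧ (∀ z, D z ∈ X → D' z = D z) ∧ ∀ z, D' z ∉ Y := by
  obtain ⟨f, hf, hfX, hfY, x, hx, y, hy, hxy⟩ := h
  have hS : IsClosed (range f) := (f.continuous.isClosedEmbedding hf).isClosed_range
  set U := connectedComponentIn (range f)ᶜ x with hUdef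
  have hU : IsOpen U := hS.isOpen_compl.connectedComponentIn
  have hXc : X ⊆ (range f)ᶜ := fun z hz hz' => Set.disjoint_left.mp hfX hz' hz
  have hYc : Y ⊆ (range f)ᶜ := fun z hz hz' => Set.disjoint_left.mp hfY hz' hz
  have hXU : X ⊆ U := hX.subset_connectedComponentIn hx hXc
  have hYU : ∀ z ∈ Y, z ∉ U := by
    intro z hz hzU
    apply hxy
    have e : connectedComponentIn (range f)ᶜ x = connectedComponentIn (range f)ᶜ z :=
      connectedComponentIn_eq hzU
    rw [hUdef, e]
    exact hY.subset_connectedComponentIn hz hYc hy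
  have hfr : frontier U ⊆ range f := by
    intro z hz
    by_contra hzS
    have hV : IsOpen (connectedComponentIn (range f)ᶜ z) := hS.isOpen_compl.connectedComponentIn
    have hzV : z ∈ connectedComponentIn (range f)ᶜ z := mem_connectedComponentIn hzS
    have hzcl : z ∈ closure U := hz.1
    obtain ⟨w, hw1, hw2⟩ := mem_closure_iff.mp hzcl _ hV hzV
    have e1 := connectedComponentIn_eq hw1
    have e2 := connectedComponentIn_eq hw2
    have hzU : z ∈ U := by rw [hUdef, e2, ← e1]; exact hzV
    exact hz.2 (by rw [hU.interior_eq]; exact hzU)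
  obtain ⟨D', hD', hD1, hD2⟩ := fill f hf U hU hfr D hD
  refine ⟨D', hD', fun z hz => hD1 z (hXU hz), ?_⟩
  intro z hz
  rcases hD2 z with h' | h'
  · exact hYU _ hz h'
  · exact hYc hz h'

end Pool.Agent.Helper683
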