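import Mathlib
import Pool.Agent.Helper683.Chains

namespace Pool.Agent.Helper683

/-- moment curve -/
noncomputable def mom (t : ℝ) : E3 := !₂[t, t^2, t^3]

theorem mom0 (t : ℝ) : mom t 0 = t := by simp [mom]
theorem mom1 (t : ℝ) : mom t 1 = t^2 := by simp [mom]
theorem mom2 (t : ℝ) : mom t 2 = t^3 := by simp [mom]

theorem vander (a b c d : ℝ) : det4 (mom a) (mom b) (mom c) (mom d) =
    (b - a) * (c - a) * (d - a) * (c - b) * (d - b) * (d - c) := by
  unfold det4; simp only [mom0, mom1, mom2]; ring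

theorem cubic (A B C D a b c d : E3) (δ : ℝ) :
    det4 (A + δ • a) (B + δ • b) (C + δ • c) (D + δ • d) =
      det4 A B C D +
      ((det4 (A + a) (B + b) (C + c) (D + d) - det4 (A - a) (B - b) (C - c) (D - d)) / 2
        - det4 a b c d) * δ +
      ((det4 (A + a) (B + b) (C + c) (D + d) + det4 (A - a) (B - b) (C - c) (D - d)) / 2
        - det4 A B C D) * δ ^ 2 + det4 a b c d * δ ^ 3 := by
  unfold det4
  simp only [PiLp.add_apply, PiLp.sub_apply, PiLp.smul_apply, smul_eq_mul]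
  ring

theorem roots_finite (A B C D a b c d : E3) (h : det4 a b c d ≠ 0) :
    {δ : ℝ | det4 (A + δ • a) (B + δ • b) (C + δ • c) (D + δ • d) = 0}.Finite := by
  open Polynomial in
  set c1 := ((det4 (A + a) (B + b) (C + c) (D + d) - det4 (A - a) (B - b) (C - c) (D - d)) / 2
        - det4 a b c d)
  set c2 := ((det4 (A + a) (B + b) (C + c) (D + d) + det4 (A - a) (B - b) (C - c) (D - d)) / 2
        - det4 A B C D)
  let p : Polynomial ℝ := Polynomial.C (det4 A B C D) + Polynomial.C c1 * Polynomial.X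
    + Polynomial.C c2 * Polynomial.X ^ 2 + Polynomial.C (det4 a b c d) * Polynomial.X ^ 3
  have hp : p ≠ 0 := by
    intro h0
    have : p.coeff 3 = 0 := by rw [h0]; simp
    apply h
    simpa [p, Polynomial.coeff_C, Polynomial.coeff_X, Polynomial.coeff_X_pow] using this
  refine (Polynomial.finite_setOf_isRoot hp).subset ?_
  intro δ hδ
  simp only [Set.mem_setOf_eq] at hδ ⊢
  rw [cubic] at hδ
  simp only [Polynomial.IsRoot, p, Polynomial.eval_add, Polynomial.eval_mul, Polynomial.eval_C,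
    Polynomial.eval_X, Polynomial.eval_pow]
  exact hδ

theorem exists_gen {ι : Type*} [Countable ι] (P0 : ι → E3) (ε : ℝ) (hε : 0 < ε) :
    ∃ P : ι → E3, Gen P ∧ ∀ i, ‖P i - P0 i‖ < ε := by
  obtain ⟨n, hn⟩ := exists_injective_nat ι
  let t : ι → ℝ := fun i => 1 / ((n i : ℝ) + 1)
  have ht : Function.Injective t := by
    intro i j hij
    apply hn
    simp only [t] at hij
    have h1 : ((n i : ℝ) + 1) ≠ 0 := by positivity
    have h2 : ((n j : ℝ) + 1) ≠ 0 := by positivity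
    field_simp at hij
    have : (n i : ℝ) = n j := by linarith
    exact_mod_cast this
  have ht0 : ∀ i, 0 < t i ∧ t i ≤ 1 := by
    intro i
    refine ⟨by positivity, ?_⟩
    simp only [t]
    rw [div_le_one (by positivity)]
    have : (0 : ℝ) ≤ n i := Nat.cast_nonneg _
    linarith
  have hnorm : ∀ i, ‖mom (t i)‖ ≤ 2 := by
    intro i
    obtain ⟨h1, h2⟩ := ht0 i
    rw [EuclideanSpace.norm_eq]
    rw [Real.sqrt_le_left (by norm_num)]
    rw [Fin.sum_univ_three, mom0, mom1, mom2]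
    simp only [Real.norm_eq_abs, sq_abs]
    have e1 : (t i)^2 ≤ 1 := pow_le_one₀ h1.le h2
    have e2 : ((t i)^2)^2 ≤ 1 := pow_le_one₀ (by positivity) e1
    have e3 : ((t i)^3)^2 ≤ 1 := pow_le_one₀ (by positivity) (pow_le_one₀ h1.le h2)
    linarith
  let bad : Set ℝ := ⋃ q : {q : ι × ι × ι × ι // q.1 ≠ q.2.1 ∧ q.1 ≠ q.2.2.1 ∧ q.1 ≠ q.2.2.2 ∧
    q.2.1 ≠ q.2.2.1 ∧ q.2.1 ≠ q.2.2.2 ∧ q.2.2.1 ≠ q.2.2.2},
    {δ : ℝ | det4 (P0 q.1.1 + δ • mom (t q.1.1)) (P0 q.1.2.1 + δ • mom (t q.1.2.1))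
      (P0 q.1.2.2.1 + δ • mom (t q.1.2.2.1)) (P0 q.1.2.2.2 + δ • mom (t q.1.2.2.2)) = 0}
  have hbad : bad.Countable := by
    apply Set.countable_iUnion
    rintro ⟨⟨i, j, k, l⟩, h1, h2, h3, h4, h5, h6⟩
    apply Set.Finite.countable
    apply roots_finite
    rw [vander]
    simp only at h1 h2 h3 h4 h5 h6
    have := ht.ne h1; have := ht.ne h2; have := ht.ne h3
    have := ht.ne h4; have := ht.ne h5; have := ht.ne h6
    refine mul_ne_zero (mul_ne_zero (mul_ne_zero (mul_ne_zero (mul_ne_zero ?_ ?_) ?_) ?_) ?_) ?_ <;>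
      (rw [sub_ne_zero]; apply Ne.symm; assumption)
  obtain ⟨δ, hδ, h1, h2⟩ := (hbad.dense_compl ℝ).exists_between (show (0:ℝ) < ε / 2 by linarith)
  refine ⟨fun i => P0 i + δ • mom (t i), ?_, ?_⟩
  · intro i j k l n1 n2 n3 n4 n5 n6 h0
    apply hδ
    simp only [bad, Set.mem_iUnion, Set.mem_setOf_eq]
    exact ⟨⟨(i, j, k, l), n1, n2, n3, n4, n5, n6⟩, h0⟩
  · intro i
    rw [add_sub_cancel_left, norm_smul, Real.norm_eq_abs, abs_of_pos h1]
    calc δ * ‖mom (t i)‖ ≤ δ * 2 := by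
          apply mul_le_mul_of_nonneg_left (hnorm i) h1.le
      _ < ε := by linarith

/-- a small triangle and a small segment far apart do not meet -/
theorem not_X32 {a b c r s z z' : E3} {ρ : ℝ} (ha : ‖a - z‖ < ρ) (hb : ‖b - z‖ < ρ) (hc : ‖c - z‖ < ρ)
    (hr : ‖r - z'‖ < ρ) (hs : ‖s - z'‖ < ρ) (h : 2 * ρ ≤ ‖z - z'‖) : ¬ X32 a b c r s := by
  rintro ⟨α, β, γ, σ, τ, h1, h2, h3, h4, h5, h6, h7, h8⟩
  have e1 : α • a + β • b + γ • c - z = α • (a - z) + β • (b - z) + γ • (c - z) := by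
    have : z = (α + β + γ) • z := by rw [h6, one_smul]
    nth_rewrite 1 [this]; module
  have e2 : σ • r + τ • s - z' = σ • (r - z') + τ • (s - z') := by
    have : z' = (σ + τ) • z' := by rw [h7, one_smul]
    nth_rewrite 1 [this]; module
  have m1 : ‖α • a + β • b + γ • c - z‖ ≤ α * ‖a - z‖ + β * ‖b - z‖ + γ * ‖c - z‖ := by
    rw [e1]
    refine (norm_add_le _ _).trans ?_
    refine (add_le_add_left (norm_add_le _ _) _).trans ?_
    rw [norm_smul, norm_smul, norm_smul, Real.norm_eq_abs, Real.norm_eq_abs, Real.norm_eq_abs,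
      abs_of_nonneg h1, abs_of_nonneg h2, abs_of_nonneg h3]
  have m2 : ‖σ • r + τ • s - z'‖ ≤ σ * ‖r - z'‖ + τ * ‖s - z'‖ := by
    rw [e2]
    refine (norm_add_le _ _).trans ?_
    rw [norm_smul, norm_smul, Real.norm_eq_abs, Real.norm_eq_abs, abs_of_nonneg h4, abs_of_nonneg h5]
  have m1' : ‖α • a + β • b + γ • c - z‖ < ρ := by
    refine m1.trans_lt ?_
    have k1 : α * ‖a - z‖ ≤ α * ρ := mul_le_mul_of_nonneg_left ha.le h1
    have k2 : β * ‖b - z‖ ≤ β * ρ := mul_le_mul_of_nonneg_left hb.le h2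
    have k3 : γ * ‖c - z‖ ≤ γ * ρ := mul_le_mul_of_nonneg_left hc.le h3
    have k4 : α * ρ + β * ρ + γ * ρ = ρ := by rw [← add_mul, ← add_mul, h6, one_mul]
    by_cases p1 : 0 < α
    · have := mul_lt_mul_of_pos_left ha p1; linarith
    by_cases p2 : 0 < β
    · have := mul_lt_mul_of_pos_left hb p2; linarith
    have p3 : 0 < γ := by
      have : α = 0 := le_antisymm (not_lt.mp p1) h1
      have : β = 0 := le_antisymm (not_lt.mp p2) h2
      linarith
    have := mul_lt_mul_of_pos_left hc p3; linarith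
  have m2' : ‖σ • r + τ • s - z'‖ < ρ := by
    refine m2.trans_lt ?_
    have k1 : σ * ‖r - z'‖ ≤ σ * ρ := mul_le_mul_of_nonneg_left hr.le h4
    have k2 : τ * ‖s - z'‖ ≤ τ * ρ := mul_le_mul_of_nonneg_left hs.le h5
    have k4 : σ * ρ + τ * ρ = ρ := by rw [← add_mul, h7, one_mul]
    by_cases p1 : 0 < σ
    · have := mul_lt_mul_of_pos_left hr p1; linarith
    have p3 : 0 < τ := by
      have : σ = 0 := le_antisymm (not_lt.mp p1) h4
      linarith
    have := mul_lt_mul_of_pos_left hs p3; linarith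
  have : ‖z - z'‖ ≤ ‖α • a + β • b + γ • c - z‖ + ‖σ • r + τ • s - z'‖ := by
    have e : z - z' = (σ • r + τ • s - z') - (α • a + β • b + γ • c - z) := by rw [h8]; abel
    rw [e]
    refine (norm_sub_le _ _).trans ?_
    rw [add_comm]
  linarith

end Pool.Agent.Helper683
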