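import Mathlib
import Pool.Agent.Helper683.Chains

namespace Pool.Agent.Helper683

theorem k6_alg (CC CS SC SS : Fin 6 → Fin 6 → Fin 6 → Fin 6 → ZMod 2)
    (E1 : ∀ a b x y : Fin 6, a < b → x < y → a ≠ x → a ≠ y → b ≠ x → b ≠ y →
      CC a b x y + CS a b x y + SC a b x y + SS a b x y =
      CC x y a b + CS x y a b + SC x y a b + SS x y a b)
    (E2 : ∀ a b x y z : Fin 6, a < b → x < y → y < z → a ≠ x → a ≠ y → a ≠ z → b ≠ x → b ≠ y → b ≠ z →
      (CS a b x y + SS a b x y) + (CS a b y z + SS a b y z) + (CS a b x z + SS a b x z) =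
      (SC x y a b + SS x y a b) + (SC y z a b + SS y z a b) + (SC x z a b + SS x z a b))
    (HT : ∀ a b x y z : Fin 6, 0 < a → a < b → 0 < x → x < y → y < z → a ≠ x → a ≠ y → a ≠ z →
      b ≠ x → b ≠ y → b ≠ z →
      (CC 0 a x y + CC 0 a y z + CC 0 a x z) + (CC a b x y + CC a b y z + CC a b x z) +
      (CC 0 b x y + CC 0 b y z + CC 0 b x z) = 0)
    (L3 : SS 4 5 2 3 + SS 3 5 2 4 + SS 3 4 2 5 + SS 2 5 3 4 + SS 2 4 3 5 + SS 2 3 4 5 + SS 4 5 1 3 + SS 3 5 1 4 + SS 3 4 1 5 + SS 1 5 3 4 + SS 1 4 3 5 + SS 1 3 4 5 + SS 4 5 1 2 + SS 2 5 1 4 + SS 2 4 1 5 + SS 1 5 2 4 + SS 1 4 2 5 + SS 1 2 4 5 + SS 3 5 1 2 + SS 2 5 1 3 + SS 2 3 1 5 + SS 1 5 2 3 + SS 1 3 2 5 + SS 1 2 3 5 + SS 3 4 1 2 + SS 2 4 1 3 + SS 2 3 1 4 + SS 1 4 2 3 + SS 1 3 2 4 + SS 1 2 3 4 = 1) : False := by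
  have A0 := E1 1 2 3 4 (by decide) (by decide) (by decide) (by decide) (by decide) (by decide)
  have A1 := E1 1 2 3 5 (by decide) (by decide) (by decide) (by decide) (by decide) (by decide)
  have A2 := E1 1 2 4 5 (by decide) (by decide) (by decide) (by decide) (by decide) (by decide)
  have A3 := E1 1 3 2 4 (by decide) (by decide) (by decide) (by decide) (by decide) (by decide)
  have A4 := E1 1 3 2 5 (by decide) (by decide) (by decide) (by decide) (by decide) (by decide)
  have A5 := E1 1 3 4 5 (by decide) (by decide) (by decide) (by decide) (by decide) (by decide)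
  have A6 := E1 1 4 2 3 (by decide) (by decide) (by decide) (by decide) (by decide) (by decide)
  have A7 := E1 1 4 2 5 (by decide) (by decide) (by decide) (by decide) (by decide) (by decide)
  have A8 := E1 1 4 3 5 (by decide) (by decide) (by decide) (by decide) (by decide) (by decide)
  have A9 := E1 1 5 2 3 (by decide) (by decide) (by decide) (by decide) (by decide) (by decide)
  have A10 := E1 1 5 2 4 (by decide) (by decide) (by decide) (by decide) (by decide) (by decide)
  have A11 := E1 1 5 3 4 (by decide) (by decide) (by decide) (by decide) (by decide) (by decide)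
  have A12 := E1 2 3 4 5 (by decide) (by decide) (by decide) (by decide) (by decide) (by decide)
  have A13 := E1 2 4 3 5 (by decide) (by decide) (by decide) (by decide) (by decide) (by decide)
  have A14 := E1 2 5 3 4 (by decide) (by decide) (by decide) (by decide) (by decide) (by decide)
  have B0 := E2 1 2 3 4 5 (by decide) (by decide) (by decide) (by decide) (by decide) (by decide) (by decide) (by decide) (by decide)
  have C0 := HT 1 2 3 4 5 (by decide) (by decide) (by decide) (by decide) (by decide) (by decide) (by decide) (by decide) (by decide) (by decide) (by decide)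
  have B1 := E2 1 3 2 4 5 (by decide) (by decide) (by decide) (by decide) (by decide) (by decide) (by decide) (by decide) (by decide)
  have C1 := HT 1 3 2 4 5 (by decide) (by decide) (by decide) (by decide) (by decide) (by decide) (by decide) (by decide) (by decide) (by decide) (by decide)
  have B2 := E2 1 4 2 3 5 (by decide) (by decide) (by decide) (by decide) (by decide) (by decide) (by decide) (by decide) (by decide)
  have C2 := HT 1 4 2 3 5 (by decide) (by decide) (by decide) (by decide) (by decide) (by decide) (by decide) (by decide) (by decide) (by decide) (by decide)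
  have B3 := E2 1 5 2 3 4 (by decide) (by decide) (by decide) (by decide) (by decide) (by decide) (by decide) (by decide) (by decide)
  have C3 := HT 1 5 2 3 4 (by decide) (by decide) (by decide) (by decide) (by decide) (by decide) (by decide) (by decide) (by decide) (by decide) (by decide)
  have B4 := E2 2 3 1 4 5 (by decide) (by decide) (by decide) (by decide) (by decide) (by decide) (by decide) (by decide) (by decide)
  have C4 := HT 2 3 1 4 5 (by decide) (by decide) (by decide) (by decide) (by decide) (by decide) (by decide) (by decide) (by decide) (by decide) (by decide)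
  have B5 := E2 2 4 1 3 5 (by decide) (by decide) (by decide) (by decide) (by decide) (by decide) (by decide) (by decide) (by decide)
  have C5 := HT 2 4 1 3 5 (by decide) (by decide) (by decide) (by decide) (by decide) (by decide) (by decide) (by decide) (by decide) (by decide) (by decide)
  have B6 := E2 2 5 1 3 4 (by decide) (by decide) (by decide) (by decide) (by decide) (by decide) (by decide) (by decide) (by decide)
  have C6 := HT 2 5 1 3 4 (by decide) (by decide) (by decide) (by decide) (by decide) (by decide) (by decide) (by decide) (by decide) (by decide) (by decide)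
  have B7 := E2 3 4 1 2 5 (by decide) (by decide) (by decide) (by decide) (by decide) (by decide) (by decide) (by decide) (by decide)
  have C7 := HT 3 4 1 2 5 (by decide) (by decide) (by decide) (by decide) (by decide) (by decide) (by decide) (by decide) (by decide) (by decide) (by decide)
  have B8 := E2 3 5 1 2 4 (by decide) (by decide) (by decide) (by decide) (by decide) (by decide) (by decide) (by decide) (by decide)
  have C8 := HT 3 5 1 2 4 (by decide) (by decide) (by decide) (by decide) (by decide) (by decide) (by decide) (by decide) (by decide) (by decide) (by decide)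
  have B9 := E2 4 5 1 2 3 (by decide) (by decide) (by decide) (by decide) (by decide) (by decide) (by decide) (by decide) (by decide)
  have C9 := HT 4 5 1 2 3 (by decide) (by decide) (by decide) (by decide) (by decide) (by decide) (by decide) (by decide) (by decide) (by decide) (by decide)
  have key : (1 : ZMod 2) = 0 := by
    linear_combination -(A0 + A1 + A2 + A3 + A4 + A5 + A6 + A7 + A8 + A9 + A10 + A11 + A12 + A13 + A14 + B0 + B1 + B2 + B3 + B4 + B5 + B6 + B7 + B8 + B9 + C0 + C1 + C2 + C3 + C4 + C5 + C6 + C7 + C8 + C9 + L3) + ((1) * CC 1 2 3 4 + (1) * CS 1 2 3 4 + (-1) * SC 3 4 1 2 + (1) * SS 1 2 3 4 + (1) * CC 1 2 3 5 + (1) * CS 1 2 3 5 + (-1) * SC 3 5 1 2 + (1) * SS 1 2 3 5 + (1) * CC 1 2 4 5 + (1) * CS 1 2 4 5 + (-1) * SC 4 5 1 2 + (1) * SS 1 2 4 5 + (1) * CC 1 3 2 4 + (1) * CS 1 3 2 4 + (-1) * SC 2 4 1 3 + (1) * SS 1 3 2 4 + (1) * CC 1 3 2 5 + (1) * CS 1 3 2 5 + (-1) * SC 2 5 1 3 + (1) * SS 1 3 2 5 + (1) * CC 1 3 4 5 + (1) * CS 1 3 4 5 + (-1) * SC 4 5 1 3 + (1)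 * SS 1 3 4 5 + (1) * CC 1 4 2 3 + (1) * CS 1 4 2 3 + (-1) * SC 2 3 1 4 + (1) * SS 1 4 2 3 + (1) * CC 1 4 2 5 + (1) * CS 1 4 2 5 + (-1) * SC 2 5 1 4 + (1) * SS 1 4 2 5 + (1) * CC 1 4 3 5 + (1) * CS 1 4 3 5 + (-1) * SC 3 5 1 4 + (1) * SS 1 4 3 5 + (1) * CC 1 5 2 3 + (1) * CS 1 5 2 3 + (-1) * SC 2 3 1 5 + (1) * SS 1 5 2 3 + (1) * CC 1 5 2 4 + (1) * CS 1 5 2 4 + (-1) * SC 2 4 1 5 + (1) * SS 1 5 2 4 + (1) * CC 1 5 3 4 + (1) * CS 1 5 3 4 + (-1) * SC 3 4 1 5 + (1) * SS 1 5 3 4 + (1) * CC 2 3 4 5 + (1) * CS 2 3 4 5 + (-1) * SC 4 5 2 3 + (1) * SS 2 3 4 5 + (1) * CC 2 4 3 5 + (1) * CS 2 4 3 5 + (-1) * SC 3 5 2 4 + (1) * SS 2 4 3 5 + (1) * CC 2 5 3 4 + (1) * CS 2 5 3 4 + (-1) * SC 3 4 2 5 + (1) * SS 2 5 3 4 + (1) * CC 0 1 3 4 + (1) * CC 0 2 3 4 + (1) * CC 0 1 4 5 + (1) * CC 0 2 4 5 + (1) * CC 0 1 3 5 + (1) * CC 0 2 3 5 + (1) * CC 0 1 2 4 + (1) * CC 0 3 2 4 + (1) * CC 0 3 4 5 + (1) * CC 0 1 2 5 + (1) * CC 0 3 2 5 + (1) * CC 0 1 2 3 + (1) * CC 0 4 2 3 + (1) * CC 0 4 3 5 + (1) * CC 0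 4 2 5 + (1) * CC 0 5 2 3 + (1) * CC 0 5 3 4 + (1) * CC 0 5 2 4 + (1) * CC 0 2 1 4 + (1) * CC 0 3 1 4 + (1) * CC 0 2 1 5 + (1) * CC 0 3 1 5 + (1) * CC 0 2 1 3 + (1) * CC 0 4 1 3 + (1) * CC 0 4 1 5 + (1) * CC 0 5 1 3 + (1) * CC 0 5 1 4 + (1) * CC 0 3 1 2 + (1) * CC 0 4 1 2 + (1) * CC 0 5 1 2) * two0
  exact absurd key (by decide)

section
variable {ι : Type*}

def sg (v : Fin 6 → ι) (a b : Fin 6) : Multiset (ι × ι) := {(v a, v b)}

theorem mem_sg {v : Fin 6 → ι} {a b : Fin 6} {e : ι × ι} (h : e ∈ sg v a b) : e.1 = v a ∧ e.2 = v b := by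
  unfold sg at h; rw [Multiset.mem_singleton] at h; subst h; exact ⟨rfl, rfl⟩

theorem bd_sg (v : Fin 6 → ι) (a b : Fin 6) (h : ι → ZMod 2) : bd (sg v a b) h = h (v a) + h (v b) := by
  unfold bd sg; simp

theorem lk_sg (P : ι → E3) (O : ι) (v : Fin 6 → ι) (a b x y : Fin 6) :
    lk P O (sg v a b) (sg v x y) = I P O (v a) (v b) (v x) (v y) := by
  unfold lk sg; simp

theorem k6 (P : ι → E3) (hP : Gen P) (O O' : ι) (v : Fin 6 → ι) (c : Fin 6 → Fin 6 → Multiset (ι × ι))
    (hv : Function.Injective v)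
    (hc : ∀ a b, a ≠ b → IsPath (c a b) (v a) (v b))
    (hdis : ∀ a b x y, a ≠ b → x ≠ y → a ≠ x → a ≠ y → b ≠ x → b ≠ y → ∀ e ∈ c a b, ∀ f ∈ c x y,
      e.1 ≠ f.1 ∧ e.1 ≠ f.2 ∧ e.2 ≠ f.1 ∧ e.2 ≠ f.2)
    (hvd : ∀ a b x, a ≠ b → x ≠ a → x ≠ b → ∀ e ∈ c a b, e.1 ≠ v x ∧ e.2 ≠ v x)
    (hOv : ∀ x, O ≠ v x) (hOv' : ∀ x, O' ≠ v x)
    (hOc : ∀ a b, a ≠ b → ∀ e ∈ c a b, O ≠ e.1 ∧ O ≠ e.2)
    (hOc' : ∀ a b, a ≠ b → ∀ e ∈ c a b, O' ≠ e.1 ∧ O' ≠ e.2)
    (hOO : O ≠ O')
    (H22 : ∀ a d x z, a ≠ d → x ≠ z → a ≠ x → a ≠ z → d ≠ x → d ≠ z →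
      lk P O (c a d + c d a) (c x z + c z x) = 0)
    (H23 : ∀ a d x y z, a ≠ d → x ≠ y → y ≠ z → x ≠ z → a ≠ x → a ≠ y → a ≠ z → d ≠ x → d ≠ y → d ≠ z →
      lk P O (c a d + c d a) (c x y + c y z + c z x) = 0)
    (H32 : ∀ a b d x z, a ≠ b → b ≠ d → a ≠ d → x ≠ z → a ≠ x → a ≠ z → b ≠ x → b ≠ z → d ≠ x → d ≠ z →
      lk P O (c a b + c b d + c d a) (c x z + c z x) = 0)
    (H33 : ∀ a b d x y z, a ≠ b → b ≠ d → a ≠ d → x ≠ y → y ≠ z → x ≠ z →
      a ≠ x → a ≠ y → a ≠ z → b ≠ x → b ≠ y → b ≠ z → d ≠ x → d ≠ y → d ≠ z →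
      lk P O (c a b + c b d + c d a) (c x y + c y z + c z x) = 0) : False := by
  have cycL : ∀ a b, a ≠ b → IsCyc (c a b + sg v a b) := by
    intro a b hab h
    rw [bd_add, hc a b hab h, bd_sg, dbl]
  have cycT : ∀ x y z, IsCyc (sg v x y + sg v y z + sg v x z) := by
    intro x y z h
    rw [bd_add, bd_add, bd_sg, bd_sg, bd_sg]
    linear_combination (h (v x) + h (v y) + h (v z)) * two0
  apply k6_alg (fun a b x y => lk P O (c a b) (c x y)) (fun a b x y => lk P O (c a b) (sg v x y))
    (fun a b x y => lk P O (sg v a b) (c x y)) (fun a b x y => lk P O (sg v a b) (sg v x y))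
  · intro a b x y hab hxy n1 n2 n3 n4
    have hab' := hab.ne
    have hxy' := hxy.ne
    have h := lk_symm P hP O O' (c a b + sg v a b) (c x y + sg v x y) (cycL a b hab') (cycL x y hxy') hOO
      ?_ ?_ ?_ ?_
    · rw [lk_add_left, lk_add_right, lk_add_right, lk_add_left, lk_add_right, lk_add_right] at h
      linear_combination h
    · intro e he f hf
      rw [Multiset.mem_add] at he hf
      rcases he with he | he <;> rcases hf with hf | hf
      · exact hdis a b x y hab' hxy' n1 n2 n3 n4 e he f hf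
      · obtain ⟨f1, f2⟩ := mem_sg hf
        rw [f1, f2]
        have q1 := hvd a b x hab' n1.symm n3.symm e he
        have q2 := hvd a b y hab' n2.symm n4.symm e he
        exact ⟨q1.1, q2.1, q1.2, q2.2⟩
      · obtain ⟨f1, f2⟩ := mem_sg he
        rw [f1, f2]
        have q1 := hvd x y a hxy' n1 n2 f hf
        have q2 := hvd x y b hxy' n3 n4 f hf
        exact ⟨q1.1.symm, q1.2.symm, q2.1.symm, q2.2.symm⟩
      · obtain ⟨f1, f2⟩ := mem_sg he
        obtain ⟨g1, g2⟩ := mem_sg hf
        rw [f1, f2, g1, g2]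
        exact ⟨hv.ne n1, hv.ne n2, hv.ne n3, hv.ne n4⟩
    · intro f hf
      rw [Multiset.mem_add] at hf
      rcases hf with hf | hf
      · exact hOc x y hxy' f hf
      · obtain ⟨g1, g2⟩ := mem_sg hf
        rw [g1, g2]; exact ⟨hOv x, hOv y⟩
    · intro f hf
      rw [Multiset.mem_add] at hf
      rcases hf with hf | hf
      · exact hOc a b hab' f hf
      · obtain ⟨g1, g2⟩ := mem_sg hf
        rw [g1, g2]; exact ⟨hOv a, hOv b⟩
    · intro f hf
      rw [Multiset.mem_add] at hf
      rcases hf with hf | hf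
      · exact hOc' a b hab' f hf
      · obtain ⟨g1, g2⟩ := mem_sg hf
        rw [g1, g2]; exact ⟨hOv' a, hOv' b⟩
  · intro a b x y z hab hxy hyz n1 n2 n3 n4 n5 n6
    have hab' := hab.ne
    have h := lk_symm P hP O O' (c a b + sg v a b) (sg v x y + sg v y z + sg v x z) (cycL a b hab')
      (cycT x y z) hOO ?_ ?_ ?_ ?_
    · simp only [lk_add_left, lk_add_right] at h
      linear_combination h
    · intro e he f hf
      rw [Multiset.mem_add] at he
      rw [Multiset.mem_add, Multiset.mem_add] at hf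
      have qf : (f.1 = v x ∨ f.1 = v y ∨ f.1 = v z) ∧ (f.2 = v x ∨ f.2 = v y ∨ f.2 = v z) := by
        rcases hf with (hf | hf) | hf <;> obtain ⟨g1, g2⟩ := mem_sg hf <;> rw [g1, g2] <;> simp
      have qe : ∀ t, (t = v x ∨ t = v y ∨ t = v z) → e.1 ≠ t ∧ e.2 ≠ t := by
        rcases he with he | he
        · rintro t (rfl | rfl | rfl)
          · exact hvd a b x hab' n1.symm n4.symm e he
          · exact hvd a b y hab' n2.symm n5.symm e he
          · exact hvd a b z hab' n3.symm n6.symm e he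
        · obtain ⟨g1, g2⟩ := mem_sg he
          rw [g1, g2]
          rintro t (rfl | rfl | rfl)
          · exact ⟨hv.ne n1, hv.ne n4⟩
          · exact ⟨hv.ne n2, hv.ne n5⟩
          · exact ⟨hv.ne n3, hv.ne n6⟩
      exact ⟨(qe _ qf.1).1, (qe _ qf.2).1, (qe _ qf.1).2, (qe _ qf.2).2⟩
    · intro f hf
      rw [Multiset.mem_add, Multiset.mem_add] at hf
      rcases hf with (hf | hf) | hf <;> obtain ⟨g1, g2⟩ := mem_sg hf <;> rw [g1, g2] <;>
        exact ⟨hOv _, hOv _⟩
    · intro f hf
      rw [Multiset.mem_add] at hf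
      rcases hf with hf | hf
      · exact hOc a b hab' f hf
      · obtain ⟨g1, g2⟩ := mem_sg hf
        rw [g1, g2]; exact ⟨hOv a, hOv b⟩
    · intro f hf
      rw [Multiset.mem_add] at hf
      rcases hf with hf | hf
      · exact hOc' a b hab' f hf
      · obtain ⟨g1, g2⟩ := mem_sg hf
        rw [g1, g2]; exact ⟨hOv' a, hOv' b⟩
  · intro a b x y z h0a hab h0x hxy hyz n1 n2 n3 n4 n5 n6
    have hxz := (hxy.trans hyz).ne
    have h0b := (h0a.trans hab).ne
    have h0y := (h0x.trans hxy).ne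
    have h0z := ((h0x.trans hxy).trans hyz).ne
    have e1 := H33 0 a b x y z h0a.ne hab.ne h0b hxy.ne hyz.ne hxz h0x.ne h0y h0z n1 n2 n3 n4 n5 n6
    have e2 := H32 0 a b x z h0a.ne hab.ne h0b hxz h0x.ne h0z n1 n3 n4 n6
    have e3 := H23 0 b x y z h0b hxy.ne hyz.ne hxz h0x.ne h0y h0z n4 n5 n6
    have e4 := H22 0 b x z h0b hxz h0x.ne h0z n4 n6
    simp only [lk_add_left, lk_add_right] at e1 e2 e3 e4

    linear_combination e1 + e2 + e3 + e4 - (lk P O (c 0 a) (c z x) + lk P O (c a b) (c z x) +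
      lk P O (c b 0) (c x y) + lk P O (c b 0) (c y z) + 2 * lk P O (c b 0) (c z x) +
      lk P O (c b 0) (c x z) + lk P O (c 0 b) (c z x)) * two0
  · have h := six_l3 P hP O (v 1) (v 2) (v 3) (v 4) (v 5) (hOv 1) (hOv 2) (hOv 3) (hOv 4) (hOv 5)
      (hv.ne (by decide)) (hv.ne (by decide)) (hv.ne (by decide)) (hv.ne (by decide)) (hv.ne (by decide)) (hv.ne (by decide)) (hv.ne (by decide)) (hv.ne (by decide)) (hv.ne (by decide)) (hv.ne (by decide))
    rw [← h]
    have hI : ∀ a b x y : Fin 6, a ≠ b → a ≠ x → a ≠ y → b ≠ x → b ≠ y → x ≠ y →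
        lk P O (sg v a b) (sg v x y) = iv (X32 (P O) (P (v a)) (P (v b)) (P (v x)) (P (v y))) := by
      intro a b x y m1 m2 m3 m4 m5 m6
      rw [lk_sg]; unfold I; rw [if_pos]
      have k1 := hv.ne m1; have k2 := hv.ne m2; have k3 := hv.ne m3
      have k4 := hv.ne m4; have k5 := hv.ne m5; have k6 := hv.ne m6
      simp [hOv, k1, k2, k3, k4, k5, k6]
    rw [hI 4 5 2 3 (by decide) (by decide) (by decide) (by decide) (by decide) (by decide)]
    rw [hI 3 5 2 4 (by decide) (by decide) (by decide) (by decide) (by decide) (by decide)]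
    rw [hI 3 4 2 5 (by decide) (by decide) (by decide) (by decide) (by decide) (by decide)]
    rw [hI 2 5 3 4 (by decide) (by decide) (by decide) (by decide) (by decide) (by decide)]
    rw [hI 2 4 3 5 (by decide) (by decide) (by decide) (by decide) (by decide) (by decide)]
    rw [hI 2 3 4 5 (by decide) (by decide) (by decide) (by decide) (by decide) (by decide)]
    rw [hI 4 5 1 3 (by decide) (by decide) (by decide) (by decide) (by decide) (by decide)]
    rw [hI 3 5 1 4 (by decide) (by decide) (by decide) (by decide) (by decide) (by decide)]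
    rw [hI 3 4 1 5 (by decide) (by decide) (by decide) (by decide) (by decide) (by decide)]
    rw [hI 1 5 3 4 (by decide) (by decide) (by decide) (by decide) (by decide) (by decide)]
    rw [hI 1 4 3 5 (by decide) (by decide) (by decide) (by decide) (by decide) (by decide)]
    rw [hI 1 3 4 5 (by decide) (by decide) (by decide) (by decide) (by decide) (by decide)]
    rw [hI 4 5 1 2 (by decide) (by decide) (by decide) (by decide) (by decide) (by decide)]
    rw [hI 2 5 1 4 (by decide) (by decide) (by decide) (by decide) (by decide) (by decide)]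
    rw [hI 2 4 1 5 (by decide) (by decide) (by decide) (by decide) (by decide) (by decide)]
    rw [hI 1 5 2 4 (by decide) (by decide) (by decide) (by decide) (by decide) (by decide)]
    rw [hI 1 4 2 5 (by decide) (by decide) (by decide) (by decide) (by decide) (by decide)]
    rw [hI 1 2 4 5 (by decide) (by decide) (by decide) (by decide) (by decide) (by decide)]
    rw [hI 3 5 1 2 (by decide) (by decide) (by decide) (by decide) (by decide) (by decide)]
    rw [hI 2 5 1 3 (by decide) (by decide) (by decide) (by decide) (by decide) (by decide)]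
    rw [hI 2 3 1 5 (by decide) (by decide) (by decide) (by decide) (by decide) (by decide)]
    rw [hI 1 5 2 3 (by decide) (by decide) (by decide) (by decide) (by decide) (by decide)]
    rw [hI 1 3 2 5 (by decide) (by decide) (by decide) (by decide) (by decide) (by decide)]
    rw [hI 1 2 3 5 (by decide) (by decide) (by decide) (by decide) (by decide) (by decide)]
    rw [hI 3 4 1 2 (by decide) (by decide) (by decide) (by decide) (by decide) (by decide)]
    rw [hI 2 4 1 3 (by decide) (by decide) (by decide) (by decide) (by decide) (by decide)]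
    rw [hI 2 3 1 4 (by decide) (by decide) (by decide) (by decide) (by decide) (by decide)]
    rw [hI 1 4 2 3 (by decide) (by decide) (by decide) (by decide) (by decide) (by decide)]
    rw [hI 1 3 2 4 (by decide) (by decide) (by decide) (by decide) (by decide) (by decide)]
    rw [hI 1 2 3 4 (by decide) (by decide) (by decide) (by decide) (by decide) (by decide)]

end

end Pool.Agent.Helper683
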