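import Mathlib
import Pool.Agent.Helper683.KSix
import Pool.Agent.Helper683.Generic
import Pool.Agent.Helper683.Extend

namespace Pool.Agent.Helper683

open Set Topology

/-- cyclic patterns on six points of length two or three -/
abbrev Cy := Bool × Fin 6 × Fin 6 × Fin 6

def Cy.len (α : Cy) : ℕ := if α.1 = true then 3 else 2
def Cy.u (α : Cy) (i : ℕ) : Fin 6 :=
  if i = 1 then α.2.2.1 else if i = 2 ∧ α.1 = true then α.2.2.2 else α.2.1
def Cy.ok (α : Cy) : Prop := α.2.1 ≠ α.2.2.1 ∧ (α.1 = true → α.2.2.1 ≠ α.2.2.2 ∧ α.2.1 ≠ α.2.2.2)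
def Cy.dj (α β : Cy) : Prop := ∀ i < Cy.len α, ∀ j < Cy.len β, Cy.u α i ≠ Cy.u β j

theorem Cy.len_pos (α : Cy) : 0 < Cy.len α := by unfold Cy.len; split_ifs <;> norm_num
theorem Cy.len_le (α : Cy) : Cy.len α ≤ 3 := by unfold Cy.len; split_ifs <;> norm_num
theorem Cy.u_len (α : Cy) : Cy.u α (Cy.len α) = Cy.u α 0 := by
  unfold Cy.len Cy.u; split_ifs <;> simp_all
theorem Cy.u_ne (α : Cy) (h : Cy.ok α) (i : ℕ) (hi : i < Cy.len α) : Cy.u α i ≠ Cy.u α (i + 1) := by
  obtain ⟨b, x, y, z⟩ := α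
  obtain ⟨h1, h2⟩ := h
  simp only at h1 h2
  cases b
  · simp only [Cy.len] at hi
    have : i = 0 ∨ i = 1 := by simp at hi; omega
    rcases this with rfl | rfl
    · simpa [Cy.u] using h1
    · simpa [Cy.u] using h1.symm
  · simp only [Cy.len] at hi
    have : i = 0 ∨ i = 1 ∨ i = 2 := by simp at hi; omega
    obtain ⟨h3, h4⟩ := h2 rfl
    rcases this with rfl | rfl | rfl
    · simpa [Cy.u] using h1
    · simpa [Cy.u] using h3
    · simpa [Cy.u] using h4.symm

/-- concatenation of arcs -/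
noncomputable def gam (A : Fin 6 → Fin 6 → ℝ → E3) (p0 : E3) (u : ℕ → Fin 6) : ℕ → ℝ → E3
  | 0 => fun _ => p0
  | (k+1) => fun s => if s ≤ k then gam A p0 u k s else A (u k) (u (k+1)) (s - k)

section gam
variable (A : Fin 6 → Fin 6 → ℝ → E3) (pos : Fin 6 → E3)
  (hA : ∀ a b, Continuous (A a b)) (h0 : ∀ a b, a ≠ b → A a b 0 = pos a)
  (h1 : ∀ a b, a ≠ b → A a b 1 = pos b) (u : ℕ → Fin 6)
include h0 h1

theorem gam_end (k : ℕ) (hu : ∀ i < k, u i ≠ u (i+1)) : gam A (pos (u 0)) u k k = pos (u k) := by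
  cases k with
  | zero => rfl
  | succ k =>
    simp only [gam]
    rw [if_neg (by push_cast; linarith)]
    push_cast
    rw [add_sub_cancel_left]
    exact h1 _ _ (hu k (by omega))

theorem gam_piece (k : ℕ) (hu : ∀ i < k, u i ≠ u (i+1)) (i : ℕ) (hi : i < k) (s : ℝ)
    (hs : (i : ℝ) ≤ s) (hs' : s ≤ i + 1) :
    gam A (pos (u 0)) u k s = A (u i) (u (i+1)) (s - i) := by
  induction k with
  | zero => omega
  | succ k ih =>
    simp only [gam]
    rcases Nat.lt_succ_iff_lt_or_eq.mp hi with h | h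
    · have : (i : ℝ) + 1 ≤ k := by exact_mod_cast h
      rw [if_pos (by linarith)]
      exact ih (fun j hj => hu j (by omega)) h
    · subst h
      by_cases hsi : s ≤ i
      · have : s = i := le_antisymm hsi hs
        rw [if_pos hsi, this, gam_end A pos h0 h1 u i (fun j hj => hu j (by omega)), sub_self,
          h0 _ _ (hu i (by omega))]
      · rw [if_neg hsi]

include hA in
theorem gam_cont (k : ℕ) (hu : ∀ i < k, u i ≠ u (i+1)) : Continuous (gam A (pos (u 0)) u k) := by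
  induction k with
  | zero => exact continuous_const
  | succ k ih =>
    simp only [gam]
    apply Continuous.if_le
    · exact ih (fun j hj => hu j (by omega))
    · exact (hA _ _).comp (by fun_prop)
    · exact continuous_id
    · exact continuous_const
    · intro s hs
      rw [hs, gam_end A pos h0 h1 u k (fun j hj => hu j (by omega)), sub_self,
          h0 _ _ (hu k (by omega))]

end gam

/-- image of a pattern -/
def Im (A : Fin 6 → Fin 6 → ℝ → E3) (α : Cy) : Set E3 :=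
  {x | ∃ i < Cy.len α, ∃ t ∈ Icc (0:ℝ) 1, A (Cy.u α i) (Cy.u α (i+1)) t = x}

theorem Im_eq (A : Fin 6 → Fin 6 → ℝ → E3) (pos : Fin 6 → E3)
    (h0 : ∀ a b, a ≠ b → A a b 0 = pos a) (h1 : ∀ a b, a ≠ b → A a b 1 = pos b)
    (α : Cy) (hα : Cy.ok α) :
    Im A α = gam A (pos (Cy.u α 0)) (Cy.u α) (Cy.len α) '' Icc (0:ℝ) (Cy.len α) := by
  ext x
  constructor
  · rintro ⟨i, hi, t, ⟨ht0, ht1⟩, rfl⟩
    have hi' : (i : ℝ) + 1 ≤ Cy.len α := by exact_mod_cast hi
    refine ⟨i + t, ⟨by positivity, by linarith⟩, ?_⟩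
    rw [gam_piece A pos h0 h1 _ _ (fun j hj => Cy.u_ne α hα j hj) i hi _ (by linarith) (by linarith),
      add_sub_cancel_left]
  · rintro ⟨s, ⟨hs0, hs1⟩, rfl⟩
    by_cases hs : s < Cy.len α
    · have hfl : ⌊s⌋₊ < Cy.len α := (Nat.floor_lt hs0).mpr hs
      refine ⟨⌊s⌋₊, hfl, s - ⌊s⌋₊, ⟨?_, ?_⟩, ?_⟩
      · have := Nat.floor_le hs0; linarith
      · have := Nat.lt_floor_add_one s; linarith
      · rw [gam_piece A pos h0 h1 _ _ (fun j hj => Cy.u_ne α hα j hj) _ hfl s (Nat.floor_le hs0)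
          (Nat.lt_floor_add_one s).le]
    · have hsl : s = Cy.len α := le_antisymm hs1 (not_lt.mp hs)
      refine ⟨0, Cy.len_pos α, 0, ⟨le_rfl, zero_le_one⟩, ?_⟩
      rw [hsl, gam_end A pos h0 h1 _ _ (fun j hj => Cy.u_ne α hα j hj), Cy.u_len,
        h0 _ _ (Cy.u_ne α hα 0 (Cy.len_pos α))]

theorem Im_conn (A : Fin 6 → Fin 6 → ℝ → E3) (pos : Fin 6 → E3)
    (hA : ∀ a b, Continuous (A a b))
    (h0 : ∀ a b, a ≠ b → A a b 0 = pos a) (h1 : ∀ a b, a ≠ b → A a b 1 = pos b)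
    (α : Cy) (hα : Cy.ok α) : IsPreconnected (Im A α) := by
  rw [Im_eq A pos h0 h1 α hα]
  exact isPreconnected_Icc.image _
    (gam_cont A pos hA h0 h1 _ _ (fun j hj => Cy.u_ne α hα j hj)).continuousOn

theorem Im_compact (A : Fin 6 → Fin 6 → ℝ → E3) (pos : Fin 6 → E3)
    (hA : ∀ a b, Continuous (A a b))
    (h0 : ∀ a b, a ≠ b → A a b 0 = pos a) (h1 : ∀ a b, a ≠ b → A a b 1 = pos b)
    (α : Cy) (hα : Cy.ok α) : IsCompact (Im A α) := by
  rw [Im_eq A pos h0 h1 α hα]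
  exact isCompact_Icc.image (gam_cont A pos hA h0 h1 _ _ (fun j hj => Cy.u_ne α hα j hj))

/-- labels of the sample points -/
inductive Tag : Type
  | ap (b : Bool) : Tag
  | vt (a : Fin 6) : Tag
  | ar (a b : Fin 6) (m : ℕ) : Tag
  | gr (α β : Cy) (i j : ℕ) : Tag

def Tag.toSum : Tag → Bool ⊕ (Fin 6) ⊕ (Fin 6 × Fin 6 × ℕ) ⊕ (Cy × Cy × ℕ × ℕ)
  | Tag.ap b => Sum.inl b
  | Tag.vt a => Sum.inr (Sum.inl a)
  | Tag.ar a b m => Sum.inr (Sum.inr (Sum.inl (a, b, m)))
  | Tag.gr α β i j => Sum.inr (Sum.inr (Sum.inr (α, β, i, j)))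

instance : Countable Tag := by
  apply Function.Injective.countable (f := Tag.toSum)
  intro x y h
  cases x <;> cases y <;> simp_all [Tag.toSum]

/-- sample labels along an arc -/
def wt (N : ℕ) (a b : Fin 6) (m : ℕ) : Tag :=
  if m = 0 then Tag.vt a else if m = N then Tag.vt b else Tag.ar a b m

def ch (N : ℕ) (a b : Fin 6) : Multiset (Tag × Tag) :=
  (Multiset.range N).map fun m => (wt N a b m, wt N a b (m+1))

theorem wt_cases (N : ℕ) (a b : Fin 6) (m : ℕ) :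
    wt N a b m = Tag.vt a ∨ wt N a b m = Tag.vt b ∨ wt N a b m = Tag.ar a b m := by
  unfold wt; split_ifs <;> simp

theorem mem_ch {N : ℕ} {a b : Fin 6} {e : Tag × Tag} (h : e ∈ ch N a b) :
    ∃ m < N, e = (wt N a b m, wt N a b (m+1)) := by
  unfold ch at h
  rw [Multiset.mem_map] at h
  obtain ⟨m, hm, rfl⟩ := h
  exact ⟨m, Multiset.mem_range.mp hm, rfl⟩

theorem tele (h : ℕ → ZMod 2) (N : ℕ) :
    ((Multiset.range N).map fun m => h m + h (m+1)).sum = h 0 + h N := by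
  induction N with
  | zero => simp [dbl]
  | succ N ih =>
    rw [Multiset.range_succ, Multiset.map_cons, Multiset.sum_cons, ih]
    linear_combination h N * two0

theorem ch_path (N : ℕ) (hN : 0 < N) (a b : Fin 6) : IsPath (ch N a b) (Tag.vt a) (Tag.vt b) := by
  intro h
  unfold bd ch
  rw [Multiset.map_map]
  have := tele (fun m => h (wt N a b m)) N
  simp only [Function.comp_def]
  rw [this]
  simp [wt, hN.ne']

/-- labels along the bottom side of the grid -/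
def bot (N : ℕ) (u : ℕ → Fin 6) (i : ℕ) : Tag :=
  if i % N = 0 then Tag.vt (u (i / N)) else Tag.ar (u (i / N)) (u (i / N + 1)) (i % N)

theorem bot_eq (N : ℕ) (hN : 0 < N) (u : ℕ → Fin 6) (q m : ℕ) (hm : m ≤ N) :
    bot N u (N * q + m) = wt N (u q) (u (q+1)) m := by
  unfold bot wt
  rcases Nat.lt_or_ge m N with h | h
  · have e1 : (N * q + m) % N = m := by rw [Nat.mul_add_mod, Nat.mod_eq_of_lt h]
    have e2 : (N * q + m) / N = q := by
      rw [Nat.mul_add_div hN, Nat.div_eq_of_lt h, add_zero]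
    rw [e1, e2]
    simp [h.ne]
  · have hmN : m = N := le_antisymm hm h
    subst hmN
    have e1 : (m * q + m) % m = 0 := by rw [Nat.mul_add_mod, Nat.mod_self]
    have e2 : (m * q + m) / m = q + 1 := by
      rw [Nat.mul_add_div hN, Nat.div_self hN]
    rw [e1, e2]
    simp [hN.ne']

theorem bot_chain (N : ℕ) (hN : 0 < N) (u : ℕ → Fin 6) (k : ℕ) :
    ((Multiset.range (N * k)).map fun i => (bot N u i, bot N u (i+1))) =
      ∑ q ∈ Finset.range k, ch N (u q) (u (q+1)) := by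
  induction k with
  | zero => simp
  | succ k ih =>
    rw [Nat.mul_succ, Multiset.range_add, Multiset.map_add, ih, Finset.sum_range_succ]
    congr 1
    unfold ch
    rw [Multiset.map_map]
    apply Multiset.map_congr rfl
    intro m hm
    rw [Multiset.mem_range] at hm
    simp only [Function.comp]
    rw [bot_eq N hN u k m hm.le, add_assoc, bot_eq N hN u k (m+1) hm]

def cyc (N : ℕ) (α : Cy) : Multiset (Tag × Tag) :=
  ∑ q ∈ Finset.range (Cy.len α), ch N (Cy.u α q) (Cy.u α (q+1))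

theorem mem_cyc {N : ℕ} {α : Cy} {e : Tag × Tag} (h : e ∈ cyc N α) :
    ∃ q < Cy.len α, ∃ m < N, e = (wt N (Cy.u α q) (Cy.u α (q+1)) m, wt N (Cy.u α q) (Cy.u α (q+1)) (m+1)) := by
  unfold cyc at h
  rw [Multiset.mem_sum] at h
  obtain ⟨q, hq, he⟩ := h
  obtain ⟨m, hm, rfl⟩ := mem_ch he
  exact ⟨q, Finset.mem_range.mp hq, m, hm, rfl⟩

theorem bd_sum {ι : Type*} (c : ℕ → Multiset (ι × ι)) (k : ℕ) (h : ι → ZMod 2) :
    bd (∑ q ∈ Finset.range k, c q) h = ∑ q ∈ Finset.range k, bd (c q) h := by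
  induction k with
  | zero => simp [bd]
  | succ k ih => rw [Finset.sum_range_succ, Finset.sum_range_succ, bd_add, ih]

theorem cyc_isCyc (N : ℕ) (hN : 0 < N) (α : Cy) : IsCyc (cyc N α) := by
  intro h
  unfold cyc
  rw [bd_sum]
  have e : ∀ q, bd (ch N (Cy.u α q) (Cy.u α (q+1))) h =
      (fun i => h (Tag.vt (Cy.u α i))) q + (fun i => h (Tag.vt (Cy.u α i))) (q+1) := fun q =>
    ch_path N hN _ _ h
  rw [Finset.sum_congr rfl (fun q _ => e q)]
  have := tele (fun i => h (Tag.vt (Cy.u α i))) (Cy.len α)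
  have e2 : (∑ q ∈ Finset.range (Cy.len α), ((fun i => h (Tag.vt (Cy.u α i))) q +
      (fun i => h (Tag.vt (Cy.u α i))) (q+1))) = h (Tag.vt (Cy.u α 0)) + h (Tag.vt (Cy.u α (Cy.len α))) := this
  rw [e2, Cy.u_len, dbl]

/-- labels of the grid -/
def grid (N : ℕ) (α β : Cy) (i j : ℕ) : Tag :=
  if j = 0 then bot N (Cy.u α) i
  else if i = 0 ∨ i = N * Cy.len α ∨ j = N then Tag.vt (Cy.u α 0) else Tag.gr α β i j

/-- sets of labels -/
def verts (α : Cy) : Set (Fin 6) := {a | ∃ i < Cy.len α, Cy.u α i = a}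

theorem u_mem_verts (α : Cy) (i : ℕ) (hi : i ≤ Cy.len α) : Cy.u α i ∈ verts α := by
  rcases hi.lt_or_eq with h | h
  · exact ⟨i, h, rfl⟩
  · rw [h, Cy.u_len]; exact ⟨0, Cy.len_pos α, rfl⟩

/-- a label carried by vertex set `V` -/
def carried (V : Set (Fin 6)) : Tag → Prop
  | Tag.ap _ => False
  | Tag.vt a => a ∈ V
  | Tag.ar a b _ => a ∈ V ∧ b ∈ V
  | Tag.gr _ _ _ _ => False

theorem carried_wt (V : Set (Fin 6)) (N : ℕ) (a b : Fin 6) (m : ℕ) (ha : a ∈ V) (hb : b ∈ V) :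
    carried V (wt N a b m) := by
  rcases wt_cases N a b m with h | h | h <;> rw [h]
  · exact ha
  · exact hb
  · exact ⟨ha, hb⟩

theorem carried_cyc {N : ℕ} {α : Cy} {e : Tag × Tag} (h : e ∈ cyc N α) :
    carried (verts α) e.1 ∧ carried (verts α) e.2 := by
  obtain ⟨q, hq, m, hm, rfl⟩ := mem_cyc h
  have h1 := u_mem_verts α q hq.le
  have h2 := u_mem_verts α (q+1) hq
  exact ⟨carried_wt _ N _ _ m h1 h2, carried_wt _ N _ _ (m+1) h1 h2⟩

theorem not_carried_ap {V : Set (Fin 6)} {t : Tag} (h : carried V t) (b : Bool) : Tag.ap b ≠ t := by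
  rintro rfl; exact h

theorem carried_ne {V W : Set (Fin 6)} (hVW : Disjoint V W) {s t : Tag} (hs : carried V s)
    (ht : carried W t) : s ≠ t := by
  rintro rfl
  cases s with
  | ap b => exact hs
  | vt a => exact Set.disjoint_left.mp hVW hs ht
  | ar a b m => exact Set.disjoint_left.mp hVW hs.1 ht.1
  | gr α β i j => exact hs

theorem bot_carried (N : ℕ) (hN : 0 < N) (α : Cy) (i : ℕ) (hi : i ≤ N * Cy.len α) :
    carried (verts α) (bot N (Cy.u α) i) := by
  rcases hi.lt_or_eq with h | h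
  · have e : i = N * (i / N) + i % N := (Nat.div_add_mod i N).symm
    have hq : i / N < Cy.len α := Nat.div_lt_of_lt_mul h
    rw [e, bot_eq N hN _ _ _ (Nat.mod_lt _ hN).le]
    exact carried_wt _ _ _ _ _ (u_mem_verts α _ hq.le) (u_mem_verts α _ hq)
  · rw [h]
    unfold bot
    rw [if_pos (Nat.mul_mod_right _ _), Nat.mul_div_cancel_left _ hN, Cy.u_len]
    exact u_mem_verts α 0 (Cy.len_pos α).le

theorem grid_cases (N : ℕ) (hN : 0 < N) (α β : Cy) (i j : ℕ) (hi : i ≤ N * Cy.len α) :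
    carried (verts α) (grid N α β i j) ∨ grid N α β i j = Tag.gr α β i j := by
  unfold grid
  split_ifs with h1 h2
  · left; exact bot_carried N hN α i hi
  · left; exact u_mem_verts α 0 (Cy.len_pos α).le
  · right; rfl

theorem dj_disjoint {α β : Cy} (h : Cy.dj α β) : Disjoint (verts α) (verts β) := by
  rw [Set.disjoint_left]
  rintro a ⟨i, hi, rfl⟩ ⟨j, hj, e⟩
  exact h i hi j hj e.symm

/-- positions of the sample points -/
noncomputable def P0 (A : Fin 6 → Fin 6 → ℝ → E3) (pos : Fin 6 → E3) (D : Cy → Cy → Pl → E3) (N : ℕ) :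
    Tag → E3
  | Tag.ap _ => 0
  | Tag.vt a => pos a
  | Tag.ar a b m => A a b ((m : ℝ) / N)
  | Tag.gr α β i j => D α β ((i : ℝ) / N, (j : ℝ) / N)

theorem P0_wt (A : Fin 6 → Fin 6 → ℝ → E3) (pos : Fin 6 → E3) (D : Cy → Cy → Pl → E3) (N : ℕ) (hN : 0 < N)
    (h0 : ∀ a b, a ≠ b → A a b 0 = pos a) (h1 : ∀ a b, a ≠ b → A a b 1 = pos b) (a b : Fin 6) (hab : a ≠ b)
    (m : ℕ) : P0 A pos D N (wt N a b m) = A a b ((m : ℝ) / N) := by
  unfold wt
  split_ifs with h h'
  · subst h; simp only [P0, Nat.cast_zero, zero_div]; exact (h0 a b hab).symm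
  · subst h'
    have : (m : ℝ) ≠ 0 := by exact_mod_cast h
    simp only [P0, div_self this]; exact (h1 a b hab).symm
  · rfl

theorem P0_bot (A : Fin 6 → Fin 6 → ℝ → E3) (pos : Fin 6 → E3) (D : Cy → Cy → Pl → E3) (N : ℕ) (hN : 0 < N)
    (h0 : ∀ a b, a ≠ b → A a b 0 = pos a) (h1 : ∀ a b, a ≠ b → A a b 1 = pos b)
    (α : Cy) (hα : Cy.ok α) (i : ℕ) (hi : i ≤ N * Cy.len α) :
    P0 A pos D N (bot N (Cy.u α) i) = gam A (pos (Cy.u α 0)) (Cy.u α) (Cy.len α) ((i : ℝ) / N) := by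
  have hNr : (0 : ℝ) < N := by exact_mod_cast hN
  rcases hi.lt_or_eq with h | h
  · have e : i = N * (i / N) + i % N := (Nat.div_add_mod i N).symm
    have hq : i / N < Cy.len α := Nat.div_lt_of_lt_mul h
    set q := i / N with hqd
    set m := i % N with hmd
    have hm : m < N := Nat.mod_lt _ hN
    have hc : ((i : ℝ) / N) = q + (m : ℝ) / N := by
      rw [e]; push_cast; field_simp
    have hm1 : (m : ℝ) / N ≤ 1 := by
      rw [div_le_one hNr]; exact_mod_cast hm.le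
    have hm0 : 0 ≤ (m : ℝ) / N := by positivity
    rw [hc]
    rw [gam_piece A pos h0 h1 _ _ (fun j hj => Cy.u_ne α hα j hj) q hq _ (by linarith) (by linarith),
      add_sub_cancel_left, e, bot_eq N hN _ _ _ hm.le, P0_wt A pos D N hN h0 h1 _ _ (Cy.u_ne α hα q hq)]
  · rw [h]
    have e1 : ((N * Cy.len α : ℕ) : ℝ) / N = Cy.len α := by push_cast; field_simp
    rw [e1, gam_end A pos h0 h1 _ _ (fun j hj => Cy.u_ne α hα j hj)]
    unfold bot
    rw [if_pos (Nat.mul_mod_right _ _), Nat.mul_div_cancel_left _ hN]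
    rfl

theorem unif {κ X : Type*} [Finite κ] [PseudoMetricSpace X] (F : κ → X → E3) (hF : ∀ k, Continuous (F k))
    (K : Set X) (hK : IsCompact K) (ρ : ℝ) (hρ : 0 < ρ) :
    ∃ δ > 0, ∀ k, ∀ x ∈ K, ∀ y ∈ K, dist x y < δ → ‖F k x - F k y‖ < ρ := by
  classical
  have := Fintype.ofFinite κ
  have hc : Continuous (fun x => fun k => F k x) := continuous_pi hF
  have hu := hK.uniformContinuousOn_of_continuous hc.continuousOn
  obtain ⟨δ, hδ, h⟩ := Metric.uniformContinuousOn_iff.mp hu ρ hρ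
  refine ⟨δ, hδ, fun k x hx y hy hxy => ?_⟩
  have := h x hx y hy hxy
  rw [dist_pi_lt_iff hρ] at this
  have := this k
  rwa [dist_eq_norm] at this

theorem key (A : Fin 6 → Fin 6 → ℝ → E3) (pos : Fin 6 → E3) (hA : ∀ a b, Continuous (A a b))
    (h0 : ∀ a b, a ≠ b → A a b 0 = pos a) (h1 : ∀ a b, a ≠ b → A a b 1 = pos b) :
    ∃ α β : Cy, Cy.ok α ∧ Cy.ok β ∧ Cy.dj α β ∧ ¬ Sep (Im A α) (Im A β) := by
  classical
  by_contra H
  push Not at H
  -- the fillings
  have hD : ∀ α β : Cy, ∃ D' : Pl → E3, Continuous D' ∧ (Cy.ok α → Cy.ok β → Cy.dj α β →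
      (∀ s ∈ Icc (0:ℝ) (Cy.len α), D' (s, 0) = gam A (pos (Cy.u α 0)) (Cy.u α) (Cy.len α) s) ∧
      (∀ t : ℝ, D' (0, t) = pos (Cy.u α 0)) ∧ (∀ t : ℝ, D' ((Cy.len α : ℝ), t) = pos (Cy.u α 0)) ∧
      (∀ s ∈ Icc (0:ℝ) (Cy.len α), D' (s, 1) = pos (Cy.u α 0)) ∧ ∀ z, D' z ∉ Im A β) := by
    intro α β
    by_cases hab : Cy.ok α ∧ Cy.ok β ∧ Cy.dj α β
    · obtain ⟨hα, hβ, hd⟩ := hab
      have hγ := gam_cont A pos hA h0 h1 _ _ (fun j hj => Cy.u_ne α hα j hj)
      set γ := gam A (pos (Cy.u α 0)) (Cy.u α) (Cy.len α) with hγd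
      have hIm := Im_eq A pos h0 h1 α hα
      have hp : pos (Cy.u α 0) ∈ Im A α := by
        refine ⟨0, Cy.len_pos α, 0, ⟨le_rfl, zero_le_one⟩, h0 _ _ (Cy.u_ne α hα 0 (Cy.len_pos α))⟩
      have hlen : (0:ℝ) < Cy.len α := by exact_mod_cast Cy.len_pos α
      have hγ0 : γ 0 = pos (Cy.u α 0) := by
        rw [hγd, gam_piece A pos h0 h1 _ _ (fun j hj => Cy.u_ne α hα j hj) 0 (Cy.len_pos α) 0 (by simp)
          (by simp)]
        simp only [Nat.cast_zero, sub_zero]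
        exact h0 _ _ (Cy.u_ne α hα 0 (Cy.len_pos α))
      have hγl : γ (Cy.len α) = pos (Cy.u α 0) := by
        rw [hγd, gam_end A pos h0 h1 _ _ (fun j hj => Cy.u_ne α hα j hj), Cy.u_len]
      obtain ⟨D', hc, e1, e2⟩ := (H α β hα hβ hd).push (Im_conn A pos hA h0 h1 α hα)
        (Im_conn A pos hA h0 h1 β hβ)
        (fun z => (1 - z.2) • γ z.1 + z.2 • pos (Cy.u α 0)) (by fun_prop)
      have hval : ∀ (z : Pl) (v : E3), (1 - z.2) • γ z.1 + z.2 • pos (Cy.u α 0) = v → v ∈ Im A α →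
          D' z = v := by
        intro z v hv hv'
        rw [← hv] at hv' ⊢
        exact e1 z hv'
      refine ⟨D', hc, fun _ _ _ => ⟨?_, ?_, ?_, ?_, e2⟩⟩
      · intro s hs
        have hm : γ s ∈ Im A α := by rw [hIm]; exact ⟨s, hs, rfl⟩
        exact hval (s, 0) _ (by simp) hm
      · intro t
        exact hval (0, t) _ (by simp only [hγ0]; module) hp
      · intro t
        exact hval ((Cy.len α : ℝ), t) _ (by simp only [hγl]; module) hp
      · intro s _
        exact hval (s, 1) _ (by simp) hp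
    · exact ⟨fun _ => 0, continuous_const, fun a b c => absurd ⟨a, b, c⟩ hab⟩
  choose D hDc hDp using hD
  set R : Set Pl := Icc (0:ℝ) 3 ×ˢ Icc (0:ℝ) 1 with hR
  have hRc : IsCompact R := isCompact_Icc.prod isCompact_Icc
  -- separation constant
  have hr : ∀ q : Cy × Cy, ∃ r : ℝ, 0 < r ∧ (Cy.ok q.1 → Cy.ok q.2 → Cy.dj q.1 q.2 →
      ∀ z ∈ R, ∀ y ∈ Im A q.2, r ≤ ‖D q.1 q.2 z - y‖) := by
    intro q
    by_cases hab : Cy.ok q.1 ∧ Cy.ok q.2 ∧ Cy.dj q.1 q.2
    · obtain ⟨hα, hβ, hd⟩ := hab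
      have hK : IsCompact (R ×ˢ Im A q.2) := hRc.prod (Im_compact A pos hA h0 h1 _ hβ)
      have hcont : ContinuousOn (fun w : Pl × E3 => ‖D q.1 q.2 w.1 - w.2‖) (R ×ˢ Im A q.2) := by
        have := hDc q.1 q.2
        apply Continuous.continuousOn
        fun_prop
      obtain ⟨r, hr0, hr1⟩ := hK.exists_forall_le' hcont (a := 0) (by
        rintro ⟨z, y⟩ ⟨_, hy⟩
        simp only at hy ⊢
        rw [norm_pos_iff, sub_ne_zero]
        intro e
        exact (hDp q.1 q.2 hα hβ hd).2.2.2.2 z (by rw [e]; exact hy))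
      exact ⟨r, hr0, fun _ _ _ z hz y hy => hr1 (z, y) ⟨hz, hy⟩⟩
    · exact ⟨1, one_pos, fun a b c => absurd ⟨a, b, c⟩ hab⟩
  choose r hr0 hr1 using hr
  obtain ⟨q0, hq0⟩ := Finite.exists_min r
  set ρ : ℝ := r q0 / 8 with hρd
  have hρ : 0 < ρ := by have := hr0 q0; positivity
  obtain ⟨δ1, hδ1, hu1⟩ := unif (fun k : Fin 6 × Fin 6 => A k.1 k.2) (fun k => hA _ _)
    (Icc (0:ℝ) 1) isCompact_Icc ρ hρ
  obtain ⟨δ2, hδ2, hu2⟩ := unif (fun k : Cy × Cy => D k.1 k.2) (fun k => hDc _ _)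
    R hRc ρ hρ
  obtain ⟨N, hN⟩ := exists_nat_gt (1 / min δ1 δ2)
  have hδ : 0 < min δ1 δ2 := lt_min hδ1 hδ2
  have hNr : (0:ℝ) < N := lt_trans (by positivity) hN
  have hN0 : 0 < N := by exact_mod_cast hNr
  have hNδ : 1 / (N : ℝ) < min δ1 δ2 := by
    rw [div_lt_iff₀ hNr]
    rw [div_lt_iff₀ hδ] at hN
    linarith
  obtain ⟨P, hP, hPc⟩ := exists_gen (P0 A pos D N) ρ hρ
  -- closeness of arcs
  have harc : ∀ a b : Fin 6, a ≠ b → ∀ m < N,
      ‖P (wt N a b m) - A a b ((m:ℝ)/N)‖ < 2 * ρ ∧ ‖P (wt N a b (m+1)) - A a b ((m:ℝ)/N)‖ < 2 * ρ := by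
    intro a b hab m hm
    have k1 := hPc (wt N a b m)
    have k2 := hPc (wt N a b (m+1))
    rw [P0_wt A pos D N hN0 h0 h1 a b hab] at k1 k2
    have m1 : (m:ℝ)/N ∈ Icc (0:ℝ) 1 := ⟨by positivity, by
      rw [div_le_one hNr]; exact_mod_cast hm.le⟩
    have m2 : ((m+1 : ℕ):ℝ)/N ∈ Icc (0:ℝ) 1 := ⟨by positivity, by
      rw [div_le_one hNr]; exact_mod_cast hm⟩
    have k3 := hu1 (a, b) _ m2 _ m1 (by
      rw [Real.dist_eq]
      have : ((m+1 : ℕ):ℝ)/N - (m:ℝ)/N = 1 / N := by push_cast; field_simp; ring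
      rw [this, abs_of_pos (by positivity)]
      exact hNδ.trans_le (min_le_left _ _))
    refine ⟨by linarith, ?_⟩
    calc ‖P (wt N a b (m+1)) - A a b ((m:ℝ)/N)‖
        ≤ ‖P (wt N a b (m+1)) - A a b (((m+1:ℕ):ℝ)/N)‖ + ‖A a b (((m+1:ℕ):ℝ)/N) - A a b ((m:ℝ)/N)‖ :=
          norm_sub_le_norm_sub_add_norm_sub _ _ _
      _ < 2 * ρ := by
          have k3' : ‖A a b (((m+1:ℕ):ℝ)/N) - A a b ((m:ℝ)/N)‖ < ρ := k3
          linarith
  -- main vanishing
  have main : ∀ α β : Cy, Cy.ok α → Cy.ok β → Cy.dj α β →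
      lk P (Tag.ap true) (cyc N α) (cyc N β) = 0 := by
    intro α β hα hβ hd
    obtain ⟨b1, b2, b3, b4, b5⟩ := hDp α β hα hβ hd
    have hgrid : ∀ i j, i ≤ N * Cy.len α → j ≤ N →
        P0 A pos D N (grid N α β i j) = D α β ((i:ℝ)/N, (j:ℝ)/N) := by
      intro i j hi hj
      have hir : (i:ℝ)/N ≤ Cy.len α := by
        rw [div_le_iff₀ hNr]
        have : (i:ℝ) ≤ (N * Cy.len α : ℕ) := by exact_mod_cast hi
        push_cast at this; linarith
      have hi0 : 0 ≤ (i:ℝ)/N := by positivity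
      unfold grid
      split_ifs with hj0 hc
      · subst hj0
        rw [P0_bot A pos D N hN0 h0 h1 α hα i hi, Nat.cast_zero, zero_div, b1 _ ⟨hi0, hir⟩]
      · rcases hc with hc | hc | hc
        · subst hc; rw [Nat.cast_zero, zero_div, b2]; rfl
        · subst hc
          have : ((N * Cy.len α : ℕ) : ℝ) / N = Cy.len α := by push_cast; field_simp
          rw [this, b3]; rfl
        · subst hc
          rw [div_self hNr.ne', b4 _ ⟨hi0, hir⟩]; rfl
      · rfl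
    have hmemR : ∀ i j, i ≤ N * Cy.len α → j ≤ N → (((i:ℝ)/N, (j:ℝ)/N) : Pl) ∈ R := by
      intro i j hi hj
      have hir : (i:ℝ)/N ≤ Cy.len α := by
        rw [div_le_iff₀ hNr]
        have : (i:ℝ) ≤ (N * Cy.len α : ℕ) := by exact_mod_cast hi
        push_cast at this; linarith
      have hl3 : (Cy.len α : ℝ) ≤ 3 := by exact_mod_cast Cy.len_le α
      refine ⟨⟨by positivity, by linarith⟩, ⟨by positivity, ?_⟩⟩
      rw [div_le_one hNr]; exact_mod_cast hj
    have hclose : ∀ i j, i ≤ N * Cy.len α → j ≤ N → ∀ i' j', i' ≤ N * Cy.len α → j' ≤ N →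
        (i' = i ∨ i' = i + 1) → (j' = j ∨ j' = j + 1) →
        ‖P (grid N α β i' j') - D α β ((i:ℝ)/N, (j:ℝ)/N)‖ < 2 * ρ := by
      intro i j hi hj i' j' hi' hj' hii hjj
      have k1 := hPc (grid N α β i' j')
      rw [hgrid i' j' hi' hj'] at k1
      have k3 := hu2 (α, β) _ (hmemR i' j' hi' hj') _ (hmemR i j hi hj) (by
        rw [Prod.dist_eq, max_lt_iff, Real.dist_eq, Real.dist_eq]
        have hNδ' : 1 / (N:ℝ) < δ2 := hNδ.trans_le (min_le_right _ _)
        constructor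
        · simp only
          rcases hii with h | h
          · rw [h, sub_self, abs_zero]; exact hδ2
          · have : ((i':ℕ):ℝ)/N - (i:ℝ)/N = 1 / N := by rw [h]; push_cast; field_simp; ring
            rw [this, abs_of_pos (by positivity)]
            exact hNδ'
        · simp only
          rcases hjj with h | h
          · rw [h, sub_self, abs_zero]; exact hδ2
          · have : ((j':ℕ):ℝ)/N - (j:ℝ)/N = 1 / N := by rw [h]; push_cast; field_simp; ring
            rw [this, abs_of_pos (by positivity)]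
            exact hNδ')
      calc ‖P (grid N α β i' j') - D α β ((i:ℝ)/N, (j:ℝ)/N)‖
          ≤ ‖P (grid N α β i' j') - D α β ((i':ℝ)/N, (j':ℝ)/N)‖ +
            ‖D α β ((i':ℝ)/N, (j':ℝ)/N) - D α β ((i:ℝ)/N, (j:ℝ)/N)‖ :=
            norm_sub_le_norm_sub_add_norm_sub _ _ _
        _ < 2 * ρ := by
            have k3' : ‖D α β ((i':ℝ)/N, (j':ℝ)/N) - D α β ((i:ℝ)/N, (j:ℝ)/N)‖ < ρ := k3
            linarith
    have hfar : ∀ i j, i ≤ N * Cy.len α → j ≤ N → ∀ q < Cy.len β, ∀ m < N,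
        2 * (2 * ρ) ≤ ‖D α β ((i:ℝ)/N, (j:ℝ)/N) - A (Cy.u β q) (Cy.u β (q+1)) ((m:ℝ)/N)‖ := by
      intro i j hi hj q hq m hm
      have := hr1 (α, β) hα hβ hd _ (hmemR i j hi hj) (A (Cy.u β q) (Cy.u β (q+1)) ((m:ℝ)/N))
        ⟨q, hq, (m:ℝ)/N, ⟨by positivity, by rw [div_le_one hNr]; exact_mod_cast hm.le⟩, rfl⟩
      have h2 := hq0 (α, β)
      have h3 := hr0 q0
      simp only at this h2
      linarith
    have hcc : cyc N α = (Multiset.range (N * Cy.len α)).map fun i => (grid N α β i 0, grid N α β (i+1) 0) := by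
      unfold cyc
      rw [← bot_chain N hN0]
      rfl
    rw [hcc]
    have hdd := dj_disjoint hd
    apply disc P hP (Tag.ap true) (cyc N β) (cyc_isCyc N hN0 β) (grid N α β) (N * Cy.len α) N
      (Tag.vt (Cy.u α 0))
    · intro f hf
      have := carried_cyc hf
      exact ⟨not_carried_ap this.1 _, not_carried_ap this.2 _⟩
    · intro i j hi hj f hf
      have hcf := carried_cyc hf
      rcases grid_cases N hN0 α β i j hi with h | h
      · exact ⟨carried_ne hdd h hcf.1, carried_ne hdd h hcf.2⟩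
      · rw [h]
        constructor
        · intro e; rw [← e] at hcf; exact hcf.1
        · intro e; rw [← e] at hcf; exact hcf.2
    · intro i j hi hj f hf
      obtain ⟨q, hq, m, hm, rfl⟩ := mem_cyc hf
      obtain ⟨a1, a2⟩ := harc _ _ (Cy.u_ne β hβ q hq) m hm
      exact not_X32 (hclose i j hi.le hj.le i j hi.le hj.le (Or.inl rfl) (Or.inl rfl))
        (hclose i j hi.le hj.le (i+1) j hi hj.le (Or.inr rfl) (Or.inl rfl))
        (hclose i j hi.le hj.le (i+1) (j+1) hi hj (Or.inr rfl) (Or.inr rfl)) a1 a2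
        (hfar i j hi.le hj.le q hq m hm)
    · intro i j hi hj f hf
      obtain ⟨q, hq, m, hm, rfl⟩ := mem_cyc hf
      obtain ⟨a1, a2⟩ := harc _ _ (Cy.u_ne β hβ q hq) m hm
      exact not_X32 (hclose i j hi.le hj.le i j hi.le hj.le (Or.inl rfl) (Or.inl rfl))
        (hclose i j hi.le hj.le i (j+1) hi.le hj (Or.inl rfl) (Or.inr rfl))
        (hclose i j hi.le hj.le (i+1) (j+1) hi hj (Or.inr rfl) (Or.inr rfl)) a1 a2
        (hfar i j hi.le hj.le q hq m hm)
    · intro j _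
      unfold grid
      split_ifs with h h'
      · unfold bot; simp
      · rfl
      · exact absurd (Or.inl rfl) h'
    · intro j _
      unfold grid
      split_ifs with h h'
      · unfold bot
        rw [if_pos (Nat.mul_mod_right _ _), Nat.mul_div_cancel_left _ hN0, Cy.u_len]
      · rfl
      · exact absurd (Or.inr (Or.inl rfl)) h'
    · intro i _
      unfold grid
      rw [if_neg hN0.ne', if_pos (Or.inr (Or.inr rfl))]
  -- final contradiction
  have V2 : ∀ x y z : Fin 6, cyc N (false, x, y, z) = ch N x y + ch N y x := by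
    intro x y z
    simp [cyc, Cy.len, Cy.u, Finset.sum_range_succ]
  have V3 : ∀ x y z : Fin 6, cyc N (true, x, y, z) = ch N x y + ch N y z + ch N z x := by
    intro x y z
    simp [cyc, Cy.len, Cy.u, Finset.sum_range_succ]
  refine k6 P hP (Tag.ap true) (Tag.ap false) Tag.vt (ch N) ?_ ?_ ?_ ?_ ?_ ?_ ?_ ?_ ?_ ?_ ?_ ?_ ?_
  · intro a b h; exact Tag.vt.inj h
  · intro a b _; exact ch_path N hN0 a b
  · intro a b x y hab hxy n1 n2 n3 n4 e he f hf
    have hd : Disjoint ({a, b} : Set (Fin 6)) {x, y} := by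
      rw [Set.disjoint_left]
      rintro t (rfl | rfl) (h | h)
      · exact n1 h
      · exact n2 h
      · exact n3 h
      · exact n4 h
    obtain ⟨m, hm, rfl⟩ := mem_ch he
    obtain ⟨m', hm', rfl⟩ := mem_ch hf
    have c1 := fun m => carried_wt {a, b} N a b m (by simp) (by simp)
    have c2 := fun m => carried_wt {x, y} N x y m (by simp) (by simp)
    exact ⟨carried_ne hd (c1 m) (c2 m'), carried_ne hd (c1 m) (c2 (m'+1)),
      carried_ne hd (c1 (m+1)) (c2 m'), carried_ne hd (c1 (m+1)) (c2 (m'+1))⟩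
  · intro a b x hab n1 n2 e he
    obtain ⟨m, hm, rfl⟩ := mem_ch he
    have hd : Disjoint ({a, b} : Set (Fin 6)) {x} := by
      rw [Set.disjoint_left]
      rintro t (rfl | rfl) h
      · exact n1 h.symm
      · exact n2 h.symm
    have c1 := fun m => carried_wt {a, b} N a b m (by simp) (by simp)
    have c2 : carried {x} (Tag.vt x) := rfl
    exact ⟨carried_ne hd (c1 m) c2, carried_ne hd (c1 (m+1)) c2⟩
  · intro x h; cases h
  · intro x h; cases h
  · intro a b _ e he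
    obtain ⟨m, hm, rfl⟩ := mem_ch he
    have c1 := fun m => carried_wt {a, b} N a b m (by simp) (by simp)
    exact ⟨not_carried_ap (c1 m) _, not_carried_ap (c1 (m+1)) _⟩
  · intro a b _ e he
    obtain ⟨m, hm, rfl⟩ := mem_ch he
    have c1 := fun m => carried_wt {a, b} N a b m (by simp) (by simp)
    exact ⟨not_carried_ap (c1 m) _, not_carried_ap (c1 (m+1)) _⟩
  · intro h; cases h
  · intro a d x z n1 n2 n3 n4 n5 n6
    have := main (false, a, d, 0) (false, x, z, 0) ⟨n1, by simp⟩ ⟨n2, by simp⟩ (by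
      intro i hi j hj
      have : i = 0 ∨ i = 1 := by simp [Cy.len] at hi; omega
      have : j = 0 ∨ j = 1 := by simp [Cy.len] at hj; omega
      rcases ‹i = 0 ∨ i = 1› with rfl | rfl <;> rcases ‹j = 0 ∨ j = 1› with rfl | rfl <;>
        simp [Cy.u, n1, n2, n3, n4, n5, n6])
    rwa [V2, V2] at this
  · intro a d x y z n1 n2 n3 n4 n5 n6 n7 n8 n9 n10
    have := main (false, a, d, 0) (true, x, y, z) ⟨n1, by simp⟩ ⟨n2, fun _ => ⟨n3, n4⟩⟩ (by
      intro i hi j hj
      have : i = 0 ∨ i = 1 := by simp [Cy.len] at hi; omega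
      have : j = 0 ∨ j = 1 ∨ j = 2 := by simp [Cy.len] at hj; omega
      rcases ‹i = 0 ∨ i = 1› with rfl | rfl <;> rcases ‹j = 0 ∨ j = 1 ∨ j = 2› with rfl | rfl | rfl <;>
        simp [Cy.u, n5, n6, n7, n8, n9, n10])
    rwa [V2, V3] at this
  · intro a b d x z n1 n2 n3 n4 n5 n6 n7 n8 n9 n10
    have := main (true, a, b, d) (false, x, z, 0) ⟨n1, fun _ => ⟨n2, n3⟩⟩ ⟨n4, by simp⟩ (by
      intro i hi j hj
      have : i = 0 ∨ i = 1 ∨ i = 2 := by simp [Cy.len] at hi; omega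
      have : j = 0 ∨ j = 1 := by simp [Cy.len] at hj; omega
      rcases ‹i = 0 ∨ i = 1 ∨ i = 2› with rfl | rfl | rfl <;> rcases ‹j = 0 ∨ j = 1› with rfl | rfl <;>
        simp [Cy.u, n5, n6, n7, n8, n9, n10])
    rwa [V3, V2] at this
  · intro a b d x y z n1 n2 n3 n4 n5 n6 n7 n8 n9 n10 n11 n12 n13 n14 n15
    have := main (true, a, b, d) (true, x, y, z) ⟨n1, fun _ => ⟨n2, n3⟩⟩ ⟨n4, fun _ => ⟨n5, n6⟩⟩ (by
      intro i hi j hj
      have : i = 0 ∨ i = 1 ∨ i = 2 := by simp [Cy.len] at hi; omega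
      have : j = 0 ∨ j = 1 ∨ j = 2 := by simp [Cy.len] at hj; omega
      rcases ‹i = 0 ∨ i = 1 ∨ i = 2› with rfl | rfl | rfl <;>
        rcases ‹j = 0 ∨ j = 1 ∨ j = 2› with rfl | rfl | rfl <;>
        simp [Cy.u, n7, n8, n9, n10, n11, n12, n13, n14, n15])
    rwa [V3, V3] at this

end Pool.Agent.Helper683
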