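import Mathlib
import Pool.Agent.Helper683.Key

namespace Pool.Agent.Helper683

open Finset

section free
variable {V : Type*} [Fintype V] [DecidableEq V]

theorem bad_card (i : Fin 6) (g : (Fin 6 → V) → Finset V) (B : ℕ) (hB : ∀ x, (g x).card ≤ B)
    (hg : ∀ x v, g (Function.update x i v) = g x) :
    (univ.filter fun x : Fin 6 → V => x i ∈ g x).card ≤ B * Fintype.card V ^ 5 := by
  classical
  set s := univ.filter fun x : Fin 6 → V => x i ∈ g x with hs
  let φ : (Fin 6 → V) → ({j : Fin 6 // j ≠ i} → V) := fun x j => x j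
  have h1 : s.card ≤ B * (s.image φ).card := by
    apply Finset.card_le_mul_card_image
    intro y hy
    obtain ⟨x0, hx0, rfl⟩ := Finset.mem_image.mp hy
    refine le_trans ?_ (hB x0)
    apply Finset.card_le_card_of_injOn (fun x => x i)
    · intro x hx
      simp only [Finset.coe_filter, Set.mem_setOf_eq, hs, Finset.mem_filter, Finset.mem_univ,
        true_and] at hx
      obtain ⟨hx1, hx2⟩ := hx
      have : x = Function.update x0 i (x i) := by
        funext j
        by_cases hj : j = i
        · subst hj; simp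
        · rw [Function.update_of_ne hj]
          exact congrFun hx2 ⟨j, hj⟩
      rw [this, hg, ← this] at hx1
      exact hx1
    · intro x hx y hy hxy
      simp only [Finset.coe_filter, Set.mem_setOf_eq] at hx hy
      funext j
      by_cases hj : j = i
      · subst hj; exact hxy
      · have := hx.2.trans hy.2.symm
        exact congrFun this ⟨j, hj⟩
  have h2 : (s.image φ).card ≤ Fintype.card V ^ 5 := by
    refine (Finset.card_le_univ _).trans ?_
    rw [Fintype.card_fun]
    apply le_of_eq
    congr 1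
    rw [Fintype.card_subtype_compl, Fintype.card_subtype_eq, Fintype.card_fin]
  exact h1.trans (Nat.mul_le_mul_left _ h2)

theorem free {κ : Type*} [Fintype κ] (i : κ → Fin 6) (g : κ → (Fin 6 → V) → Finset V) (B : ℕ)
    (hB : ∀ k x, (g k x).card ≤ B) (hg : ∀ k x v, g k (Function.update x (i k) v) = g k x)
    (hN : Fintype.card κ * B < Fintype.card V) : ∃ x : Fin 6 → V, ∀ k, x (i k) ∉ g k x := by
  classical
  by_contra H
  push Not at H
  have hcov : (univ : Finset (Fin 6 → V)) ⊆
      univ.biUnion fun k : κ => univ.filter fun x : Fin 6 → V => x (i k) ∈ g k x := by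
    intro x _
    obtain ⟨k, hk⟩ := H x
    simp only [Finset.mem_biUnion, Finset.mem_univ, true_and, Finset.mem_filter]
    exact ⟨k, hk⟩
  have h1 := Finset.card_le_card hcov
  have h2 : (univ.biUnion fun k : κ => univ.filter fun x : Fin 6 → V => x (i k) ∈ g k x).card ≤
      Fintype.card κ * (B * Fintype.card V ^ 5) := by
    refine Finset.card_biUnion_le.trans ?_
    rw [← Finset.card_univ, ← smul_eq_mul]
    apply Finset.sum_le_card_nsmul
    intro k _
    exact bad_card (i k) (g k) B (hB k) (hg k)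
  rw [Finset.card_univ, Fintype.card_fun, Fintype.card_fin] at h1
  have h3 : Fintype.card V ^ 6 ≤ Fintype.card κ * (B * Fintype.card V ^ 5) := h1.trans h2
  have hV : 0 < Fintype.card V := by omega
  have h4 : Fintype.card V ^ 6 = Fintype.card V * Fintype.card V ^ 5 := by ring
  rw [h4, ← mul_assoc] at h3
  have h5 := Nat.le_of_mul_le_mul_right h3 (by positivity)
  omega

end free

section star
variable {V : Type*}

abbrev SC (V : Type*) := Bool × V × V × V

def su (σ : SC V) (i : ℕ) : V :=
  if i = 1 then σ.2.2.1 else if i = 2 ∧ σ.1 = true then σ.2.2.2 else σ.2.1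
def slen (σ : SC V) : ℕ := if σ.1 = true then 3 else 2
def sok (σ : SC V) : Prop := σ.2.1 ≠ σ.2.2.1 ∧ (σ.1 = true → σ.2.2.1 ≠ σ.2.2.2 ∧ σ.2.1 ≠ σ.2.2.2)
def sv [DecidableEq V] (σ : SC V) : Finset V := (Finset.range (slen σ)).image (su σ)
def mp (x : Fin 6 → V) (α : Cy) : SC V := (α.1, x α.2.1, x α.2.2.1, x α.2.2.2)

theorem su_mp (x : Fin 6 → V) (α : Cy) (i : ℕ) : su (mp x α) i = x (Cy.u α i) := by
  unfold su mp Cy.u; split_ifs <;> rfl
theorem slen_mp (x : Fin 6 → V) (α : Cy) : slen (mp x α) = Cy.len α := rfl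
theorem slen_pos (σ : SC V) : 0 < slen σ := by unfold slen; split_ifs <;> norm_num
theorem slen_le (σ : SC V) : slen σ ≤ 3 := by unfold slen; split_ifs <;> norm_num

theorem sv_card [DecidableEq V] (σ : SC V) : (sv σ).card ≤ 3 := by
  refine Finset.card_image_le.trans ?_
  rw [Finset.card_range]; exact slen_le σ

theorem sv_nonempty [DecidableEq V] (σ : SC V) : (sv σ).Nonempty :=
  ⟨su σ 0, Finset.mem_image.mpr ⟨0, Finset.mem_range.mpr (slen_pos σ), rfl⟩⟩

theorem sok_mp {x : Fin 6 → V} (hx : Function.Injective x) {α : Cy} (h : Cy.ok α) : sok (mp x α) :=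
  ⟨hx.ne h.1, fun h' => ⟨hx.ne (h.2 h').1, hx.ne (h.2 h').2⟩⟩

theorem star [Fintype V] [DecidableEq V] (m : ℕ) (R : SC V → SC V → Prop)
    (hR : ∀ x : Fin 6 → V, Function.Injective x → ∃ α β : Cy, Cy.ok α ∧ Cy.ok β ∧ Cy.dj α β ∧
      (α.1 = false → α.2.2.2 = α.2.1) ∧ R (mp x α) (mp x β))
    (hN : Fintype.card ((Cy × Fin 6) ⊕ (Fin 6 × Fin 6)) * (3 * m + 1) < Fintype.card V) :
    ∃ σ : SC V, sok σ ∧ ∃ T : Fin m → SC V, (∀ i, sok (T i) ∧ Disjoint (sv σ) (sv (T i)) ∧ R σ (T i)) ∧
      ∀ i j, i ≠ j → Disjoint (sv (T i)) (sv (T j)) := by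
  classical
  let good : SC V → Finset (SC V) → Prop := fun σ F =>
    (∀ τ ∈ F, sok τ ∧ Disjoint (sv σ) (sv τ) ∧ R σ τ) ∧
      ∀ τ ∈ F, ∀ τ' ∈ F, τ ≠ τ' → Disjoint (sv τ) (sv τ')
  by_cases hex : ∃ σ : SC V, sok σ ∧ ∃ F : Finset (SC V), good σ F ∧ m ≤ F.card
  · obtain ⟨σ, hσ, F, ⟨hF1, hF2⟩, hm⟩ := hex
    obtain ⟨F', hF', hc⟩ := Finset.exists_subset_card_eq hm
    let e := (F'.equivFinOfCardEq hc).symm
    refine ⟨σ, hσ, fun i => (e i).1, fun i => hF1 _ (hF' (e i).2), ?_⟩
    intro i j hij
    apply hF2 _ (hF' (e i).2) _ (hF' (e j).2)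
    intro h
    exact hij (e.injective (Subtype.ext h))
  · exfalso
    push Not at hex
    have hmax : ∀ σ : SC V, ∃ F : Finset (SC V), good σ F ∧ ∀ F', good σ F' → F'.card ≤ F.card := by
      intro σ
      have hne : (univ.filter fun F : Finset (SC V) => good σ F).Nonempty := by
        refine ⟨∅, ?_⟩
        rw [Finset.mem_filter]
        exact ⟨Finset.mem_univ _, ⟨by simp, by simp⟩⟩
      obtain ⟨F, hF, hF'⟩ := Finset.exists_max_image _ (fun F : Finset (SC V) => F.card) hne
      rw [Finset.mem_filter] at hF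
      exact ⟨F, hF.2, fun F' h' => hF' F' (by rw [Finset.mem_filter]; exact ⟨Finset.mem_univ _, h'⟩)⟩
    choose F hFg hFm using hmax
    let U : SC V → Finset V := fun σ => if sok σ then (F σ).biUnion sv else ∅
    have hUc : ∀ σ, (U σ).card ≤ 3 * m + 1 := by
      intro σ
      simp only [U]
      split_ifs with h
      · refine Finset.card_biUnion_le.trans ?_
        have h1 : ∑ τ ∈ F σ, (sv τ).card ≤ (F σ).card • 3 :=
          Finset.sum_le_card_nsmul _ _ _ (fun τ _ => sv_card τ)
        have h2 := hex σ h (F σ) (hFg σ)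
        rw [smul_eq_mul] at h1
        omega
      · simp
    have hUhit : ∀ σ τ, sok σ → sok τ → Disjoint (sv σ) (sv τ) → R σ τ → ¬ Disjoint (sv τ) (U σ) := by
      intro σ τ hσ hτ hd hr hdis
      simp only [U, if_pos hσ] at hdis
      rw [Finset.disjoint_biUnion_right] at hdis
      have hnot : τ ∉ F σ := by
        intro h
        have := hdis τ h
        rw [disjoint_self] at this
        exact (sv_nonempty τ).ne_empty this
      have hgood : good σ (insert τ (F σ)) := by
        constructor
        · intro t ht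
          rw [Finset.mem_insert] at ht
          rcases ht with rfl | ht
          · exact ⟨hτ, hd, hr⟩
          · exact (hFg σ).1 t ht
        · intro t ht t' ht' hne
          rw [Finset.mem_insert] at ht ht'
          rcases ht with rfl | ht <;> rcases ht' with rfl | ht'
          · exact absurd rfl hne
          · exact hdis _ ht'
          · exact (hdis _ ht).symm
          · exact (hFg σ).2 t ht t' ht' hne
      have := hFm σ _ hgood
      rw [Finset.card_insert_of_notMem hnot] at this
      omega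
    let ii : (Cy × Fin 6) ⊕ (Fin 6 × Fin 6) → Fin 6 := fun k => Sum.elim (fun q => q.2) (fun q => q.1) k
    let g : (Cy × Fin 6) ⊕ (Fin 6 × Fin 6) → (Fin 6 → V) → Finset V := fun k x =>
      Sum.elim (fun q : Cy × Fin 6 => if q.1.2.1 ≠ q.2 ∧ q.1.2.2.1 ≠ q.2 ∧ q.1.2.2.2 ≠ q.2
          then U (mp x q.1) else ∅)
        (fun q : Fin 6 × Fin 6 => if q.1 = q.2 then ∅ else {x q.2}) k
    obtain ⟨x, hx⟩ := free ii g (3 * m + 1) (by
      intro k x
      rcases k with ⟨α, q⟩ | ⟨a, b⟩
      · simp only [g, Sum.elim_inl]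
        split_ifs
        · exact hUc _
        · simp
      · simp only [g, Sum.elim_inr]
        split_ifs
        · simp
        · simp) (by
      intro k x v
      rcases k with ⟨α, q⟩ | ⟨a, b⟩
      · simp only [g, ii, Sum.elim_inl]
        split_ifs with h
        · congr 1
          unfold mp
          rw [Function.update_of_ne h.1, Function.update_of_ne h.2.1, Function.update_of_ne h.2.2]
        · rfl
      · simp only [g, ii, Sum.elim_inr]
        split_ifs with h
        · rfl
        · rw [Function.update_of_ne (Ne.symm h)]) hN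
    have hinj : Function.Injective x := by
      intro a b hab
      by_contra hne
      have := hx (Sum.inr (a, b))
      simp only [g, ii, Sum.elim_inr, if_neg hne, Finset.mem_singleton] at this
      exact this hab
    obtain ⟨α, β, hα, hβ, hd, hnf, hr⟩ := hR x hinj
    have hdis : Disjoint (sv (mp x α)) (sv (mp x β)) := by
      rw [Finset.disjoint_left]
      intro v hv hv'
      obtain ⟨i, hi, rfl⟩ := Finset.mem_image.mp hv
      obtain ⟨j, hj, hij⟩ := Finset.mem_image.mp hv'
      rw [su_mp, su_mp] at hij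
      rw [Finset.mem_range, slen_mp] at hi hj
      exact hd i hi j hj (hinj hij).symm
    apply hUhit _ _ (sok_mp hinj hα) (sok_mp hinj hβ) hdis hr
    rw [Finset.disjoint_left]
    intro v hv
    obtain ⟨j, hj, rfl⟩ := Finset.mem_image.mp hv
    rw [Finset.mem_range, slen_mp] at hj
    rw [su_mp]
    have := hx (Sum.inl (α, Cy.u β j))
    have hc : α.2.1 ≠ Cy.u β j ∧ α.2.2.1 ≠ Cy.u β j ∧ α.2.2.2 ≠ Cy.u β j := by
      have e0 := hd 0 (Cy.len_pos α) j hj
      have e1 := hd 1 (by unfold Cy.len; split_ifs <;> norm_num) j hj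
      have f0 : Cy.u α 0 = α.2.1 := by simp [Cy.u]
      have f1 : Cy.u α 1 = α.2.2.1 := by simp [Cy.u]
      rw [f0] at e0
      rw [f1] at e1
      refine ⟨e0, e1, ?_⟩
      by_cases hfl : α.1 = true
      · have e2 := hd 2 (by unfold Cy.len; rw [if_pos hfl]; norm_num) j hj
        have f2 : Cy.u α 2 = α.2.2.2 := by simp [Cy.u, hfl]
        rwa [f2] at e2
      · rw [hnf (by simpa using hfl)]; exact e0
    simp only [g, ii, Sum.elim_inl, if_pos hc] at this
    exact this

end star

end Pool.Agent.Helper683
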